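import Mathlib

/-!
# Cyclic groups acting on finite abelian groups have an orbit of full length (MP_5fbfc2_al)
-/

namespace Pool.Agent.MP_5fbfc2_al.CC

open Function

section Orbit

variable {A : Type*} [CommGroup A]

/-- `b ↦ ∏_{i < q} f^(k i) b` -/
def normHom (f : A →* A) (k q : ℕ) : A →* A where
  toFun b := ∏ i ∈ Finset.range q, f^[k * i] b
  map_one' := by simp [iterate_map_one]
  map_mul' a b := by simp [iterate_map_mul, Finset.prod_mul_distrib]

theorem normHom_apply (f : A →* A) (k q : ℕ) (b : A) :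
    normHom f k q b = ∏ i ∈ Finset.range q, f^[k * i] b := rfl

theorem normHom_comm (f : A →* A) (k q : ℕ) (b : A) :
    normHom f k q (f b) = f (normHom f k q b) := by
  rw [normHom_apply, normHom_apply, map_prod]
  refine Finset.prod_congr rfl (fun i _ => ?_)
  rw [← iterate_succ_apply, iterate_succ_apply']

theorem normHom_fixed (f : A →* A) (k q : ℕ) (b : A) (hb : f^[k * q] b = b) :
    f^[k] (normHom f k q b) = normHom f k q b := by
  have h0 : f^[k] (normHom f k q b) = ∏ i ∈ Finset.range q, f^[k * (i + 1)] b := by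
    rw [normHom_apply]
    have h1 : ∀ s : Finset ℕ, ∀ g : ℕ → A, f^[k] (∏ i ∈ s, g i) = ∏ i ∈ s, f^[k] (g i) := by
      intro s g
      induction s using Finset.induction_on with
      | empty => simp [iterate_map_one]
      | insert a s ha ih => rw [Finset.prod_insert ha, Finset.prod_insert ha, iterate_map_mul, ih]
    rw [h1]
    refine Finset.prod_congr rfl (fun i _ => ?_)
    rw [← iterate_add_apply, mul_add, mul_one, add_comm]
  rw [h0, normHom_apply]
  have h2 := Finset.prod_range_succ (fun i => f^[k * i] b) q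
  have h3 := Finset.prod_range_succ' (fun i => f^[k * i] b) q
  rw [h2] at h3
  rw [hb] at h3
  simp only [mul_zero, iterate_zero, id_eq] at h3
  exact (mul_right_cancel h3).symm

omit [CommGroup A] in
theorem iter_mul_fixed (f : A → A) (k i : ℕ) (b : A) (hb : f^[k] b = b) : f^[k * i] b = b := by
  rw [iterate_mul]
  exact Function.iterate_fixed hb i

theorem normHom_of_fixed (f : A →* A) (k q : ℕ) (b : A) (hb : f^[k] b = b) :
    normHom f k q b = b ^ q := by
  rw [normHom_apply, Finset.prod_congr rfl (fun i _ => iter_mul_fixed f k i b hb),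
    Finset.prod_const, Finset.card_range]

theorem orbit_aux [Finite A] (f : A →* A) (hf : Injective f) : ∀ n : ℕ, ∀ B : Subgroup A,
    Nat.card B = n → (∀ b ∈ B, f b ∈ B) →
    ∃ u ∈ B, ∀ i : ℕ, f^[i] u = u → ∀ b ∈ B, f^[i] b = b := by
  classical
  intro n
  induction n using Nat.strong_induction_on with
  | _ n ih =>
  intro B hn hB
  have hBi : ∀ (i : ℕ), ∀ b ∈ B, f^[i] b ∈ B := by
    intro i
    induction i with
    | zero => intro b hb; exact hb
    | succ i ihi => intro b hb; rw [iterate_succ_apply']; exact hB _ (ihi b hb)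
  by_cases hdec : ∃ B1 B2 : Subgroup A, B1 < B ∧ B2 < B ∧ (∀ b ∈ B1, f b ∈ B1) ∧
      (∀ b ∈ B2, f b ∈ B2) ∧ (∀ b ∈ B1, b ∈ B2 → b = 1) ∧
      (∀ b ∈ B, ∃ b1 ∈ B1, ∃ b2 ∈ B2, b = b1 * b2)
  · obtain ⟨B1, B2, h1, h2, hf1, hf2, hint, hsum⟩ := hdec
    have hlt : ∀ B' : Subgroup A, B' < B → Nat.card B' < n := by
      intro B' h'
      rw [← hn]
      by_contra hcon
      exact h'.ne (Subgroup.eq_of_le_of_card_ge h'.le (not_lt.1 hcon))
    obtain ⟨u1, hu1, hu1'⟩ := ih _ (hlt B1 h1) B1 rfl hf1
    obtain ⟨u2, hu2, hu2'⟩ := ih _ (hlt B2 h2) B2 rfl hf2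
    have hi1 : ∀ (i : ℕ), f^[i] u1 ∈ B1 := by
      intro i
      induction i with
      | zero => exact hu1
      | succ i ihi => rw [iterate_succ_apply']; exact hf1 _ ihi
    have hi2 : ∀ (i : ℕ), f^[i] u2 ∈ B2 := by
      intro i
      induction i with
      | zero => exact hu2
      | succ i ihi => rw [iterate_succ_apply']; exact hf2 _ ihi
    refine ⟨u1 * u2, B.mul_mem (h1.le hu1) (h2.le hu2), ?_⟩
    intro i hi b hb
    rw [iterate_map_mul] at hi
    have h3 : u1⁻¹ * f^[i] u1 = u2 * (f^[i] u2)⁻¹ := by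
      rw [inv_mul_eq_iff_eq_mul, ← mul_assoc, ← hi, mul_inv_cancel_right]
    have h4 : u1⁻¹ * f^[i] u1 = 1 :=
      hint _ (B1.mul_mem (B1.inv_mem hu1) (hi1 i))
        (by rw [h3]; exact B2.mul_mem hu2 (B2.inv_mem (hi2 i)))
    have h5 : f^[i] u1 = u1 := (inv_mul_eq_one.1 h4).symm
    have h6 : f^[i] u2 = u2 := by
      rw [h4] at h3
      exact (mul_inv_eq_one.1 h3.symm).symm
    obtain ⟨b1, hb1, b2, hb2, rfl⟩ := hsum b hb
    rw [iterate_map_mul, hu1' i h5 b1 hb1, hu2' i h6 b2 hb2]
  · -- idempotent endomorphisms are trivial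
    have hidem : ∀ φ : A →* A, (∀ b ∈ B, φ b ∈ B) → (∀ b, φ (f b) = f (φ b)) →
        (∀ b ∈ B, φ (φ b) = φ b) → (∀ b ∈ B, φ b = b) ∨ (∀ b ∈ B, φ b = 1) := by
      intro φ hφB hφf hφφ
      by_contra hcon
      rw [not_or] at hcon
      apply hdec
      refine ⟨B ⊓ φ.eqLocus (MonoidHom.id A), B ⊓ φ.ker, ?_, ?_, ?_, ?_, ?_, ?_⟩
      · refine lt_of_le_of_ne inf_le_left (fun h => hcon.1 (fun b hb => ?_))
        rw [← h] at hb
        exact hb.2
      · refine lt_of_le_of_ne inf_le_left (fun h => hcon.2 (fun b hb => ?_))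
        rw [← h] at hb
        exact hb.2
      · intro b hb
        refine ⟨hB b hb.1, ?_⟩
        change φ (f b) = f b
        have h1 : φ b = b := hb.2
        rw [hφf, h1]
      · intro b hb
        refine ⟨hB b hb.1, ?_⟩
        change φ (f b) = 1
        have h1 : φ b = 1 := hb.2
        rw [hφf, h1, map_one]
      · intro b hb hb'
        have h1 : φ b = b := hb.2
        have h2 : φ b = 1 := hb'.2
        rw [← h1, h2]
      · intro b hb
        refine ⟨φ b, ⟨hφB b hb, hφφ b hb⟩, b * (φ b)⁻¹,
          ⟨B.mul_mem hb (B.inv_mem (hφB b hb)), ?_⟩, ?_⟩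
        · change φ (b * (φ b)⁻¹) = 1
          rw [map_mul, map_inv, hφφ b hb, mul_inv_cancel]
        · rw [mul_comm b, mul_inv_cancel_left]
    by_cases hbot : Nat.card B = 1
    · refine ⟨1, B.one_mem, ?_⟩
      intro i _ b hb
      have h1 : b = 1 := by
        have : Subsingleton B := (Nat.card_eq_one_iff_unique.1 hbot).1
        have h2 : (⟨b, hb⟩ : B) = 1 := Subsingleton.elim _ _
        exact congrArg Subtype.val h2
      rw [h1, iterate_map_one]
    -- a prime divisor
    obtain ⟨r, hr, hrB⟩ := Nat.exists_prime_and_dvd hbot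
    have : Fact r.Prime := ⟨hr⟩
    have hB0 : Nat.card B ≠ 0 := Nat.card_pos.ne'
    have hpow : ∀ b ∈ B, b ^ (r ^ (Nat.card B).factorization r) = 1 := by
      obtain ⟨s, hs⟩ : ∃ s, s = (Nat.card B).factorization r := ⟨_, rfl⟩
      obtain ⟨k, hk⟩ : ∃ k, k = Nat.card B / r ^ (Nat.card B).factorization r := ⟨_, rfl⟩
      rw [← hs]
      rw [← hs] at hk
      have hsk : r ^ s * k = Nat.card B := by
        rw [hk, hs]; exact Nat.ordProj_mul_ordCompl_eq_self _ _
      have hco : Nat.Coprime (r ^ s) k := by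
        rw [hk, hs]; exact Nat.Coprime.pow_left _ (Nat.coprime_ordCompl hr hB0)
      have hs0 : s ≠ 0 := by
        rw [hs]
        exact (hr.factorization_pos_of_dvd hB0 hrB).ne'
      obtain ⟨e, he1, he2⟩ := Nat.chineseRemainder hco 0 1
      have hcard : ∀ b ∈ B, b ^ (r ^ s * k) = 1 := by
        intro b hb
        rw [hsk]
        have h1 := pow_card_eq_one' (x := (⟨b, hb⟩ : B))
        exact congrArg Subtype.val h1
      have hee : e * e ≡ e [MOD r ^ s * k] := by
        rw [← Nat.modEq_and_modEq_iff_modEq_mul hco]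
        refine ⟨?_, ?_⟩
        · exact (he1.mul_right e).trans (by rw [zero_mul]; exact he1.symm)
        · exact (he2.mul_right e).trans (by rw [one_mul])
      rcases hidem (powMonoidHom e) (fun b hb => B.pow_mem hb e)
        (fun b => by simp) (fun b hb => by
          change (b ^ e) ^ e = b ^ e
          rw [← pow_mul]
          exact pow_eq_pow_of_modEq hee (hcard b hb)) with h | h
      · exfalso
        obtain ⟨x, hx⟩ := exists_prime_orderOf_dvd_card' (G := B) r hrB
        have h1 : (x : A) ^ e = x := h x x.2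
        have h2 : r ∣ e := (dvd_pow_self r hs0).trans ((Nat.modEq_zero_iff_dvd).1 he1)
        have h3 : (x : A) ^ e = 1 := by
          have h4 : x ^ e = 1 := by rw [← orderOf_dvd_iff_pow_eq_one, hx]; exact h2
          exact congrArg Subtype.val h4
        have h5 : (x : A) = 1 := h1.symm.trans h3
        have h6 : x = 1 := Subtype.ext h5
        rw [h6, orderOf_one] at hx
        exact hr.one_lt.ne hx
      · intro b hb
        have h1 : b ^ e = 1 := h b hb
        rw [← orderOf_dvd_iff_pow_eq_one]
        have h2 : orderOf b ∣ e := orderOf_dvd_iff_pow_eq_one.2 h1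
        have h3 : orderOf b ∣ r ^ s * k := orderOf_dvd_iff_pow_eq_one.2 (hcard b hb)
        have h4 : Nat.Coprime e k := by
          have h5 : Nat.gcd e k = Nat.gcd 1 k := he2.gcd_eq
          rw [Nat.gcd_one_left] at h5
          exact h5
        exact (Nat.Coprime.coprime_dvd_left h2 h4).dvd_of_dvd_mul_right h3
    -- the order of `f` on `B`
    have : Fintype B := Fintype.ofFinite B
    have hper : ∀ b : A, 0 < minimalPeriod f b := fun b =>
      minimalPeriod_pos_of_mem_periodicPts (hf.mem_periodicPts b)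
    obtain ⟨m, hmdef⟩ : ∃ m : ℕ, m = Finset.univ.lcm (fun b : B => minimalPeriod f (b : A)) :=
      ⟨_, rfl⟩
    have hm : ∀ i : ℕ, (∀ b ∈ B, f^[i] b = b) ↔ m ∣ i := by
      intro i
      rw [hmdef, Finset.lcm_dvd_iff]
      constructor
      · intro h b _
        exact IsPeriodicPt.minimalPeriod_dvd (h b b.2)
      · intro h b hb
        exact (isPeriodicPt_iff_minimalPeriod_dvd).2 (h ⟨b, hb⟩ (Finset.mem_univ _))
    have hm0 : m ≠ 0 := by
      rw [hmdef, Ne, Finset.lcm_eq_zero_iff]
      rintro ⟨b, _, hb⟩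
      exact (hper b).ne' hb
    have hmq : ∀ q : ℕ, q.Prime → q ∣ m → ∃ b ∈ B, f^[m / q] b ≠ b := by
      intro q hq hqm
      by_contra hcon
      push Not at hcon
      have h1 := (hm (m / q)).1 hcon
      have h2 : 0 < m / q := Nat.div_pos (Nat.le_of_dvd (Nat.pos_of_ne_zero hm0) hqm) hq.pos
      have h3 := Nat.le_of_dvd h2 h1
      exact absurd h3 (not_le.2 (Nat.div_lt_self (Nat.pos_of_ne_zero hm0) hq.one_lt))
    have hfree : ∀ q : ℕ, q.Prime → q ≠ r → q ∣ m → ∀ b ∈ B, f^[m / q] b = b → b = 1 := by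
      intro q hq hqr hqm
      obtain ⟨s, hs⟩ : ∃ s, s = (Nat.card B).factorization r := ⟨_, rfl⟩
      rw [← hs] at hpow
      have hco : Nat.Coprime q (r ^ s) :=
        Nat.Coprime.pow_right s ((Nat.coprime_primes hq hr).2 hqr)
      obtain ⟨e, he1, he2⟩ := Nat.chineseRemainder hco 0 1
      obtain ⟨t, rfl⟩ := (Nat.modEq_zero_iff_dvd).1 he1
      have hkq : m / q * q = m := Nat.div_mul_cancel hqm
      have hfm : ∀ b ∈ B, f^[m / q * q] b = b := by
        rw [hkq]
        exact (hm m).2 dvd_rfl
      have hNB : ∀ b ∈ B, normHom f (m / q) q b ∈ B := by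
        intro b hb
        rw [normHom_apply]
        exact B.prod_mem (fun i _ => hBi _ b hb)
      have hqt : ∀ b ∈ B, b ^ (q * t) = b := by
        intro b hb
        have h1 := pow_eq_pow_of_modEq he2 (hpow b hb)
        rwa [pow_one] at h1
      rcases hidem ((powMonoidHom t).comp (normHom f (m / q) q))
        (fun b hb => B.pow_mem (hNB b hb) t)
        (fun b => by
          change (normHom f (m / q) q (f b)) ^ t = f ((normHom f (m / q) q b) ^ t)
          rw [normHom_comm, map_pow])
        (fun b hb => by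
          change (normHom f (m / q) q ((normHom f (m / q) q b) ^ t)) ^ t =
            (normHom f (m / q) q b) ^ t
          have h1 : normHom f (m / q) q ((normHom f (m / q) q b) ^ t) =
              normHom f (m / q) q b := by
            rw [map_pow, normHom_of_fixed f _ _ _ (normHom_fixed f _ _ b (hfm b hb))]
            exact (pow_mul _ q t).symm.trans (hqt _ (hNB b hb))
          rw [h1]) with h | h
      · exfalso
        obtain ⟨b, hb, hne⟩ := hmq q hq hqm
        apply hne
        have h1 : (normHom f (m / q) q b) ^ t = b := h b hb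
        have h2 : f^[m / q] ((normHom f (m / q) q b) ^ t) = (normHom f (m / q) q b) ^ t := by
          have h3 : f^[m / q] ((normHom f (m / q) q b) ^ t) =
              (f^[m / q] (normHom f (m / q) q b)) ^ t := iterate_map_pow f _ _ _
          rw [h3, normHom_fixed f _ _ b (hfm b hb)]
        rwa [h1] at h2
      · intro b hb hfix
        have h1 : (normHom f (m / q) q b) ^ t = 1 := h b hb
        have h2 : b ^ q = 1 := by
          rw [← normHom_of_fixed f (m / q) q b hfix, ← hqt _ (hNB b hb), mul_comm, pow_mul, h1,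
            one_pow]
        have h3 : orderOf b ∣ q := orderOf_dvd_iff_pow_eq_one.2 h2
        have h4 : orderOf b ∣ r ^ s := orderOf_dvd_iff_pow_eq_one.2 (hpow b hb)
        exact orderOf_eq_one_iff.1 (Nat.eq_one_of_dvd_coprimes hco h3 h4)
    -- the element
    obtain ⟨u, huB, hu⟩ : ∃ u ∈ B, ∀ q : ℕ, q.Prime → q ∣ m → f^[m / q] u ≠ u := by
      by_cases hrm : r ∣ m
      · obtain ⟨u, huB, hu⟩ := hmq r hr hrm
        refine ⟨u, huB, ?_⟩
        intro q hq hqm
        by_cases hqr : q = r
        · rw [hqr]; exact hu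
        · intro h
          have h1 := hfree q hq hqr hqm u huB h
          apply hu
          rw [h1, iterate_map_one]
      · obtain ⟨x, hx⟩ := exists_prime_orderOf_dvd_card' (G := B) r hrB
        refine ⟨x, x.2, ?_⟩
        intro q hq hqm h
        have hqr : q ≠ r := fun h' => hrm (h' ▸ hqm)
        have h1 := hfree q hq hqr hqm x x.2 h
        have h2 : x = 1 := Subtype.ext h1
        rw [h2, orderOf_one] at hx
        exact hr.one_lt.ne hx
    refine ⟨u, huB, ?_⟩
    intro i hi
    have hper' : minimalPeriod f u = m := by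
      have h1 : minimalPeriod f u ∣ m :=
        IsPeriodicPt.minimalPeriod_dvd ((hm m).2 dvd_rfl u huB)
      by_contra hne
      obtain ⟨d, hd⟩ := h1
      have hd1 : d ≠ 1 := by
        rintro rfl
        rw [mul_one] at hd
        exact hne hd.symm
      obtain ⟨q, hq, hqd⟩ := Nat.exists_prime_and_dvd hd1
      have hqm : q ∣ m := by rw [hd]; exact hqd.mul_left _
      apply hu q hq hqm
      obtain ⟨d', rfl⟩ := hqd
      have h2 : m / q = minimalPeriod f u * d' := by
        rw [hd]
        apply Nat.div_eq_of_eq_mul_left hq.pos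
        ring
      exact (isPeriodicPt_iff_minimalPeriod_dvd).2 (by rw [h2]; exact dvd_mul_right _ _)
    apply (hm i).2
    rw [← hper']
    exact IsPeriodicPt.minimalPeriod_dvd hi

/-- An automorphism of a finite abelian group has an orbit on which only the trivial power fixes
a point. -/
theorem exists_regular [Finite A] (f : A →* A) (hf : Injective f) :
    ∃ u : A, ∀ i : ℕ, f^[i] u = u → ∀ b : A, f^[i] b = b := by
  obtain ⟨u, _, hu⟩ := orbit_aux f hf _ ⊤ rfl (fun b _ => Subgroup.mem_top _)
  exact ⟨u, fun i hi b => hu i hi b (Subgroup.mem_top b)⟩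

end Orbit

end Pool.Agent.MP_5fbfc2_al.CC
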