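import Pool.Agent.Lib.MP_5fbfc2_al.CC.AbelCyc
import Pool.Agent.Lib.MP_5fbfc2_al.CC.Orbit

/-!
# The conductor of abelian-by-cyclic groups is not empty (MP_5fbfc2_al)
-/

namespace Pool.Agent.MP_5fbfc2_al.CC

open Module Pool.Agent.MP_5fbfc2_al Function

variable {G : Type*} [Group G]

/-- in a cyclic quotient every element is a natural power of a generator -/
theorem exists_pow_mul [Finite G] (A : Subgroup G) [A.Normal] (g : G)
    (hg : ∀ x : G ⧸ A, x ∈ Subgroup.zpowers (g : G ⧸ A)) (x : G) :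
    ∃ i : ℕ, ∃ a ∈ A, x = g ^ i * a := by
  have h1 := mem_powers_iff_mem_zpowers.2 (hg (x : G ⧸ A))
  obtain ⟨i, hi⟩ := h1
  have h2 : ((g ^ i : G) : G ⧸ A) = (x : G ⧸ A) := by
    rw [← hi]; rfl
  refine ⟨i, (g ^ i)⁻¹ * x, QuotientGroup.eq.1 h2, ?_⟩
  rw [mul_inv_cancel_left]

theorem centralizer_abelian [Finite G] (A : Subgroup G) [A.Normal]
    (hab : ∀ a ∈ A, ∀ b ∈ A, a * b = b * a) (hcyc : IsCyclic (G ⧸ A)) :
    ∀ x ∈ Subgroup.centralizer (A : Set G), ∀ y ∈ Subgroup.centralizer (A : Set G),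
      x * y = y * x := by
  obtain ⟨g', hg'⟩ := hcyc.exists_generator
  obtain ⟨g, rfl⟩ := QuotientGroup.mk_surjective g'
  intro x hx y hy
  obtain ⟨i, a, ha, rfl⟩ := exists_pow_mul A g hg' x
  obtain ⟨j, b, hb, rfl⟩ := exists_pow_mul A g hg' y
  have h1 : b * (g ^ i * a) = g ^ i * a * b := Subgroup.mem_centralizer_iff.1 hx b hb
  have h2 : a * (g ^ j * b) = g ^ j * b * a := Subgroup.mem_centralizer_iff.1 hy a ha
  have h3 : b * g ^ i = g ^ i * b := by
    apply mul_right_cancel (b := a)
    calc b * g ^ i * a = b * (g ^ i * a) := by rw [mul_assoc]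
      _ = g ^ i * a * b := h1
      _ = g ^ i * (a * b) := by rw [mul_assoc]
      _ = g ^ i * (b * a) := by rw [hab a ha b hb]
      _ = g ^ i * b * a := by rw [mul_assoc]
  have h4 : a * g ^ j = g ^ j * a := by
    apply mul_right_cancel (b := b)
    calc a * g ^ j * b = a * (g ^ j * b) := by rw [mul_assoc]
      _ = g ^ j * b * a := h2
      _ = g ^ j * (b * a) := by rw [mul_assoc]
      _ = g ^ j * (a * b) := by rw [hab a ha b hb]
      _ = g ^ j * a * b := by rw [mul_assoc]
  calc g ^ i * a * (g ^ j * b) = g ^ i * (a * g ^ j) * b := by simp only [mul_assoc]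
    _ = g ^ i * (g ^ j * a) * b := by rw [h4]
    _ = (g ^ i * g ^ j) * (a * b) := by simp only [mul_assoc]
    _ = (g ^ j * g ^ i) * (b * a) := by
        rw [← pow_add, ← pow_add, add_comm, hab a ha b hb]
    _ = g ^ j * (g ^ i * b) * a := by simp only [mul_assoc]
    _ = g ^ j * (b * g ^ i) * a := by rw [h3]
    _ = g ^ j * b * (g ^ i * a) := by simp only [mul_assoc]

/-- **Abelian-by-cyclic groups.** -/
theorem exists_prime_of_abelian_by_cyclic [Finite G] (A : Subgroup G) [A.Normal]
    (hab : ∀ a ∈ A, ∀ b ∈ A, a * b = b * a) (hcyc : IsCyclic (G ⧸ A))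
    (hna : ¬ ∀ x y : G, x * y = y * x) : ∃ p ∈ Ccomm G, p ∣ Nat.card G := by
  obtain ⟨B, hB⟩ : ∃ B : Subgroup G, B = Subgroup.centralizer (A : Set G) := ⟨_, rfl⟩
  have hBab : ∀ x ∈ B, ∀ y ∈ B, x * y = y * x := by
    rw [hB]
    exact centralizer_abelian A hab hcyc
  have hAB : A ≤ B := by
    rw [hB]
    intro a ha
    rw [Subgroup.mem_centralizer_iff]
    intro b hb
    exact hab b hb a ha
  have hBn : B.Normal := by
    rw [hB]
    infer_instance
  have hBB : ∀ x : G, (∀ b ∈ B, x * b = b * x) → x ∈ B := by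
    intro x hx
    rw [hB, Subgroup.mem_centralizer_iff]
    intro a ha
    exact (hx a (hAB ha)).symm
  have hBcyc : IsCyclic (G ⧸ B) := by
    have hle : A ≤ B.comap (MonoidHom.id G) := hAB
    refine isCyclic_of_surjective (QuotientGroup.map A B (MonoidHom.id G) hle) ?_
    intro y
    obtain ⟨x, rfl⟩ := QuotientGroup.mk_surjective y
    exact ⟨(x : G ⧸ A), rfl⟩
  have hBtop : B ≠ ⊤ := by
    intro h
    apply hna
    intro x y
    exact hBab x (by rw [h]; trivial) y (by rw [h]; trivial)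
  obtain ⟨g', hg'⟩ := hBcyc.exists_generator
  obtain ⟨g, rfl⟩ := QuotientGroup.mk_surjective g'
  let _ : CommGroup B := { (inferInstance : Group B) with
    mul_comm := fun a b => Subtype.ext (hBab a a.2 b b.2) }
  let f : B →* B :=
    { toFun := fun b => ⟨g * b * g⁻¹, hBn.conj_mem b b.2 g⟩
      map_one' := by apply Subtype.ext; simp
      map_mul' := fun a b => by
        apply Subtype.ext
        change g * ((a : G) * (b : G)) * g⁻¹ = (g * (a : G) * g⁻¹) * (g * (b : G) * g⁻¹)
        group }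
  have hfit : ∀ (i : ℕ) (b : B), ((f^[i] b : B) : G) = g ^ i * b * (g ^ i)⁻¹ := by
    intro i b
    induction i with
    | zero => simp
    | succ i ih =>
      rw [iterate_succ_apply']
      change g * ((f^[i] b : B) : G) * g⁻¹ = _
      rw [ih, pow_succ' g i]
      group
  have hfinj : Injective f := by
    intro a b h
    have h1 : g * (a : G) * g⁻¹ = g * (b : G) * g⁻¹ := congrArg Subtype.val h
    exact Subtype.ext (mul_left_cancel (mul_right_cancel h1))
  obtain ⟨u, hu⟩ := exists_regular f hfinj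
  have hcu : cent (u : G) = B := by
    apply le_antisymm
    · intro x hx
      obtain ⟨i, a, ha, rfl⟩ := exists_pow_mul B g hg' x
      have h1 : (u : G) * (g ^ i * a) = g ^ i * a * u := mem_cent.1 hx
      have h2 : f^[i] u = u := by
        apply Subtype.ext
        rw [hfit]
        have h3 : g ^ i * (u : G) = (u : G) * g ^ i := by
          apply mul_right_cancel (b := a)
          calc g ^ i * (u : G) * a = g ^ i * ((u : G) * a) := by rw [mul_assoc]
            _ = g ^ i * (a * (u : G)) := by rw [hBab u u.2 a ha]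
            _ = g ^ i * a * u := by rw [mul_assoc]
            _ = (u : G) * (g ^ i * a) := h1.symm
            _ = (u : G) * g ^ i * a := by rw [mul_assoc]
        rw [h3, mul_inv_cancel_right]
      have h4 := hu i h2
      refine B.mul_mem (hBB _ (fun b hb => ?_)) ha
      have h5 : ((f^[i] ⟨b, hb⟩ : B) : G) = b := congrArg Subtype.val (h4 ⟨b, hb⟩)
      rw [hfit] at h5
      exact mul_inv_eq_iff_eq_mul.1 h5
    · intro x hx
      exact mem_cent.2 (hBab u u.2 x hx)
  obtain ⟨p, hp, hpB⟩ := exists_prime_of_cent_normal B hBab hBcyc hBtop (u : G) hcu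
  exact ⟨p, hp, hpB.trans (Subgroup.card_subgroup_dvd_card B)⟩

end Pool.Agent.MP_5fbfc2_al.CC
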