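import Pool.Agent.Lib.MP_5fbfc2_al.CC.Finiteness

/-!
# Groups with bounded class sizes: the number of commutators is bounded (MP_5fbfc2_al)
-/

namespace Pool.Agent.MP_5fbfc2_al.CC

open Module Pool.Agent.MP_5fbfc2_al
open scoped commutatorElement

variable {G : Type*} [Group G]

theorem conj_eq_of_mk {a x y : G} (h : x⁻¹ * y ∈ cent a) : x * a * x⁻¹ = y * a * y⁻¹ := by
  have h1 := mem_cent.1 h
  calc x * a * x⁻¹ = x * (a * (x⁻¹ * y)) * y⁻¹ := by group
    _ = x * ((x⁻¹ * y) * a) * y⁻¹ := by rw [h1]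
    _ = y * a * y⁻¹ := by group

theorem mk_of_conj_eq {a x y : G} (h : x * a * x⁻¹ = y * a * y⁻¹) : x⁻¹ * y ∈ cent a := by
  rw [mem_cent]
  calc a * (x⁻¹ * y) = x⁻¹ * (x * a * x⁻¹) * y := by group
    _ = x⁻¹ * (y * a * y⁻¹) * y := by rw [h]
    _ = x⁻¹ * y * a := by group

theorem card_commutatorSet_le [Finite G] {c : ℕ} (hc : ∀ g : G, (cent g).index ≤ c) :
    Nat.card (commutatorSet G) ≤ c ^ c * (c * (c * c)) := by
  classical
  have : Fintype G := Fintype.ofFinite G
  obtain ⟨a, ha⟩ := Finite.exists_max (fun g : G => (cent g).index)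
  have : Fintype (G ⧸ cent a) := Fintype.ofFinite _
  have hc0 : 0 < c := lt_of_lt_of_le
    (Nat.pos_of_ne_zero Subgroup.index_ne_zero_of_finite) (hc 1)
  let U : Subgroup G := ⨅ q : G ⧸ cent a, cent q.out
  have hU : U.index ≤ c ^ c := by
    calc U.index ≤ ∏ q : G ⧸ cent a, (cent q.out).index := Subgroup.index_iInf_le _
      _ ≤ ∏ _q : G ⧸ cent a, c := Finset.prod_le_prod' (fun q _ => hc _)
      _ = c ^ (cent a).index := by
          rw [Finset.prod_const, Finset.card_univ, ← Nat.card_eq_fintype_card]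
          rfl
      _ ≤ c ^ c := Nat.pow_le_pow_right hc0 (hc a)
  -- the commutators with elements of `U`
  have hkey : ∀ u ∈ U, ∀ y : G, ∃ q r : G ⧸ cent a,
      ⁅u, y⁆ = (q.out * a * q.out⁻¹) * (r.out * a * r.out⁻¹)⁻¹ := by
    intro u hu y
    have hcomm : ∀ q : G ⧸ cent a, q.out * u⁻¹ = u⁻¹ * q.out := by
      intro q
      have h1 := Subgroup.mem_iInf.1 (inv_mem hu) q
      exact mem_cent.1 h1
    have hinj : Function.Injective
        (fun q : G ⧸ cent a => (q.out : G ⧸ cent (u⁻¹ * a))) := by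
      intro q r hqr
      have h1 := conj_eq_of_mk (QuotientGroup.eq.1 hqr)
      rw [← QuotientGroup.out_eq' q, ← QuotientGroup.out_eq' r, QuotientGroup.eq]
      apply mk_of_conj_eq
      rw [← mul_assoc, ← mul_assoc, hcomm q, hcomm r] at h1
      have h2 : u⁻¹ * (q.out * a * q.out⁻¹) = u⁻¹ * (r.out * a * r.out⁻¹) := by
        simpa only [mul_assoc] using h1
      exact mul_left_cancel h2
    have hbij := hinj.bijective_of_nat_card_le (ha (u⁻¹ * a))
    obtain ⟨q, hq⟩ := hbij.2 (y : G ⧸ cent (u⁻¹ * a))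
    have h1 := conj_eq_of_mk (QuotientGroup.eq.1 hq)
    rw [← mul_assoc, hcomm q] at h1
    refine ⟨q, (y : G ⧸ cent a), ?_⟩
    have h2 : y * a * y⁻¹ = (y : G ⧸ cent a).out * a * (y : G ⧸ cent a).out⁻¹ := by
      apply conj_eq_of_mk
      rw [← QuotientGroup.eq]
      exact (QuotientGroup.out_eq' _).symm
    rw [← h2, commutatorElement_def]
    have h3 : q.out * a * q.out⁻¹ = u * (y * (u⁻¹ * a) * y⁻¹) := by
      rw [← h1]; group
    rw [h3]
    group
  -- all commutators
  have hall : ∀ x y : G, ∃ (t : G ⧸ U) (q r : G ⧸ cent a) (s : G ⧸ cent t.out),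
      ⁅x, y⁆ = t.out * ((q.out * a * q.out⁻¹) * (r.out * a * r.out⁻¹)⁻¹) * t.out⁻¹ *
        ⁅t.out, s.out⁆ := by
    intro x y
    obtain ⟨v, hv⟩ := QuotientGroup.mk_out_eq_mul U x
    obtain ⟨q, r, hqr⟩ := hkey _ (inv_mem v.2) y
    refine ⟨(x : G ⧸ U), q, r, (y : G ⧸ cent (x : G ⧸ U).out), ?_⟩
    have h1 : ⁅(x : G ⧸ U).out, (y : G ⧸ cent (x : G ⧸ U).out).out⁆ =
        ⁅(x : G ⧸ U).out, y⁆ := by
      have h2 : (y : G ⧸ cent (x : G ⧸ U).out).out * (x : G ⧸ U).out *
          (y : G ⧸ cent (x : G ⧸ U).out).out⁻¹ = y * (x : G ⧸ U).out * y⁻¹ := by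
        apply conj_eq_of_mk
        rw [← QuotientGroup.eq]
        exact QuotientGroup.out_eq' _
      rw [commutatorElement_def, commutatorElement_def]
      calc _ = (x : G ⧸ U).out * ((y : G ⧸ cent (x : G ⧸ U).out).out * (x : G ⧸ U).out *
          (y : G ⧸ cent (x : G ⧸ U).out).out⁻¹)⁻¹ := by group
        _ = _ := by rw [h2]; group
    rw [h1, ← hqr]
    have hx : x = (x : G ⧸ U).out * (v : G)⁻¹ := by rw [hv]; group
    generalize (x : G ⧸ U).out = o at hx
    rw [hx]
    simp only [commutatorElement_def]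
    group
  choose t q r s hts using hall
  let F : commutatorSet G → (Σ t : G ⧸ U, (G ⧸ cent a) × (G ⧸ cent a) × (G ⧸ cent t.out)) :=
    fun z => ⟨t z.2.choose z.2.choose_spec.choose, q z.2.choose z.2.choose_spec.choose,
      r z.2.choose z.2.choose_spec.choose, s z.2.choose z.2.choose_spec.choose⟩
  let E : (Σ t : G ⧸ U, (G ⧸ cent a) × (G ⧸ cent a) × (G ⧸ cent t.out)) → G :=
    fun w => w.1.out * ((w.2.1.out * a * w.2.1.out⁻¹) *
      (w.2.2.1.out * a * w.2.2.1.out⁻¹)⁻¹) * w.1.out⁻¹ * ⁅w.1.out, w.2.2.2.out⁆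
  have hEF : ∀ z : commutatorSet G, E (F z) = z := by
    intro z
    exact (hts z.2.choose z.2.choose_spec.choose).symm.trans z.2.choose_spec.choose_spec
  have hF : Function.Injective F := by
    intro z z' h
    apply Subtype.ext
    rw [← hEF z, ← hEF z', h]
  have : Fintype (G ⧸ U) := Fintype.ofFinite _
  calc Nat.card (commutatorSet G)
      ≤ Nat.card (Σ t : G ⧸ U, (G ⧸ cent a) × (G ⧸ cent a) × (G ⧸ cent t.out)) :=
        Nat.card_le_card_of_injective F hF
    _ = ∑ t : G ⧸ U, Nat.card ((G ⧸ cent a) × (G ⧸ cent a) × (G ⧸ cent t.out)) :=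
        Nat.card_sigma
    _ ≤ ∑ _t : G ⧸ U, c * (c * c) := by
        apply Finset.sum_le_sum
        intro t _
        rw [Nat.card_prod, Nat.card_prod]
        exact Nat.mul_le_mul (hc a) (Nat.mul_le_mul (hc a) (hc t.out))
    _ = U.index * (c * (c * c)) := by
        rw [Finset.sum_const, Finset.card_univ, smul_eq_mul, ← Nat.card_eq_fintype_card]
        rfl
    _ ≤ c ^ c * (c * (c * c)) := Nat.mul_le_mul_right _ hU

/-- For every `c` there is `N` such that every finite group with empty conductor and class sizes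
at most `c` satisfies `|G : Z(G)| ≤ N` and `|G'| ≤ N`. -/
theorem bound_of_class_sizes (c : ℕ) : ∃ N : ℕ, ∀ (G : Type*) [Group G] [Finite G],
    (∀ g : G, (Subgroup.centralizer ({g} : Set G)).index ≤ c) → Ccomm G = ∅ →
    (Subgroup.center G).index ≤ N ∧ Nat.card (commutator G) ≤ N := by
  classical
  let m : ℕ := (Finset.range (c ^ c * (c * (c * c)) + 1)).sup Subgroup.cardCommutatorBound
  refine ⟨max (m ^ m * m ^ (m ^ m) * (m.factorial ^ 2) ^ m) m, ?_⟩
  intro G _ _ hc hE
  have hm : Nat.card (commutator G) ≤ m := by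
    refine (Subgroup.card_commutator_le_of_finite_commutatorSet G).trans ?_
    apply Finset.le_sup (f := Subgroup.cardCommutatorBound)
    rw [Finset.mem_range]
    exact Nat.lt_succ_of_le (card_commutatorSet_le hc)
  refine ⟨?_, hm.trans (le_max_right _ _)⟩
  by_contra hcon
  have h1 := exists_prime_of_large hm (lt_of_le_of_lt (le_max_left _ _) (not_le.1 hcon))
  rw [hE] at h1
  exact Set.not_nonempty_empty h1

end Pool.Agent.MP_5fbfc2_al.CC
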