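import Pool.Agent.Lib.MP_5fbfc2_al.CC.CyclicComm2

/-!
# Central products (MP_5fbfc2_al)
-/

namespace Pool.Agent.MP_5fbfc2_al.CC

open Module Pool.Agent.MP_5fbfc2_al Function
open scoped commutatorElement

variable {G : Type*} [Group G]

/-- A proper normal centraliser with cyclic quotient which properly contains no centraliser. -/
def HasMin (G : Type*) [Group G] : Prop :=
  ∃ (N : Subgroup G) (_ : N.Normal), IsCyclic (G ⧸ N) ∧ N ≠ ⊤ ∧ (∃ u : G, cent u = N) ∧
    ∀ v : G, cent v ≤ N → cent v = N

/-- **Abelian-by-cyclic groups.** -/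
theorem hasMin_of_abelian_by_cyclic [Finite G] (A : Subgroup G) [A.Normal]
    (hab : ∀ a ∈ A, ∀ b ∈ A, a * b = b * a) (hcyc : IsCyclic (G ⧸ A))
    (hna : ¬ ∀ x y : G, x * y = y * x) : HasMin G := by
  obtain ⟨B, hB⟩ : ∃ B : Subgroup G, B = Subgroup.centralizer (A : Set G) := ⟨_, rfl⟩
  have hBab : ∀ x ∈ B, ∀ y ∈ B, x * y = y * x := by
    rw [hB]
    exact centralizer_abelian A hab hcyc
  have hAB : A ≤ B := by
    rw [hB]
    intro a ha
    rw [Subgroup.mem_centralizer_iff]
    intro b hb
    exact hab b hb a ha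
  have hBn : B.Normal := by
    rw [hB]
    infer_instance
  have hBB : ∀ x : G, (∀ b ∈ B, x * b = b * x) → x ∈ B := by
    intro x hx
    rw [hB, Subgroup.mem_centralizer_iff]
    intro a ha
    exact (hx a (hAB ha)).symm
  have hBcyc : IsCyclic (G ⧸ B) := by
    have hle : A ≤ B.comap (MonoidHom.id G) := hAB
    refine isCyclic_of_surjective (QuotientGroup.map A B (MonoidHom.id G) hle) ?_
    intro y
    obtain ⟨x, rfl⟩ := QuotientGroup.mk_surjective y
    exact ⟨(x : G ⧸ A), rfl⟩
  have hBtop : B ≠ ⊤ := by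
    intro h
    apply hna
    intro x y
    exact hBab x (by rw [h]; trivial) y (by rw [h]; trivial)
  obtain ⟨g', hg'⟩ := hBcyc.exists_generator
  obtain ⟨g, rfl⟩ := QuotientGroup.mk_surjective g'
  let _ : CommGroup B := { (inferInstance : Group B) with
    mul_comm := fun a b => Subtype.ext (hBab a a.2 b b.2) }
  let f : B →* B :=
    { toFun := fun b => ⟨g * b * g⁻¹, hBn.conj_mem b b.2 g⟩
      map_one' := by apply Subtype.ext; simp
      map_mul' := fun a b => by
        apply Subtype.ext
        change g * ((a : G) * (b : G)) * g⁻¹ = (g * (a : G) * g⁻¹) * (g * (b : G) * g⁻¹)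
        group }
  have hfit : ∀ (i : ℕ) (b : B), ((f^[i] b : B) : G) = g ^ i * b * (g ^ i)⁻¹ := by
    intro i b
    induction i with
    | zero => simp
    | succ i ih =>
      rw [iterate_succ_apply']
      change g * ((f^[i] b : B) : G) * g⁻¹ = _
      rw [ih, pow_succ' g i]
      group
  have hfinj : Injective f := by
    intro a b h
    have h1 : g * (a : G) * g⁻¹ = g * (b : G) * g⁻¹ := congrArg Subtype.val h
    exact Subtype.ext (mul_left_cancel (mul_right_cancel h1))
  obtain ⟨u, hu⟩ := exists_regular f hfinj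
  have hcu : cent (u : G) = B := by
    apply le_antisymm
    · intro x hx
      obtain ⟨i, a, ha, rfl⟩ := exists_pow_mul B g hg' x
      have h1 : (u : G) * (g ^ i * a) = g ^ i * a * u := mem_cent.1 hx
      have h2 : f^[i] u = u := by
        apply Subtype.ext
        rw [hfit]
        have h3 : g ^ i * (u : G) = (u : G) * g ^ i := by
          apply mul_right_cancel (b := a)
          calc g ^ i * (u : G) * a = g ^ i * ((u : G) * a) := by rw [mul_assoc]
            _ = g ^ i * (a * (u : G)) := by rw [hBab u u.2 a ha]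
            _ = g ^ i * a * u := by rw [mul_assoc]
            _ = (u : G) * (g ^ i * a) := h1.symm
            _ = (u : G) * g ^ i * a := by rw [mul_assoc]
        rw [h3, mul_inv_cancel_right]
      have h4 := hu i h2
      refine B.mul_mem (hBB _ (fun b hb => ?_)) ha
      have h5 : ((f^[i] ⟨b, hb⟩ : B) : G) = b := congrArg Subtype.val (h4 ⟨b, hb⟩)
      rw [hfit] at h5
      exact mul_inv_eq_iff_eq_mul.1 h5
    · intro x hx
      exact mem_cent.2 (hBab u u.2 x hx)
  exact ⟨B, hBn, hBcyc, hBtop, ⟨u, hcu⟩, fun v hv => le_antisymm hv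
    (fun x hx => mem_cent.2 (hBab v (hv (mem_cent.2 rfl)) x hx))⟩


/-- the main case -/
theorem hasMin_of_cyclic_pow_aux [Finite G] {q k : ℕ} (hq : q.Prime) (hq2 : q ≠ 2)
    (hcyc : IsCyclic (commutator G)) (hcard : Nat.card (commutator G) = q ^ (k + 1))
    (hone : ∀ g : G, ∀ m : ℤ, (∀ a ∈ commutator G, g * a * g⁻¹ = a ^ m) → (q : ℤ) ∣ m - 1) :
    HasMin G := by
  classical
  have : Fact q.Prime := ⟨hq⟩
  have : Fintype G := Fintype.ofFinite G
  have hcommA : ∀ a ∈ commutator G, ∀ b ∈ commutator G, a * b = b * a := by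
    intro a ha b hb
    have := (IsCyclic.commGroup (α := commutator G)).mul_comm ⟨a, ha⟩ ⟨b, hb⟩
    exact congrArg Subtype.val this
  have hord : ∀ c ∈ commutator G, orderOf c ∣ q ^ (k + 1) := by
    intro c hc
    rw [← hcard, orderOf_dvd_iff_pow_eq_one]
    have h1 := pow_card_eq_one' (x := (⟨c, hc⟩ : commutator G))
    exact congrArg Subtype.val h1
  -- vanishing of commutators with powers
  have hvan : ∀ g u : G, ∀ n : ℕ, ⁅g ^ n, u⁆ = 1 ↔ orderOf ⁅g, u⁆ ∣ n := by
    intro g u n
    obtain ⟨m, hm⟩ := exists_conj_pow (commutator G) g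
    have h1 := comm_pow_eq (commutator G) g u m hm (mem_commutator' g u) n
    obtain ⟨b, _, hb⟩ := (Nat.dvd_prime_pow hq).1 (hord _ (mem_commutator' g u))
    rw [h1, ← orderOf_dvd_iff_zpow_eq_one, hb, Int.natCast_pow]
    exact dvd_geom_iff hq hq2 (hone g m hm) n b
  -- a commutator of full order
  obtain ⟨x, y, hxy⟩ : ∃ x y : G, orderOf ⁅x, y⁆ = q ^ (k + 1) := by
    by_contra hcon
    push Not at hcon
    have h1 : ∀ x y : G, ⁅x, y⁆ ^ (q ^ k) = 1 := by
      intro x y
      by_contra hne
      refine hcon x y (orderOf_eq_prime_pow hne ?_)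
      exact orderOf_dvd_iff_pow_eq_one.1 (hord _ (mem_commutator' x y))
    have h2 : ∀ z ∈ commutator G, z ^ (q ^ k) = 1 := by
      intro z hz
      have hz' := hz
      rw [commutator_eq_closure] at hz
      have h3 : z ∈ commutator G ∧ z ^ (q ^ k) = 1 := by
        induction hz using Subgroup.closure_induction with
        | mem w hw =>
          obtain ⟨a, b, rfl⟩ := hw
          exact ⟨mem_commutator' a b, h1 a b⟩
        | one => exact ⟨one_mem _, one_pow _⟩
        | mul a b ha hb iha ihb =>
          have ha' : a ∈ commutator G := by rw [commutator_eq_closure]; exact ha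
          have hb' : b ∈ commutator G := by rw [commutator_eq_closure]; exact hb
          refine ⟨mul_mem ha' hb', ?_⟩
          have hc : Commute a b := hcommA a ha' b hb'
          rw [hc.mul_pow, (iha ha').2, (ihb hb').2, one_mul]
        | inv a ha iha =>
          have ha' : a ∈ commutator G := by rw [commutator_eq_closure]; exact ha
          exact ⟨inv_mem ha', by rw [inv_pow, (iha ha').2, inv_one]⟩
      exact h3.2
    obtain ⟨z, hz⟩ := hcyc.exists_generator
    have h4 : orderOf z = q ^ (k + 1) := by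
      rw [← hcard]; exact orderOf_eq_card_of_forall_mem_zpowers hz
    have h5 : z ^ (q ^ k) = 1 := Subtype.ext (h2 z z.2)
    have h6 := orderOf_dvd_iff_pow_eq_one.2 h5
    rw [h4] at h6
    have h7 := Nat.le_of_dvd (pow_pos hq.pos k) h6
    exact absurd h7 (not_le.2 (Nat.pow_lt_pow_right hq.one_lt (Nat.lt_succ_self k)))
  -- the action on the commutator subgroup
  let χ : G →* MulAut (commutator G) := MulAut.conjNormal
  have hχcyc : IsCyclic (MulAut (commutator G)) := by
    have h1 := ZMod.isCyclic_units_of_prime_pow q hq hq2 (k + 1)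
    rw [← hcard] at h1
    exact isCyclic_of_injective (IsCyclic.mulAutMulEquiv (commutator G)).toMonoidHom
      (IsCyclic.mulAutMulEquiv (commutator G)).injective
  have hχpow : ∀ g : G, χ g ^ (q ^ (k + 1)) = 1 := by
    intro g
    rw [← map_pow]
    ext a
    change g ^ (q ^ (k + 1)) * (a : G) * (g ^ (q ^ (k + 1)))⁻¹ = a
    have h1 := (hvan g a (q ^ (k + 1))).2 (hord _ (mem_commutator' g a))
    rw [commutatorElement_def] at h1
    exact mul_inv_eq_one.1 h1
  have hker : ∀ g : G, χ g = 1 → g ∈ centComm G := by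
    intro g hg
    rw [Subgroup.mem_centralizer_iff]
    intro a ha
    have h1 : (χ g ⟨a, ha⟩ : G) = a := by rw [hg]; rfl
    have h2 : g * a * g⁻¹ = a := h1
    exact (mul_inv_eq_iff_eq_mul.1 h2).symm
  -- one of the two elements may be chosen in the centraliser of the commutator subgroup
  obtain ⟨u, g, hu, hgu⟩ : ∃ u g : G, u ∈ centComm G ∧ orderOf ⁅g, u⁆ = q ^ (k + 1) := by
    obtain ⟨a, _, ha⟩ := (Nat.dvd_prime_pow hq).1 (orderOf_dvd_iff_pow_eq_one.2 (hχpow x))
    obtain ⟨b, _, hb⟩ := (Nat.dvd_prime_pow hq).1 (orderOf_dvd_iff_pow_eq_one.2 (hχpow y))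
    rcases le_total a b with hab | hab
    · have h1 : orderOf (χ x) ∣ orderOf (χ y) := by
        rw [ha, hb]; exact pow_dvd_pow q hab
      obtain ⟨i, hi⟩ := Subgroup.mem_zpowers_iff.1 (mem_zpowers_of_orderOf_dvd _ _ h1)
      refine ⟨x * y ^ (-i), y, hker _ ?_, ?_⟩
      · rw [map_mul, map_zpow, zpow_neg, hi, mul_inv_cancel]
      · have h2 : ⁅y, x * y ^ (-i)⁆ = ⁅x, y⁆⁻¹ := by
          simp only [commutatorElement_def]
          group
        rw [h2, orderOf_inv, hxy]
    · have h1 : orderOf (χ y) ∣ orderOf (χ x) := by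
        rw [ha, hb]; exact pow_dvd_pow q hab
      obtain ⟨i, hi⟩ := Subgroup.mem_zpowers_iff.1 (mem_zpowers_of_orderOf_dvd _ _ h1)
      refine ⟨y * x ^ (-i), x, hker _ ?_, ?_⟩
      · rw [map_mul, map_zpow, zpow_neg, hi, mul_inv_cancel]
      · have h2 : ⁅x, y * x ^ (-i)⁆ = ⁅x, y⁆ := by
          simp only [commutatorElement_def]
          group
        rw [h2, hxy]
  have hN := cent_normal_of_mem u hu
  have hle : (cent u).index ≤ q ^ (k + 1) := by
    rw [← hcard]; exact index_cent_le u
  have hdvd : q ^ (k + 1) ∣ orderOf (g : G ⧸ cent u) := by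
    have h1 : (g : G ⧸ cent u) ^ orderOf (g : G ⧸ cent u) = 1 := pow_orderOf_eq_one _
    have h2 : g ^ orderOf (g : G ⧸ cent u) ∈ cent u := by
      rw [← QuotientGroup.eq_one_iff]
      exact h1
    have h3 : ⁅g ^ orderOf (g : G ⧸ cent u), u⁆ = 1 :=
      commutatorElement_eq_one_iff_mul_comm.2 (mem_cent.1 h2).symm
    rw [← hgu]
    exact (hvan g u _).1 h3
  have hge : q ^ (k + 1) ≤ orderOf (g : G ⧸ cent u) := Nat.le_of_dvd (orderOf_pos _) hdvd
  have hoc : orderOf (g : G ⧸ cent u) ≤ Nat.card (G ⧸ cent u) := by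
    exact Nat.le_of_dvd Nat.card_pos (orderOf_dvd_natCard _)
  have hidx : (cent u).index = Nat.card (G ⧸ cent u) := rfl
  have hcycN : IsCyclic (G ⧸ cent u) :=
    isCyclic_of_orderOf_eq_card (g : G ⧸ cent u) (by omega)
  have hmin : ∀ v : G, cent v ≤ cent u → cent v = cent u := by
    intro v hv
    apply Subgroup.eq_of_le_of_card_ge hv
    have h1 : (cent v).index * Nat.card (cent v) = Nat.card G := Subgroup.index_mul_card _
    have h2 : (cent u).index * Nat.card (cent u) = Nat.card G := Subgroup.index_mul_card _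
    have h3 : (cent v).index ≤ (cent u).index := by
      have h4 : (cent v).index ≤ q ^ (k + 1) := by
        rw [← hcard]; exact index_cent_le v
      omega
    have h5 : 0 < (cent u).index := Nat.pos_of_ne_zero Subgroup.index_ne_zero_of_finite
    by_contra hcon
    have h6 : (cent v).index * Nat.card (cent v) < (cent u).index * Nat.card (cent u) :=
      Nat.mul_lt_mul_of_le_of_lt h3 (not_le.1 hcon) h5
    omega
  have hne : cent u ≠ ⊤ := by
    intro h
    have h1 : (cent u).index = 1 := by rw [h, Subgroup.index_top]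
    have h2 : 1 < q ^ (k + 1) := Nat.one_lt_pow (Nat.succ_ne_zero k) hq.one_lt
    omega
  exact ⟨cent u, hN, hcycN, hne, ⟨u, rfl⟩, hmin⟩

/-- **Cyclic commutator subgroup of odd prime power order.** -/
theorem hasMin_of_cyclic_pow [Finite G] {q k : ℕ} (hq : q.Prime) (hq2 : q ≠ 2)
    (hcyc : IsCyclic (commutator G)) (hcard : Nat.card (commutator G) = q ^ (k + 1)) :
    HasMin G := by
  classical
  by_cases hone : ∀ g : G, ∀ m : ℤ, (∀ a ∈ commutator G, g * a * g⁻¹ = a ^ m) → (q : ℤ) ∣ m - 1
  · exact hasMin_of_cyclic_pow_aux hq hq2 hcyc hcard hone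
  · push Not at hone
    obtain ⟨g, m, hm, hqm⟩ := hone
    have hna : ¬ ∀ x y : G, x * y = y * x := by
      intro hab
      have h1 : commutator G = ⊥ := by
        rw [eq_bot_iff, commutator_eq_closure, Subgroup.closure_le]
        rintro w ⟨a, b, rfl⟩
        exact commutatorElement_eq_one_iff_mul_comm.2 (hab a b)
      rw [h1, Subgroup.card_bot] at hcard
      have h2 : 1 < q ^ (k + 1) := Nat.one_lt_pow (Nat.succ_ne_zero k) hq.one_lt
      omega
    -- a central element of the commutator subgroup is trivial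
    have htriv : ∀ z ∈ commutator G, z ∈ Subgroup.center G → z = 1 := by
      intro z hz hzc
      have h1 : z ^ m = z := by
        rw [← hm z hz, Subgroup.mem_center_iff.1 hzc g, mul_inv_cancel_right]
      have h2 : z ^ (m - 1) = 1 := by rw [zpow_sub_one, h1, mul_inv_cancel]
      have h3 : z ^ (q ^ (k + 1)) = 1 := by
        rw [← hcard]
        have h4 := pow_card_eq_one' (x := (⟨z, hz⟩ : commutator G))
        exact congrArg Subtype.val h4
      have h5 : (orderOf z : ℤ) ∣ m - 1 := orderOf_dvd_iff_zpow_eq_one.2 h2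
      obtain ⟨b, _, hb⟩ := (Nat.dvd_prime_pow hq).1 (orderOf_dvd_iff_pow_eq_one.2 h3)
      rcases Nat.eq_zero_or_pos b with h6 | h6
      · rw [h6, pow_zero] at hb
        exact orderOf_eq_one_iff.1 hb
      · exfalso
        apply hqm
        rw [hb, Int.natCast_pow] at h5
        exact (dvd_pow_self _ h6.ne').trans h5
    let χ : G →* MulAut (commutator G) := MulAut.conjNormal
    have hχcyc : IsCyclic (MulAut (commutator G)) := by
      have h1 := ZMod.isCyclic_units_of_prime_pow q hq hq2 (k + 1)
      rw [← hcard] at h1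
      exact isCyclic_of_injective (IsCyclic.mulAutMulEquiv (commutator G)).toMonoidHom
        (IsCyclic.mulAutMulEquiv (commutator G)).injective
    have hker : ∀ g : G, g ∈ χ.ker → g ∈ centComm G := by
      intro g hg
      rw [Subgroup.mem_centralizer_iff]
      intro a ha
      have h1 : (χ g ⟨a, ha⟩ : G) = a := by rw [MonoidHom.mem_ker.1 hg]; rfl
      have h2 : g * a * g⁻¹ = a := h1
      exact (mul_inv_eq_iff_eq_mul.1 h2).symm
    refine hasMin_of_abelian_by_cyclic χ.ker ?_ ?_ hna
    · intro a ha b hb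
      have h1 : ⁅a, b⁆ ∈ Subgroup.center G :=
        centComm_comm_le (Subgroup.commutator_mem_commutator (hker a ha) (hker b hb))
      exact commutatorElement_eq_one_iff_mul_comm.1 (htriv _ (mem_commutator' a b) h1)
    · exact isCyclic_of_injective (QuotientGroup.kerLift χ) (QuotientGroup.kerLift_injective χ)

/-- **Central products.** -/
theorem exists_prime_of_central [Finite G] (K : Subgroup G)
    (hKC : ∀ g : G, ∃ k ∈ K, ∃ c ∈ Subgroup.centralizer (K : Set G), k * c = g)
    (h : HasMin K) : ∃ p ∈ Ccomm G, p ∣ Nat.card K := by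
  obtain ⟨N, hN, hcyc, hne, ⟨u, hu⟩, hmin⟩ := h
  have hk : ∀ k : K, centIn K (k : G) = cent k := by
    intro k
    ext x
    rw [mem_centIn, mem_cent]
    constructor
    · intro hx
      exact Subtype.ext hx
    · intro hx
      exact congrArg Subtype.val hx
  have hv : ∀ v : G, ∃ k : K, centIn K v = cent k := by
    intro v
    obtain ⟨k, hkK, c, hc, rfl⟩ := hKC v
    refine ⟨⟨k, hkK⟩, ?_⟩
    rw [← hk]
    ext x
    rw [mem_centIn, mem_centIn]
    have h1 : (x : G) * c = c * x := Subgroup.mem_centralizer_iff.1 hc x x.2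
    constructor
    · intro h2
      change k * (x : G) = x * k
      apply mul_right_cancel (b := c)
      calc k * (x : G) * c = k * (x * c) := by rw [mul_assoc]
        _ = k * c * x := by rw [h1, mul_assoc]
        _ = x * (k * c) := h2
        _ = x * k * c := by rw [mul_assoc]
    · intro h2
      have h3 : k * (x : G) = x * k := h2
      calc k * c * (x : G) = k * (x * c) := by rw [h1, mul_assoc]
        _ = x * k * c := by rw [← mul_assoc, h3]
        _ = x * (k * c) := by rw [mul_assoc]
  obtain ⟨q, hq, hdvd⟩ := exists_prime_of_minimal_centIn K N hcyc hne u ((hk u).trans hu)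
    (fun v hvN => by
      obtain ⟨k, hkv⟩ := hv v
      rw [hkv] at hvN ⊢
      exact hmin k hvN)
  exact ⟨q, hq, hdvd.trans (Subgroup.card_subgroup_dvd_card _)⟩

end Pool.Agent.MP_5fbfc2_al.CC
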