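import Pool.Agent.Lib.MP_5fbfc2_al.IndLin
import Pool.Agent.Lib.MP_5fbfc2_al.IC.Grp

/-!
# Counting linear characters which are trivial on a centraliser (MP_5fbfc2_al)
-/

namespace Pool.Agent.MP_5fbfc2_al.CC

open Module Pool.Agent.MP_5fbfc2_al

variable {G : Type*} [Group G]

/-- the centraliser of an element -/
abbrev cent (g : G) : Subgroup G := Subgroup.centralizer ({g} : Set G)

theorem mem_cent {g h : G} : h ∈ cent g ↔ g * h = h * g := mem_cent_singleton

theorem mem_cent_comm {g h : G} : h ∈ cent g ↔ g ∈ cent h := by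
  rw [mem_cent, mem_cent]; exact eq_comm

/-- the rows span `rowSpan` -/
theorem range_rows (K : Type*) [Field K] :
    (Set.range fun c : elemCentralizers G => ind K (c : Subgroup G)) =
      Set.range fun (g : G) (x : G) => ((commRow g x : ℤ) : K) := by
  ext f
  constructor
  · rintro ⟨⟨_, g, rfl⟩, rfl⟩
    refine ⟨g, ?_⟩
    funext x
    exact cast_commRow K g x
  · rintro ⟨g, rfl⟩
    refine ⟨⟨_, g, rfl⟩, ?_⟩
    funext x
    exact (cast_commRow K g x).symm

theorem sum_commRow [Fintype G] (g : G) :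
    ∑ x, commRow g x = (Nat.card (cent g) : ℤ) := by
  classical
  unfold commRow
  rw [Finset.sum_boole]
  congr 1
  rw [Nat.card_eq_fintype_card, Fintype.card_subtype]
  congr 1
  ext x
  simp [mem_cent]

/-- If `p` is not in the conductor and `p ^ e` divides the orders of all centralisers, then the
sum of the values of an integral function in the rational row space is divisible by `p ^ e`. -/
theorem dvd_sum [Fintype G] {p : ℕ} (hp : p.Prime) (hC : p ∉ Ccomm G) (e : ℕ)
    (hD : ∀ g : G, p ^ e ∣ Nat.card (cent g)) (k : ℕ) (hk : k ≤ e) :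
    ∀ W : G → ℤ, (fun x => (W x : ℚ)) ∈
      Submodule.span ℚ (Set.range fun (g : G) (x : G) => ((commRow g x : ℤ) : ℚ)) →
      ((p : ℤ) ^ k) ∣ ∑ x, W x := by
  classical
  have : Fact p.Prime := ⟨hp⟩
  have hr : finrank ℚ (Submodule.span ℚ
        (Set.range fun (g : G) (x : G) => ((commRow g x : ℤ) : ℚ))) ≤
      finrank (ZMod p) (Submodule.span (ZMod p)
        (Set.range fun (g : G) (x : G) => ((commRow g x : ℤ) : ZMod p))) := by
    have h1 : latticeRank ℚ G ≤ latticeRank (ZMod p) G := by
      by_contra hcon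
      exact hC ⟨hp, not_le.1 hcon⟩
    have h3 := finrank_rowSpan (G := G) ℚ
    have h4 := finrank_rowSpan (G := G) (ZMod p)
    unfold rowSpan at h3 h4
    rw [range_rows] at h3 h4
    omega
  induction k with
  | zero => intro W _; simp
  | succ k ih =>
    intro W hW
    have hmem := IC.span_mod (p := p) (fun (g : G) (x : G) => commRow g x) W hr hW
    obtain ⟨c, hc⟩ := (Submodule.mem_span_range_iff_exists_fun (ZMod p)).1 hmem
    choose a ha using fun g : G => ZMod.intCast_surjective (c g)
    have hdiv : ∀ x : G, (p : ℤ) ∣ W x - ∑ g, a g * commRow g x := by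
      intro x
      rw [← ZMod.intCast_zmod_eq_zero_iff_dvd]
      have h1 := congrFun hc x
      simp only [Finset.sum_apply, Pi.smul_apply, smul_eq_mul] at h1
      push_cast
      rw [← h1, sub_eq_zero]
      refine Finset.sum_congr rfl (fun g _ => ?_)
      rw [ha g]
    choose z hz using hdiv
    have hzmem : (fun x => (z x : ℚ)) ∈
        Submodule.span ℚ (Set.range fun (g : G) (x : G) => ((commRow g x : ℤ) : ℚ)) := by
      have hp0 : (p : ℚ) ≠ 0 := by exact_mod_cast hp.ne_zero
      have h1 : (fun x => (z x : ℚ)) = (p : ℚ)⁻¹ • ((fun x => (W x : ℚ)) -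
          ∑ g, (a g : ℚ) • (fun x => ((commRow g x : ℤ) : ℚ))) := by
        funext x
        have h2 : (W x : ℚ) - ∑ g, (a g : ℚ) * ((commRow g x : ℤ) : ℚ) = p * z x := by
          exact_mod_cast hz x
        simp only [Pi.smul_apply, Pi.sub_apply, Finset.sum_apply, smul_eq_mul]
        rw [h2]
        field_simp
      rw [h1]
      refine Submodule.smul_mem _ _ (Submodule.sub_mem _ hW (Submodule.sum_mem _ (fun g _ => ?_)))
      exact Submodule.smul_mem _ _ (Submodule.subset_span ⟨g, rfl⟩)
    have hz2 := ih (by omega) z hzmem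
    have hsum : ∑ x, W x = ∑ g, a g * (Nat.card (cent g) : ℤ) + p * ∑ x, z x := by
      have h1 : ∀ x, W x = ∑ g, a g * commRow g x + p * z x := fun x => by
        have := hz x; linarith
      rw [Finset.sum_congr rfl (fun x _ => h1 x), Finset.sum_add_distrib, ← Finset.mul_sum,
        Finset.sum_comm]
      congr 1
      refine Finset.sum_congr rfl (fun g _ => ?_)
      rw [← Finset.mul_sum, sum_commRow]
    rw [hsum]
    apply dvd_add
    · apply Finset.dvd_sum
      intro g _
      apply Dvd.dvd.mul_left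
      have h2 : p ^ (k + 1) ∣ Nat.card (cent g) := (pow_dvd_pow p hk).trans (hD g)
      exact_mod_cast h2
    · rw [pow_succ, mul_comm]
      exact mul_dvd_mul_left _ hz2

/-- Double orthogonality. -/
theorem mem_span_of_orth [Fintype G] (W : G → ℚ)
    (h : ∀ k : G → ℚ, (∀ g, ∑ x, k x * ((commRow g x : ℤ) : ℚ) = 0) → ∑ x, k x * W x = 0) :
    W ∈ Submodule.span ℚ (Set.range fun (g : G) (x : G) => ((commRow g x : ℤ) : ℚ)) := by
  classical
  by_contra hcon
  obtain ⟨f, hf, hker⟩ := Submodule.exists_le_ker_of_notMem hcon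
  apply hf
  have hf' : ∀ v : G → ℚ, f v = ∑ x, f (Pi.single x 1) * v x := by
    intro v
    rw [LinearMap.pi_apply_eq_sum_univ f v]
    refine Finset.sum_congr rfl (fun x _ => ?_)
    rw [smul_eq_mul, mul_comm]
    congr 2
    funext y
    by_cases hxy : x = y
    · subst hxy; simp
    · rw [Pi.single_eq_of_ne (Ne.symm hxy), if_neg hxy]
  rw [hf']
  apply h
  intro g
  rw [← hf']
  exact hker (Submodule.subset_span ⟨g, rfl⟩)

/-- `θ` is trivial on the centraliser of `g` -/
def Triv (θ : G →* ℂ) (g : G) : Prop := ∀ h : G, g * h = h * g → θ h = 1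

open Classical in
/-- the function `u ↦ |C(u)|` if `θ` is trivial on `C(u)`, and `0` otherwise -/
noncomputable def wt (θ : G →* ℂ) (u : G) : ℕ := if Triv θ u then Nat.card (cent u) else 0

theorem sum_theta [Fintype G] (θ : G →* ℂ) (u : G) :
    ∑ h, ((commRow u h : ℤ) : ℂ) * θ h = (wt θ u : ℂ) := by
  classical
  have h1 : ∑ h, ((commRow u h : ℤ) : ℂ) * θ h = ∑ h : cent u, θ h := by
    have h2 : ∀ h : G, ((commRow u h : ℤ) : ℂ) * θ h = if h ∈ cent u then θ h else 0 := by
      intro h
      unfold commRow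
      by_cases hh : u * h = h * u
      · rw [if_pos hh, if_pos (mem_cent.2 hh)]; simp
      · rw [if_neg hh, if_neg (fun h' => hh (mem_cent.1 h'))]; simp
    rw [Finset.sum_congr rfl (fun h _ => h2 h), ← Finset.sum_filter]
    exact (Finset.sum_subtype (Finset.univ.filter (fun h => h ∈ cent u)) (by simp) _)
  rw [h1]
  unfold wt
  by_cases ht : Triv θ u
  · rw [if_pos ht]
    have h3 : ∀ h : cent u, θ (h : G) = 1 := fun h => ht h (mem_cent.1 h.2)
    rw [Finset.sum_congr rfl (fun h _ => h3 h)]
    simp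
  · rw [if_neg ht]
    have h3 : θ.comp (cent u).subtype ≠ 1 := by
      intro hcon
      apply ht
      intro h hh
      have := DFunLike.congr_fun hcon (⟨h, mem_cent.2 hh⟩ : cent u)
      simpa using this
    have h4 := sum_hom_units_eq_zero (θ.comp (cent u).subtype) h3
    simpa using h4

theorem commRow_comm (g h : G) : commRow g h = commRow h g := by
  classical
  unfold commRow
  by_cases hh : g * h = h * g
  · rw [if_pos hh, if_pos hh.symm]
  · rw [if_neg hh, if_neg (fun h' => hh h'.symm)]

theorem wt_orth [Fintype G] (θ : G →* ℂ) (k : G → ℚ)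
    (hk : ∀ g, ∑ x, k x * ((commRow g x : ℤ) : ℚ) = 0) : ∑ x, k x * (wt θ x : ℚ) = 0 := by
  have h1 : ((∑ x, k x * (wt θ x : ℚ) : ℚ) : ℂ) = 0 := by
    push_cast
    have h2 : ∀ x : G, (k x : ℂ) * (wt θ x : ℂ) =
        ∑ h, θ h * ((k x : ℂ) * ((commRow h x : ℤ) : ℂ)) := by
      intro x
      rw [← sum_theta θ x, Finset.mul_sum]
      refine Finset.sum_congr rfl (fun h _ => ?_)
      rw [commRow_comm x h]
      ring
    rw [Finset.sum_congr rfl (fun x _ => h2 x), Finset.sum_comm]
    apply Finset.sum_eq_zero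
    intro h _
    rw [← Finset.mul_sum]
    have h3 : (((∑ x, k x * ((commRow h x : ℤ) : ℚ) : ℚ)) : ℂ) = 0 := by rw [hk h]; simp
    push_cast at h3
    rw [h3, mul_zero]
  exact_mod_cast h1

/-- `p ^ (2 e)` divides the weighted number of elements whose centraliser is in the kernel. -/
theorem pow_dvd_sum_wt [Fintype G] {p : ℕ} (hp : p.Prime) (hC : p ∉ Ccomm G) (e : ℕ)
    (hD : ∀ g : G, p ^ e ∣ Nat.card (cent g)) (θ : G →* ℂ) :
    p ^ (2 * e) ∣ ∑ u, wt θ u := by
  classical
  have hdvd : ∀ u, p ^ e ∣ wt θ u := by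
    intro u
    unfold wt
    split_ifs
    · exact hD u
    · exact dvd_zero _
  choose w hw using hdvd
  have hmem : (fun x => (((w x : ℕ) : ℤ) : ℚ)) ∈
      Submodule.span ℚ (Set.range fun (g : G) (x : G) => ((commRow g x : ℤ) : ℚ)) := by
    apply mem_span_of_orth
    intro k hk
    have h1 := wt_orth θ k hk
    have hp0 : ((p : ℚ) ^ e) ≠ 0 := pow_ne_zero _ (by exact_mod_cast hp.ne_zero)
    have h2 : ∑ x, k x * (wt θ x : ℚ) = (p : ℚ) ^ e * ∑ x, k x * (((w x : ℕ) : ℤ) : ℚ) := by
      rw [Finset.mul_sum]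
      refine Finset.sum_congr rfl (fun x _ => ?_)
      rw [hw x]
      push_cast
      ring
    rw [h2] at h1
    exact (mul_eq_zero.1 h1).resolve_left hp0
  have h3 := dvd_sum hp hC e hD e le_rfl (fun x => (w x : ℤ)) hmem
  have h4 : p ^ e ∣ ∑ x, w x := by exact_mod_cast h3
  have h5 : ∑ u, wt θ u = p ^ e * ∑ u, w u := by
    rw [Finset.mul_sum]
    exact Finset.sum_congr rfl (fun x _ => hw x)
  rw [h5, two_mul, pow_add]
  exact mul_dvd_mul_left _ h4

end Pool.Agent.MP_5fbfc2_al.CC
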