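import Pool.Agent.Lib.MP_5fbfc2_al.CC.Central

/-!
# Relative class sizes and the number of classes (MP_5fbfc2_al)
-/

namespace Pool.Agent.MP_5fbfc2_al.CC

open Module Pool.Agent.MP_5fbfc2_al
open scoped commutatorElement

variable {G : Type*} [Group G]

theorem sum_card_centIn [Finite G] (K : Subgroup G) [Fintype K] :
    ∑ u : K, Nat.card (centIn K (u : G)) = Nat.card (ConjClasses K) * Nat.card K := by
  classical
  rw [← card_comm_eq_card_conjClasses_mul_card]
  have h1 : ∀ u : K, Nat.card (centIn K (u : G)) = Nat.card {v : K // Commute u v} := by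
    intro u
    apply Nat.card_congr
    refine Equiv.subtypeEquivRight (fun v => ?_)
    rw [mem_centIn]
    constructor
    · intro h; exact Subtype.ext h
    · intro h; exact congrArg Subtype.val h
  rw [Finset.sum_congr rfl (fun u _ => h1 u)]
  have h2 : Nat.card {p : K × K // Commute p.1 p.2} = Nat.card (Σ u : K, {v : K // Commute u v}) :=
    Nat.card_congr
      { toFun := fun p => ⟨p.1.1, p.1.2, p.2⟩
        invFun := fun q => ⟨(q.1, q.2.1), q.2.2⟩
        left_inv := fun _ => rfl
        right_inv := fun _ => rfl }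
  rw [h2, Nat.card_sigma]

theorem wtIn_one (K : Subgroup G) (u : G) : wtIn K 1 u = Nat.card (centIn K u) := by
  unfold wtIn
  rw [if_pos]
  intro k _
  rfl

theorem sum_wtIn_one [Finite G] (K : Subgroup G) [Fintype K] :
    ∑ u : K, wtIn K 1 (u : G) = ∑ u : K, Nat.card (centIn K (u : G)) :=
  Finset.sum_congr rfl (fun u _ => wtIn_one K (u : G))

/-- If no prime divisor of `|K|` is in the conductor of `G`, then `|K|` divides `L ^ 2 k(K)`. -/
theorem dvd_of_no_prime [Finite G] (K : Subgroup G) (L : ℕ)
    (hL : ∀ v : G, (centIn K v).index ∣ L) (hC : ∀ p ∈ Ccomm G, ¬ p ∣ Nat.card K) :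
    Nat.card K ∣ L ^ 2 * Nat.card (ConjClasses K) := by
  classical
  have : Fintype G := Fintype.ofFinite G
  rcases Nat.eq_zero_or_pos L with h0 | hL0
  · rw [h0]; simp
  have hK0 : Nat.card K ≠ 0 := Nat.card_pos.ne'
  have hcc : Nat.card (ConjClasses K) ≠ 0 := Nat.card_pos.ne'
  rw [← Nat.factorization_le_iff_dvd hK0 (mul_ne_zero (pow_ne_zero 2 hL0.ne') hcc)]
  intro p
  by_cases hp : p.Prime
  swap
  · rw [Nat.factorization_eq_zero_of_not_prime _ hp]; exact Nat.zero_le _
  by_cases hpK : p ∣ Nat.card K
  swap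
  · rw [Nat.factorization_eq_zero_of_not_dvd hpK]; exact Nat.zero_le _
  have hpC : p ∉ Ccomm G := fun h => hC p h hpK
  rw [Nat.factorization_mul (pow_ne_zero 2 hL0.ne') hcc, Nat.factorization_pow]
  simp only [Finsupp.coe_add, Finsupp.coe_smul, Pi.add_apply, Pi.smul_apply, smul_eq_mul]
  have h1 : ∀ v : G, p ^ ((Nat.card K).factorization p - L.factorization p) ∣
      Nat.card (centIn K v) := by
    intro v
    have h2 : (centIn K v).index * Nat.card (centIn K v) = Nat.card K := Subgroup.index_mul_card _
    have h3 : (centIn K v).index ≠ 0 := Subgroup.index_ne_zero_of_finite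
    have h4 : Nat.card (centIn K v) ≠ 0 := Nat.card_pos.ne'
    have h5 : (Nat.card K).factorization p =
        (centIn K v).index.factorization p + (Nat.card (centIn K v)).factorization p := by
      rw [← h2, Nat.factorization_mul h3 h4]; rfl
    have h6 : (centIn K v).index.factorization p ≤ L.factorization p :=
      (Nat.factorization_le_iff_dvd h3 hL0.ne').2 (hL v) p
    rw [Nat.Prime.pow_dvd_iff_le_factorization hp h4]
    omega
  have h7 := pow_dvd_sum_wtIn hp hpC K 1 ((Nat.card K).factorization p - L.factorization p)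
    (fun g _ => h1 g)
  rw [sum_wtIn_one, sum_card_centIn,
    Nat.Prime.pow_dvd_iff_le_factorization hp (mul_ne_zero hcc hK0),
    Nat.factorization_mul hcc hK0] at h7
  simp only [Finsupp.coe_add, Pi.add_apply] at h7
  omega

/-- `|K : C_K(v)|` takes only the values `1` and `m`. -/
theorem mem_of_two_sizes [Finite G] (K : Subgroup G) (m : ℕ)
    (h : ∀ v : G, (centIn K v).index = 1 ∨ (centIn K v).index = m)
    (hna : ¬ ∀ a ∈ K, ∀ b ∈ K, a * b = b * a) :
    ∃ p ∈ Ccomm G, p ∣ Nat.card K := by
  classical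
  have : Fintype G := Fintype.ofFinite G
  push Not at hna
  obtain ⟨y, hy, u, hu, hyu⟩ := hna
  have hone : ∀ v : K, (centIn K (v : G)).index = 1 ↔ v ∈ Subgroup.center K := by
    intro v
    rw [Subgroup.index_eq_one, Subgroup.mem_center_iff]
    constructor
    · intro h1 k
      have h2 : k ∈ centIn K (v : G) := by rw [h1]; exact Subgroup.mem_top _
      exact Subtype.ext (mem_centIn.1 h2).symm
    · intro h1
      rw [eq_top_iff]
      intro k _
      rw [mem_centIn]
      exact (congrArg Subtype.val (h1 k)).symm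
  have hu1 : (⟨u, hu⟩ : K) ∉ Subgroup.center K := by
    rw [Subgroup.mem_center_iff]
    intro h1
    exact hyu (congrArg Subtype.val (h1 ⟨y, hy⟩))
  have hmu : (centIn K u).index = m := by
    rcases h u with h1 | h1
    · exact absurd ((hone ⟨u, hu⟩).1 h1) hu1
    · exact h1
  have hm1 : m ≠ 1 := by
    intro h1
    rw [h1] at hmu
    exact hu1 ((hone ⟨u, hu⟩).1 hmu)
  obtain ⟨p, hp, hpm⟩ := Nat.exists_prime_and_dvd hm1
  have hmK : m ∣ Nat.card K := by rw [← hmu]; exact Subgroup.index_dvd_card _
  refine ⟨p, ?_, hpm.trans hmK⟩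
  by_contra hpC
  obtain ⟨D, hD⟩ := hmK
  have hK0 : Nat.card K ≠ 0 := Nat.card_pos.ne'
  have hm0 : m ≠ 0 := by rintro rfl; rw [zero_mul] at hD; exact hK0 hD
  have hD0 : D ≠ 0 := by rintro rfl; rw [mul_zero] at hD; exact hK0 hD
  have hcardm : ∀ v : G, (centIn K v).index = m → Nat.card (centIn K v) = D := by
    intro v hv
    have h2 : (centIn K v).index * Nat.card (centIn K v) = Nat.card K := Subgroup.index_mul_card _
    rw [hv, hD] at h2
    exact Nat.eq_of_mul_eq_mul_left (Nat.pos_of_ne_zero hm0) h2
  have hcard1 : ∀ v : G, (centIn K v).index = 1 → Nat.card (centIn K v) = Nat.card K := by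
    intro v hv
    have h2 : (centIn K v).index * Nat.card (centIn K v) = Nat.card K := Subgroup.index_mul_card _
    rw [hv, one_mul] at h2
    exact h2
  -- the `p`-part of `D` is larger than that of the centre
  have hZ : p * Nat.card (Subgroup.center K) ∣ D := by
    have h1 : p ∣ Nat.card (K ⧸ Subgroup.center K) := by
      refine hpm.trans ?_
      rw [← hmu]
      have hle : Subgroup.center K ≤ centIn K u := by
        intro z hz
        rw [mem_centIn]
        exact congrArg Subtype.val (Subgroup.mem_center_iff.1 hz ⟨u, hu⟩)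
      exact Subgroup.index_dvd_of_le hle
    have : Fact p.Prime := ⟨hp⟩
    obtain ⟨xb, hxb⟩ := exists_prime_orderOf_dvd_card' p h1
    obtain ⟨x, rfl⟩ := QuotientGroup.mk_surjective xb
    have hxZ : x ∉ Subgroup.center K := by
      intro h2
      rw [(QuotientGroup.eq_one_iff x).2 h2, orderOf_one] at hxb
      exact hp.one_lt.ne hxb
    have hxm : (centIn K (x : G)).index = m := by
      rcases h x with h2 | h2
      · exact absurd ((hone x).1 h2) hxZ
      · exact h2
    have hle : Subgroup.center K ≤ centIn K (x : G) := by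
      intro z hz
      rw [mem_centIn]
      exact congrArg Subtype.val (Subgroup.mem_center_iff.1 hz x)
    have h3 : ((centIn K (x : G)).map (QuotientGroup.mk' (Subgroup.center K))).index = m := by
      rw [← hxm]
      exact Subgroup.index_map_eq _ (QuotientGroup.mk'_surjective _)
        (by rw [QuotientGroup.ker_mk']; exact hle)
    have h4 : p ∣ Nat.card ((centIn K (x : G)).map (QuotientGroup.mk' (Subgroup.center K))) := by
      rw [← hxb]
      have h5 : (x : K ⧸ Subgroup.center K) ∈
          (centIn K (x : G)).map (QuotientGroup.mk' (Subgroup.center K)) :=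
        ⟨x, mem_centIn.2 rfl, rfl⟩
      exact Subgroup.orderOf_dvd_natCard _ h5
    obtain ⟨c, hc⟩ := h4
    have h6 := Subgroup.index_mul_card
      ((centIn K (x : G)).map (QuotientGroup.mk' (Subgroup.center K)))
    rw [h3, hc] at h6
    have h7 : Nat.card K = Nat.card (K ⧸ Subgroup.center K) * Nat.card (Subgroup.center K) :=
      Subgroup.card_eq_card_quotient_mul_card_subgroup _
    rw [hD, ← h6] at h7
    have h8 : D = p * c * Nat.card (Subgroup.center K) := by
      apply Nat.eq_of_mul_eq_mul_left (Nat.pos_of_ne_zero hm0)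
      rw [h7]; ring
    exact ⟨c, by rw [h8]; ring⟩
  -- the sum
  have hsum : ∑ v : K, Nat.card (centIn K (v : G)) + Nat.card (Subgroup.center K) * D =
      Nat.card (Subgroup.center K) * Nat.card K + Nat.card K * D := by
    have h1 : ∀ v : K, Nat.card (centIn K (v : G)) =
        if v ∈ Subgroup.center K then Nat.card K else D := by
      intro v
      by_cases hv : v ∈ Subgroup.center K
      · rw [if_pos hv]; exact hcard1 v ((hone v).2 hv)
      · rw [if_neg hv]
        rcases h v with h2 | h2
        · exact absurd ((hone v).1 h2) hv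
        · exact hcardm v h2
    rw [Finset.sum_congr rfl (fun v _ => h1 v), Finset.sum_ite, Finset.sum_const,
      Finset.sum_const, smul_eq_mul, smul_eq_mul]
    have h2 : (Finset.univ.filter (fun v : K => v ∈ Subgroup.center K)).card =
        Nat.card (Subgroup.center K) := by
      rw [Nat.card_eq_fintype_card, Fintype.card_subtype]
    have h3 : (Finset.univ.filter (fun v : K => v ∈ Subgroup.center K)).card +
        (Finset.univ.filter (fun v : K => ¬ v ∈ Subgroup.center K)).card = Nat.card K := by
      rw [Finset.card_filter_add_card_filter_not, Finset.card_univ, Nat.card_eq_fintype_card]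
    rw [h2] at h3 ⊢
    nlinarith
  have hdiv := pow_dvd_sum_wtIn hp hpC K 1 (D.factorization p) (fun g _ => by
    rcases h g with h2 | h2
    · rw [hcard1 g h2, hD]
      exact (Nat.ordProj_dvd D p).trans (dvd_mul_left _ _)
    · rw [hcardm g h2]
      exact Nat.ordProj_dvd D p)
  rw [sum_wtIn_one] at hdiv
  obtain ⟨z, hz⟩ : ∃ z, z = Nat.card (Subgroup.center K) := ⟨_, rfl⟩
  rw [← hz] at hZ hsum
  obtain ⟨a, ha⟩ : ∃ a, a = D.factorization p := ⟨_, rfl⟩
  rw [← ha] at hdiv
  obtain ⟨n, hn⟩ : ∃ n, n = D / p ^ a := ⟨_, rfl⟩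
  have hDn : p ^ a * n = D := by rw [hn, ha]; exact Nat.ordProj_mul_ordCompl_eq_self _ _
  have hcop : Nat.Coprime (p ^ a) n := by
    rw [hn, ha]; exact Nat.Coprime.pow_left _ (Nat.coprime_ordCompl hp hD0)
  -- `p ^ a` divides `(m - 1) z`
  obtain ⟨m', hm'⟩ : ∃ m', m = m' + 1 := ⟨m - 1, by omega⟩
  have hS : ∑ v : K, Nat.card (centIn K (v : G)) = D * (z * m' + m * D) := by
    have h1 : ∑ v : K, Nat.card (centIn K (v : G)) + z * D = D * (z * m' + m * D) + z * D := by
      rw [hsum, hD, hm']; ring
    exact Nat.add_right_cancel h1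
  rw [hS, two_mul, pow_add] at hdiv
  have h10 : p ^ a * p ^ a ∣ p ^ a * (n * (z * m' + m * D)) := by
    rw [← mul_assoc, hDn]; exact hdiv
  have h11 : p ^ a ∣ n * (z * m' + m * D) :=
    Nat.dvd_of_mul_dvd_mul_left (pow_pos hp.pos _) h10
  have h12 : p ^ a ∣ z * m' + m * D := hcop.dvd_of_dvd_mul_left h11
  have h13 : p ^ a ∣ m * D := (Dvd.intro n hDn).trans (dvd_mul_left _ _)
  have h14 : p ^ a ∣ z * m' := (Nat.dvd_add_left h13).1 h12
  have h15 : Nat.Coprime (p ^ a) m' := by
    apply Nat.Coprime.pow_left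
    rw [hp.coprime_iff_not_dvd]
    intro h16
    rw [hm'] at hpm
    have h17 := (Nat.dvd_add_right h16).1 hpm
    exact hp.one_lt.ne' (Nat.dvd_one.1 h17)
  have h18 : p ^ a ∣ z := h15.dvd_of_dvd_mul_right h14
  have h19 : p ^ (a + 1) ∣ D := by
    rw [pow_succ']
    exact (mul_dvd_mul_left p h18).trans hZ
  have h20 := (Nat.Prime.pow_dvd_iff_le_factorization hp hD0).1 h19
  omega

end Pool.Agent.MP_5fbfc2_al.CC
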