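import Pool.Agent.Lib.MP_5fbfc2_al.CC.PGroup

/-!
# Counting linear characters: groups of class two (MP_5fbfc2_al)
-/

namespace Pool.Agent.MP_5fbfc2_al.CC

open Module Pool.Agent.MP_5fbfc2_al
open scoped commutatorElement

variable {G : Type*} [Group G]

theorem mem_commutator' (g h : G) : ⁅g, h⁆ ∈ commutator G := by
  rw [commutator_def]
  exact Subgroup.commutator_mem_commutator (Subgroup.mem_top g) (Subgroup.mem_top h)

/-- the commutator as an element of the commutator subgroup -/
def cm (g h : G) : commutator G := ⟨⁅g, h⁆, mem_commutator' g h⟩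

section ClassTwo

variable (hcl : commutator G ≤ Subgroup.center G)

include hcl

theorem comm_central (g h k : G) : k * ⁅g, h⁆ = ⁅g, h⁆ * k :=
  Subgroup.mem_center_iff.1 (hcl (mem_commutator' g h)) k

theorem cm_mul_right (g h k : G) : cm g (h * k) = cm g h * cm g k := by
  apply Subtype.ext
  change ⁅g, h * k⁆ = ⁅g, h⁆ * ⁅g, k⁆
  have h1 := comm_central hcl g k h
  have h2 : ⁅g, h * k⁆ = g * h * g⁻¹ * ⁅g, k⁆ * h⁻¹ := by
    simp only [commutatorElement_def]; group
  have h3 : ⁅g, k⁆ * h⁻¹ = h⁻¹ * ⁅g, k⁆ := (comm_central hcl g k h⁻¹).symm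
  rw [h2, mul_assoc (g * h * g⁻¹), h3, ← mul_assoc]
  simp only [commutatorElement_def]

theorem cm_mul_left (g g' h : G) : cm (g * g') h = cm g h * cm g' h := by
  apply Subtype.ext
  change ⁅g * g', h⁆ = ⁅g, h⁆ * ⁅g', h⁆
  have h2 : ⁅g * g', h⁆ = g * ⁅g', h⁆ * h * g⁻¹ * h⁻¹ := by
    simp only [commutatorElement_def]; group
  have h3 : g * ⁅g', h⁆ = ⁅g', h⁆ * g := comm_central hcl g' h g
  have h4 : ⁅g, h⁆ * ⁅g', h⁆ = ⁅g', h⁆ * ⁅g, h⁆ := comm_central hcl g' h ⁅g, h⁆
  rw [h2, h3, h4]
  simp only [commutatorElement_def, mul_assoc]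

omit hcl in
theorem cm_eq_one_of_comm {g h : G} (hgh : g * h = h * g) : cm g h = 1 := by
  apply Subtype.ext
  change ⁅g, h⁆ = 1
  rw [commutatorElement_eq_one_iff_mul_comm]
  exact hgh

/-- the linear character `h ↦ λ([g, h])` -/
def pairing (lam : commutator G →* ℂ) (g : G) : G →* ℂ where
  toFun h := lam (cm g h)
  map_one' := by
    rw [cm_eq_one_of_comm (by simp), map_one]
  map_mul' h k := by
    rw [cm_mul_right hcl, map_mul]

end ClassTwo

/-- the subgroup `Z_λ = {g : λ([g, h]) = 1 for all h}` -/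
def Zlam (hcl : commutator G ≤ Subgroup.center G) (lam : commutator G →* ℂ) : Subgroup G where
  carrier := {g | ∀ h, lam (cm g h) = 1}
  one_mem' := fun h => by
    change lam (cm 1 h) = 1
    rw [cm_eq_one_of_comm (by simp), map_one]
  mul_mem' := fun {a b} ha hb h => by
    rw [cm_mul_left hcl, map_mul, ha h, hb h, mul_one]
  inv_mem' := fun {a} ha h => by
    have h1 : cm a h * cm a⁻¹ h = 1 := by
      rw [← cm_mul_left hcl, mul_inv_cancel, cm_eq_one_of_comm (by simp)]
    have h2 := congrArg lam h1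
    rw [map_mul, ha h, one_mul, map_one] at h2
    exact h2

theorem mem_Zlam (hcl : commutator G ≤ Subgroup.center G) (lam : commutator G →* ℂ) (g : G) :
    g ∈ Zlam hcl lam ↔ ∀ h, lam (cm g h) = 1 := Iff.rfl

theorem index_Zlam_le [Finite G] (hcl : commutator G ≤ Subgroup.center G)
    (lam : commutator G →* ℂ) : (Zlam hcl lam).index ≤ numTriv G := by
  unfold Subgroup.index numTriv
  have hfin : Finite {θ : G →* ℂ // ∃ g : G, ∀ h : G, g * h = h * g → θ h = 1} := inferInstance
  refine Nat.card_le_card_of_injective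
    (fun q : G ⧸ Zlam hcl lam => (⟨pairing hcl lam q.out, q.out, fun h hh => ?_⟩ :
      {θ : G →* ℂ // ∃ g : G, ∀ h : G, g * h = h * g → θ h = 1})) ?_
  · change lam (cm q.out h) = 1
    rw [cm_eq_one_of_comm hh, map_one]
  · intro q r hqr
    have h1 : pairing hcl lam q.out = pairing hcl lam r.out := congrArg Subtype.val hqr
    rw [← QuotientGroup.out_eq' q, ← QuotientGroup.out_eq' r, QuotientGroup.eq, mem_Zlam]
    intro h
    have h2 : lam (cm q.out h) = lam (cm r.out h) := DFunLike.congr_fun h1 h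
    have h3 : cm q.out h * cm (q.out⁻¹ * r.out) h = cm r.out h := by
      rw [← cm_mul_left hcl, mul_inv_cancel_left]
    have h4 := congrArg lam h3
    rw [map_mul, ← h2] at h4
    have h5 : lam (cm q.out h) ≠ 0 := by
      intro h0
      have h6 : lam (cm q.out h * (cm q.out h)⁻¹) = 0 := by rw [map_mul, h0, zero_mul]
      rw [mul_inv_cancel, map_one] at h6
      exact one_ne_zero h6
    exact mul_left_cancel₀ h5 (h4.trans (mul_one _).symm)

/-- a cyclic finite group has an injective linear character -/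
theorem exists_injective_char (A : Type*) [Group A] [Finite A] [IsCyclic A] :
    ∃ lam : A →* ℂ, Function.Injective lam := by
  obtain ⟨z, hz⟩ := IsCyclic.exists_generator (α := A)
  have hN : orderOf z ≠ 0 := (orderOf_pos z).ne'
  have hζ := Complex.isPrimitiveRoot_exp (orderOf z) hN
  obtain ⟨ζ, hζ'⟩ : ∃ ζ : ℂˣ, (ζ : ℂ) = Complex.exp (2 * Real.pi * Complex.I / (orderOf z)) :=
    ⟨Units.mk0 _ (Complex.exp_ne_zero _), rfl⟩
  have hord : orderOf ζ = orderOf z := by
    rw [← orderOf_units, hζ']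
    exact hζ.eq_orderOf.symm
  let φ := monoidHomOfForallMemZpowers hz (g' := ζ) hord.dvd
  have hφ : φ z = ζ := monoidHomOfForallMemZpowers_apply_gen hz hord.dvd
  refine ⟨(Units.coeHom ℂ).comp φ, ?_⟩
  apply Function.Injective.comp Units.val_injective
  rw [injective_iff_map_eq_one]
  intro x hx
  obtain ⟨k, rfl⟩ := Subgroup.mem_zpowers_iff.1 (hz x)
  rw [map_zpow, hφ] at hx
  rw [← orderOf_dvd_iff_zpow_eq_one, hord] at hx
  exact orderOf_dvd_iff_zpow_eq_one.1 hx

/-- class two: the criterion with one linear character of the commutator subgroup -/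
theorem mem_Ccomm_of_lam [Finite G] {p : ℕ} (hp : p.Prime) (hG : IsPGroup p G)
    (hcl : commutator G ≤ Subgroup.center G) (lam : commutator G →* ℂ) (c : ℕ)
    (hc : ∀ g : G, (Subgroup.centralizer ({g} : Set G)).index ≤ c)
    (h : c ^ 2 + 1 < (Zlam hcl lam).index + c) : p ∈ Ccomm G :=
  mem_Ccomm_of_count hp hG c hc (lt_of_lt_of_le h
    (Nat.add_le_add_right (index_Zlam_le hcl lam) c))

/-- right commutation as a homomorphism -/
def rightHom (hcl : commutator G ≤ Subgroup.center G) (g : G) : G →* commutator G where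
  toFun h := cm g h
  map_one' := cm_eq_one_of_comm (by simp)
  map_mul' h k := cm_mul_right hcl g h k

/-- left commutation as a homomorphism -/
def leftHom (hcl : commutator G ≤ Subgroup.center G) (h : G) : G →* commutator G where
  toFun g := cm g h
  map_one' := cm_eq_one_of_comm (by simp)
  map_mul' g k := cm_mul_left hcl g k h

theorem cm_inv (g h : G) : (cm g h)⁻¹ = cm h g := by
  apply Subtype.ext
  exact commutatorElement_inv g h

theorem ker_rightHom (hcl : commutator G ≤ Subgroup.center G) (g : G) :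
    (rightHom hcl g).ker = cent g := by
  ext h
  rw [MonoidHom.mem_ker, mem_cent]
  constructor
  · intro hh
    have h1 : ⁅g, h⁆ = 1 := congrArg Subtype.val hh
    exact commutatorElement_eq_one_iff_mul_comm.1 h1
  · intro hh
    exact cm_eq_one_of_comm hh

theorem sq_index_le [Finite G] (hcl : commutator G ≤ Subgroup.center G)
    [hcyc : IsCyclic (commutator G)] (lam : commutator G →* ℂ)
    (hlam : Function.Injective lam) (g : G) :
    (cent g).index ^ 2 ≤ (Zlam hcl lam).index := by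
  have hidx : (cent g).index = Nat.card (rightHom hcl g).range := by
    rw [← ker_rightHom hcl g, Subgroup.index_ker]
  obtain ⟨⟨w, hw⟩, hgen⟩ := IsCyclic.exists_generator (α := (rightHom hcl g).range)
  have hord : orderOf w = (cent g).index := by
    have h0 : orderOf (⟨w, hw⟩ : (rightHom hcl g).range) = orderOf w := Subgroup.orderOf_mk w hw
    rw [hidx, ← orderOf_eq_card_of_forall_mem_zpowers hgen, h0]
  obtain ⟨h0, hh0⟩ := hw
  have hw' : cm g h0 = w := hh0
  rw [sq, ← hord]
  have hcard : Nat.card (Fin (orderOf w) × Fin (orderOf w)) = orderOf w * orderOf w := by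
    rw [Nat.card_prod, Nat.card_fin]
  rw [← hcard]
  unfold Subgroup.index
  refine Nat.card_le_card_of_injective
    (fun ij : Fin (orderOf w) × Fin (orderOf w) =>
      ((g ^ (ij.1 : ℕ) * h0 ^ (ij.2 : ℕ) : G) : G ⧸ Zlam hcl lam)) ?_
  rintro ⟨i, j⟩ ⟨i', j'⟩ hij
  have h1 : ∀ h : G, cm (g ^ (i : ℕ) * h0 ^ (j : ℕ)) h = cm (g ^ (i' : ℕ) * h0 ^ (j' : ℕ)) h := by
    intro h
    have h2 := (mem_Zlam hcl lam _).1 (QuotientGroup.eq.1 hij) h
    have h3 : cm ((g ^ (i : ℕ) * h0 ^ (j : ℕ))⁻¹ * (g ^ (i' : ℕ) * h0 ^ (j' : ℕ))) h = 1 := by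
      apply hlam
      rw [h2, map_one]
    have h4 : cm (g ^ (i : ℕ) * h0 ^ (j : ℕ)) h *
        cm ((g ^ (i : ℕ) * h0 ^ (j : ℕ))⁻¹ * (g ^ (i' : ℕ) * h0 ^ (j' : ℕ))) h =
        cm (g ^ (i' : ℕ) * h0 ^ (j' : ℕ)) h := by
      rw [← cm_mul_left hcl, mul_inv_cancel_left]
    rw [h3, mul_one] at h4
    exact h4
  have hexp : ∀ (a b : ℕ) (h : G), cm (g ^ a * h0 ^ b) h = cm g h ^ a * cm h0 h ^ b := by
    intro a b h
    change leftHom hcl h (g ^ a * h0 ^ b) = leftHom hcl h g ^ a * leftHom hcl h h0 ^ b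
    rw [map_mul, map_pow, map_pow]
  have hi : w ^ (i : ℕ) = w ^ (i' : ℕ) := by
    have h5 := h1 h0
    rw [hexp, hexp, cm_eq_one_of_comm (g := h0) (h := h0) rfl, one_pow, one_pow, mul_one,
      mul_one, hw'] at h5
    exact h5
  have hj : w⁻¹ ^ (j : ℕ) = w⁻¹ ^ (j' : ℕ) := by
    have h5 := h1 g
    rw [hexp, hexp, cm_eq_one_of_comm (g := g) (h := g) rfl, one_pow, one_pow, one_mul,
      one_mul, ← cm_inv, hw'] at h5
    exact h5
  have hi' : (i : ℕ) = i' := pow_injOn_Iio_orderOf i.2 i'.2 hi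
  have hj' : (j : ℕ) = j' := by
    refine pow_injOn_Iio_orderOf (x := w⁻¹) ?_ ?_ hj
    · rw [orderOf_inv]; exact j.2
    · rw [orderOf_inv]; exact j'.2
  rw [Prod.mk.injEq]
  exact ⟨Fin.ext hi', Fin.ext hj'⟩

/-- class two with cyclic commutator subgroup -/
theorem mem_Ccomm_of_cyclic [Finite G] {p : ℕ} (hp : p.Prime) (hG : IsPGroup p G)
    (hcl : commutator G ≤ Subgroup.center G) (hcyc : IsCyclic (commutator G))
    (hna : ¬ ∀ x y : G, x * y = y * x) : p ∈ Ccomm G := by
  obtain ⟨lam, hlam⟩ := exists_injective_char (commutator G)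
  obtain ⟨g, hg⟩ := Finite.exists_max (fun g : G => (cent g).index)
  have h1 := sq_index_le hcl lam hlam g
  have h2 : 1 < (cent g).index := by
    by_contra hcon
    apply hna
    intro x y
    have h3 : (cent x).index ≤ 1 := (hg x).trans (not_lt.1 hcon)
    have h4 : (cent x).index ≠ 0 := Subgroup.index_ne_zero_of_finite
    have h5 : cent x = ⊤ := Subgroup.index_eq_one.1 (by omega)
    have h6 : y ∈ cent x := by rw [h5]; trivial
    exact mem_cent.1 h6
  refine mem_Ccomm_of_lam hp hG hcl lam (cent g).index hg ?_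
  omega

end Pool.Agent.MP_5fbfc2_al.CC
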