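import Pool.Agent.Lib.MP_5fbfc2_al.CC.Chars

/-!
# Counting linear characters which are trivial on a centraliser: the inequality (MP_5fbfc2_al)
-/

namespace Pool.Agent.MP_5fbfc2_al.CC

open Module Pool.Agent.MP_5fbfc2_al

variable {G : Type*} [Group G]

instance finite_chars [Finite G] : Finite (G →* ℂ) := by
  have : Fintype G := Fintype.ofFinite G
  exact (linearIndependent_monoidHom G ℂ).finite

/-- the number of linear characters trivial on a subgroup is at most the index -/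
theorem card_triv_le [Finite G] (C : Subgroup G) :
    Nat.card {θ : G →* ℂ // ∀ h ∈ C, θ h = 1} ≤ C.index := by
  classical
  have : Fintype G := Fintype.ofFinite G
  have : Fintype (G ⧸ C) := Fintype.ofFinite _
  have : Fintype {θ : G →* ℂ // ∀ h ∈ C, θ h = 1} := Fintype.ofFinite _
  let ι : (G ⧸ C → ℂ) →ₗ[ℂ] (G → ℂ) := LinearMap.funLeft ℂ ℂ (fun g : G => (g : G ⧸ C))
  let b : {θ : G →* ℂ // ∀ h ∈ C, θ h = 1} → (G ⧸ C → ℂ) := fun θ q => θ.1 q.out
  have hb : LinearIndependent ℂ b := by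
    apply LinearIndependent.of_comp ι
    have h1 : (ι ∘ b) = fun θ : {θ : G →* ℂ // ∀ h ∈ C, θ h = 1} => (θ.1 : G → ℂ) := by
      funext θ g
      change θ.1 ((g : G ⧸ C).out) = θ.1 g
      obtain ⟨h, hh⟩ := QuotientGroup.mk_out_eq_mul C g
      rw [hh, map_mul, θ.2 h h.2, mul_one]
    rw [h1]
    have h2 := (linearIndependent_monoidHom G ℂ).comp
      (Subtype.val : {θ : G →* ℂ // ∀ h ∈ C, θ h = 1} → (G →* ℂ)) Subtype.val_injective
    exact h2
  have h2 := hb.fintype_card_le_finrank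
  rw [Module.finrank_fintype_fun_eq_card] at h2
  rw [Nat.card_eq_fintype_card]
  unfold Subgroup.index
  rw [Nat.card_eq_fintype_card]
  exact h2

/-- the number of linear characters which are trivial on the centraliser of some element -/
noncomputable def numTriv (G : Type*) [Group G] : ℕ :=
  Nat.card {θ : G →* ℂ // ∃ g : G, ∀ h : G, g * h = h * g → θ h = 1}

theorem sum_wt_le [Fintype G] [Fintype (G →* ℂ)] :
    ∑ θ : G →* ℂ, ∑ u : G, wt θ u ≤ Nat.card G ^ 2 := by
  classical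
  rw [Finset.sum_comm]
  have h1 : ∀ u : G, ∑ θ : G →* ℂ, wt θ u ≤ Nat.card G := by
    intro u
    have h2 : ∑ θ : G →* ℂ, wt θ u =
        Nat.card {θ : G →* ℂ // ∀ h ∈ cent u, θ h = 1} * Nat.card (cent u) := by
      have h3 : ∀ θ : G →* ℂ, wt θ u =
          if (∀ h ∈ cent u, θ h = 1) then Nat.card (cent u) else 0 := by
        intro θ
        unfold wt Triv
        simp only [mem_cent]
      have h4 : Nat.card {θ : G →* ℂ // ∀ h ∈ cent u, θ h = 1} =
          (Finset.univ.filter (fun θ : G →* ℂ => ∀ h ∈ cent u, θ h = 1)).card := by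
        rw [Nat.card_eq_fintype_card, Fintype.card_subtype]
      rw [Finset.sum_congr rfl (fun θ _ => h3 θ), ← Finset.sum_filter, Finset.sum_const,
        smul_eq_mul, h4]
    rw [h2]
    calc Nat.card {θ : G →* ℂ // ∀ h ∈ cent u, θ h = 1} * Nat.card (cent u)
        ≤ (cent u).index * Nat.card (cent u) := Nat.mul_le_mul_right _ (card_triv_le _)
      _ = Nat.card G := Subgroup.index_mul_card _
  calc ∑ u : G, ∑ θ : G →* ℂ, wt θ u ≤ ∑ _u : G, Nat.card G :=
        Finset.sum_le_sum (fun u _ => h1 u)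
    _ = Nat.card G ^ 2 := by
        rw [Finset.sum_const, Finset.card_univ, smul_eq_mul, ← Nat.card_eq_fintype_card, sq]

theorem sum_wt_one [Fintype G] :
    ∑ u : G, wt (1 : G →* ℂ) u = Nat.card {x : G × G // x.1 * x.2 = x.2 * x.1} := by
  classical
  have h1 : ∀ u : G, wt (1 : G →* ℂ) u = Nat.card (cent u) := by
    intro u
    unfold wt Triv
    rw [if_pos]
    intro h _
    rfl
  rw [Finset.sum_congr rfl (fun u _ => h1 u)]
  have h2 : Nat.card {x : G × G // x.1 * x.2 = x.2 * x.1} = Nat.card (Σ u : G, cent u) := by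
    apply Nat.card_congr
    exact
      { toFun := fun x => ⟨x.1.1, ⟨x.1.2, mem_cent.2 x.2⟩⟩
        invFun := fun y => ⟨(y.1, y.2.1), mem_cent.1 y.2.2⟩
        left_inv := fun x => rfl
        right_inv := fun y => rfl }
  rw [h2, Nat.card_sigma]

/-- If `D` divides the order of every centraliser and no prime divisor of `D` lies in the
conductor, then `D ^ 2` divides the weighted count. -/
theorem sq_dvd_sum_wt [Fintype G] (D : ℕ) (hD : ∀ g : G, D ∣ Nat.card (cent g))
    (hC : ∀ p ∈ Ccomm G, ¬ p ∣ D) (θ : G →* ℂ) : D ^ 2 ∣ ∑ u, wt θ u := by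
  have hD0 : D ≠ 0 := by
    rintro rfl
    have := hD 1
    rw [zero_dvd_iff] at this
    exact Nat.card_pos.ne' this
  rw [Nat.dvd_iff_prime_pow_dvd_dvd]
  intro p k hp hk
  by_cases hpD : p ∣ D
  · have hpC : p ∉ Ccomm G := fun h => hC p h hpD
    have h1 := pow_dvd_sum_wt hp hpC (D.factorization p)
      (fun g => (Nat.ordProj_dvd D p).trans (hD g)) θ
    refine (pow_dvd_pow p ?_).trans h1
    have h2 := (Nat.Prime.pow_dvd_iff_le_factorization hp (pow_ne_zero 2 hD0)).1 hk
    rwa [Nat.factorization_pow, Finsupp.smul_apply, smul_eq_mul] at h2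
  · rcases Nat.eq_zero_or_pos k with h0 | h0
    · rw [h0]; simp
    · exfalso
      apply hpD
      exact hp.dvd_of_dvd_pow ((dvd_pow_self p h0.ne').trans hk)

/-- The basic inequality. -/
theorem ineq_of_no_prime [Finite G] (D : ℕ) (hD : ∀ g : G, D ∣ Nat.card (cent g))
    (hC : ∀ p ∈ Ccomm G, ¬ p ∣ D) :
    numTriv G * D ^ 2 + Nat.card {x : G × G // x.1 * x.2 = x.2 * x.1} ≤
      Nat.card G ^ 2 + D ^ 2 := by
  classical
  have : Fintype G := Fintype.ofFinite G
  have : Fintype (G →* ℂ) := Fintype.ofFinite _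
  have h1 := sum_wt_le (G := G)
  have hpos : ∀ θ : G →* ℂ, (∃ g, Triv θ g) → D ^ 2 ≤ ∑ u, wt θ u := by
    rintro θ ⟨g, hg⟩
    apply Nat.le_of_dvd _ (sq_dvd_sum_wt D hD hC θ)
    apply Finset.sum_pos' (fun _ _ => Nat.zero_le _)
    refine ⟨g, Finset.mem_univ _, ?_⟩
    unfold wt
    rw [if_pos hg]
    exact Nat.card_pos
  have h2 : ∑ θ : G →* ℂ, ∑ u : G, wt θ u =
      ∑ u : G, wt (1 : G →* ℂ) u + ∑ θ ∈ Finset.univ.erase (1 : G →* ℂ), ∑ u : G, wt θ u := by
    rw [add_comm]
    exact (Finset.sum_erase_add _ _ (Finset.mem_univ _)).symm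
  have h3 : ((Finset.univ.filter (fun θ : G →* ℂ => ∃ g, Triv θ g)).erase 1).card * D ^ 2 ≤
      ∑ θ ∈ Finset.univ.erase (1 : G →* ℂ), ∑ u : G, wt θ u := by
    rw [← smul_eq_mul]
    calc ((Finset.univ.filter (fun θ : G →* ℂ => ∃ g, Triv θ g)).erase 1).card • D ^ 2
        ≤ ∑ θ ∈ (Finset.univ.filter (fun θ : G →* ℂ => ∃ g, Triv θ g)).erase 1,
            ∑ u : G, wt θ u := by
          apply Finset.card_nsmul_le_sum
          intro θ hθ
          exact hpos θ (Finset.mem_filter.1 (Finset.mem_of_mem_erase hθ)).2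
      _ ≤ _ := by
          apply Finset.sum_le_sum_of_subset
          exact Finset.erase_subset_erase _ (Finset.filter_subset _ _)
  have h4 : (Finset.univ.filter (fun θ : G →* ℂ => ∃ g, Triv θ g)).card = numTriv G := by
    have h40 : Nat.card {θ : G →* ℂ // ∃ g, Triv θ g} =
        (Finset.univ.filter (fun θ : G →* ℂ => ∃ g, Triv θ g)).card := by
      rw [Nat.card_eq_fintype_card, Fintype.card_subtype]
    rw [← h40]
    rfl
  have h5 : (1 : G →* ℂ) ∈ Finset.univ.filter (fun θ : G →* ℂ => ∃ g, Triv θ g) := by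
    rw [Finset.mem_filter]
    exact ⟨Finset.mem_univ _, 1, fun h _ => rfl⟩
  rw [Finset.card_erase_of_mem h5, h4] at h3
  have h6 : 1 ≤ numTriv G := by
    rw [← h4]
    exact Finset.card_pos.2 ⟨_, h5⟩
  have h7 := sum_wt_one (G := G)
  have h8 : numTriv G * D ^ 2 = (numTriv G - 1) * D ^ 2 + D ^ 2 := by
    obtain ⟨t, ht⟩ : ∃ t, numTriv G = t + 1 := ⟨numTriv G - 1, by omega⟩
    rw [ht, Nat.add_sub_cancel]
    ring
  rw [h8]
  omega

end Pool.Agent.MP_5fbfc2_al.CC
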