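import Pool.Agent.Lib.MP_5fbfc2_al.CC.Main

/-!
# Groups of class two with cyclic commutator subgroup (MP_5fbfc2_al)
-/

namespace Pool.Agent.MP_5fbfc2_al.CC

open Module Pool.Agent.MP_5fbfc2_al
open scoped commutatorElement

variable {G : Type*} [Group G]

theorem dvd_of_sq_dvd {a b c : ℕ} (ha : Squarefree a) (h : c ^ 2 ∣ b ^ 2 * a) (hc : c ≠ 0) :
    c ∣ b := by
  obtain ⟨g, c', b', hg, hcop, rfl, rfl⟩ :=
    Nat.exists_coprime' (m := c) (n := b) (Nat.gcd_pos_of_pos_left b (Nat.pos_of_ne_zero hc))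
  have h1 : g ^ 2 * c' ^ 2 ∣ g ^ 2 * (b' ^ 2 * a) := by
    have h2 : (c' * g) ^ 2 = g ^ 2 * c' ^ 2 := by ring
    have h3 : (b' * g) ^ 2 * a = g ^ 2 * (b' ^ 2 * a) := by ring
    rw [← h2, ← h3]
    exact h
  have h4 : c' ^ 2 ∣ b' ^ 2 * a := Nat.dvd_of_mul_dvd_mul_left (pow_pos hg 2) h1
  have h5 : c' ^ 2 ∣ a := (Nat.Coprime.pow 2 2 hcop).dvd_of_dvd_mul_left h4
  have h6 : IsUnit c' := ha c' (by rw [← sq]; exact h5)
  rw [Nat.isUnit_iff] at h6
  rw [h6, one_mul]
  exact dvd_mul_left _ _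

theorem sq_index_dvd [Finite G] (hcl : commutator G ≤ Subgroup.center G)
    [hcyc : IsCyclic (commutator G)] (lam : commutator G →* ℂ)
    (hlam : Function.Injective lam) (g : G) :
    (cent g).index ^ 2 ∣ (Zlam hcl lam).index := by
  have hidx : (cent g).index = Nat.card (rightHom hcl g).range := by
    rw [← ker_rightHom hcl g, Subgroup.index_ker]
  obtain ⟨⟨w, hw⟩, hgen⟩ := IsCyclic.exists_generator (α := (rightHom hcl g).range)
  have hord : orderOf w = (cent g).index := by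
    have h0 : orderOf (⟨w, hw⟩ : (rightHom hcl g).range) = orderOf w := Subgroup.orderOf_mk w hw
    rw [hidx, ← orderOf_eq_card_of_forall_mem_zpowers hgen, h0]
  obtain ⟨h0, hh0⟩ := hw
  have hw' : cm g h0 = w := hh0
  -- the homomorphism `u ↦ ([u, h0], [g, u])`
  let Ψ : G →* commutator G × commutator G := (leftHom hcl h0).prod (rightHom hcl g)
  have h1 : (Subgroup.zpowers w).prod (Subgroup.zpowers w) ≤ Ψ.range := by
    rintro ⟨x, y⟩ ⟨⟨i, hi⟩, ⟨j, hj⟩⟩
    refine ⟨g ^ i * h0 ^ j, ?_⟩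
    change (leftHom hcl h0 (g ^ i * h0 ^ j), rightHom hcl g (g ^ i * h0 ^ j)) = (x, y)
    have e1 : leftHom hcl h0 g = w := hw'
    have e2 : leftHom hcl h0 h0 = 1 := cm_eq_one_of_comm rfl
    have e3 : rightHom hcl g g = 1 := cm_eq_one_of_comm rfl
    have e4 : rightHom hcl g h0 = w := hw'
    rw [map_mul, map_mul, map_zpow, map_zpow, map_zpow, map_zpow, e1, e2, e3, e4, one_zpow,
      one_zpow, mul_one, one_mul]
    exact Prod.ext hi hj
  have h2 : Nat.card ((Subgroup.zpowers w).prod (Subgroup.zpowers w)) = (cent g).index ^ 2 := by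
    rw [Nat.card_congr (Subgroup.prodEquiv _ _).toEquiv, Nat.card_prod, Nat.card_zpowers, hord,
      sq]
  have h3 : (cent g).index ^ 2 ∣ Nat.card Ψ.range := by
    rw [← h2]
    exact Subgroup.card_dvd_of_le h1
  rw [← Subgroup.index_ker] at h3
  refine h3.trans (Subgroup.index_dvd_of_le ?_)
  intro u hu
  have h4 : ∀ h : G, cm u h = 1 := by
    intro h
    apply hlam
    rw [map_one]
    exact (mem_Zlam hcl lam u).1 hu h
  rw [MonoidHom.mem_ker]
  change (cm u h0, cm g u) = 1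
  have h5 : cm g u = 1 := by
    rw [← cm_inv, h4 g, inv_one]
  rw [h4 h0, h5]
  rfl

/-- class two with cyclic commutator subgroup -/
theorem exists_prime_of_cyclic [Finite G] (hcl : commutator G ≤ Subgroup.center G)
    (hcyc : IsCyclic (commutator G)) (hna : ¬ ∀ x y : G, x * y = y * x) :
    ∃ p ∈ Ccomm G, p ∣ Nat.card G := by
  obtain ⟨lam, hlam⟩ := exists_injective_char (commutator G)
  obtain ⟨a, b, hab, ha⟩ := Nat.sq_mul_squarefree (Zlam hcl lam).index
  have hN : (Zlam hcl lam).index ≠ 0 := Subgroup.index_ne_zero_of_finite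
  have hb0 : b ≠ 0 := by
    rintro rfl
    apply hN
    rw [← hab]
    ring
  have hdvd : ∀ g : G, (cent g).index ∣ b := by
    intro g
    apply dvd_of_sq_dvd ha _ Subgroup.index_ne_zero_of_finite
    rw [hab]
    exact sq_index_dvd hcl lam hlam g
  have hb1 : b ≠ 1 := by
    rintro rfl
    apply hna
    intro x y
    have h5 : cent x = ⊤ := Subgroup.index_eq_one.1 (Nat.dvd_one.1 (hdvd x))
    have h6 : y ∈ cent x := by rw [h5]; trivial
    exact mem_cent.1 h6
  refine exists_prime_of_lcm b hb0 hdvd ?_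
  have h1 := index_Zlam_le hcl lam
  have ha1 : 1 ≤ a := Nat.one_le_iff_ne_zero.2 ha.ne_zero
  have h2 : b ^ 2 ≤ (Zlam hcl lam).index := by
    rw [← hab]
    exact Nat.le_mul_of_pos_right _ ha1
  omega

end Pool.Agent.MP_5fbfc2_al.CC
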