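import Mathlib

/-!
# Powers of an odd prime dividing geometric sums (MP_5fbfc2_al)
-/

namespace Pool.Agent.MP_5fbfc2_al.CC

theorem dvd_geom_iff {q : ℕ} (hq : q.Prime) (hq2 : q ≠ 2) {m : ℤ} (hm : (q : ℤ) ∣ m - 1)
    (n a : ℕ) : ((q : ℤ) ^ a ∣ ∑ j ∈ Finset.range n, m ^ j) ↔ q ^ a ∣ n := by
  have hqi : Prime (q : ℤ) := Nat.prime_iff_prime_int.1 hq
  by_cases h1 : m = 1
  · subst h1
    simp only [one_pow, Finset.sum_const, Finset.card_range, nsmul_eq_mul, mul_one]
    rw [← Int.natCast_pow, Int.natCast_dvd_natCast]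
  · have hodd : Odd q := hq.odd_of_ne_two hq2
    have hnd : ¬ (q : ℤ) ∣ m := by
      intro h
      have h2 : (q : ℤ) ∣ 1 := by
        have h3 := dvd_sub h hm
        rwa [sub_sub_cancel] at h3
      exact hqi.not_isUnit (isUnit_of_dvd_one h2)
    have h2 := Int.emultiplicity_pow_sub_pow (x := m) (y := 1) hq hodd hm hnd n
    rw [one_pow, ← geom_sum_mul m n, emultiplicity_mul hqi, add_comm] at h2
    have hfin : FiniteMultiplicity (q : ℤ) (m - 1) :=
      Int.finiteMultiplicity_iff.2 ⟨by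
        rw [Int.natAbs_natCast]; exact hq.one_lt.ne', sub_ne_zero.2 h1⟩
    have h3 : emultiplicity (q : ℤ) (∑ j ∈ Finset.range n, m ^ j) = emultiplicity q n := by
      have h4 : emultiplicity (q : ℤ) (m - 1) ≠ ⊤ := finiteMultiplicity_iff_emultiplicity_ne_top.1 hfin
      exact (WithTop.add_left_inj h4).1 h2
    rw [pow_dvd_iff_le_emultiplicity, h3, pow_dvd_iff_le_emultiplicity]

end Pool.Agent.MP_5fbfc2_al.CC
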