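import Pool.Agent.Lib.MP_5fbfc2_al.CC.MinCent
import Pool.Agent.Lib.MP_5fbfc2_al.CC.AbelByCyc
import Pool.Agent.Lib.MP_5fbfc2_al.CC.Lte

/-!
# Groups whose commutator subgroup is cyclic of odd prime power order (MP_5fbfc2_al)
-/

namespace Pool.Agent.MP_5fbfc2_al.CC

open Module Pool.Agent.MP_5fbfc2_al
open scoped commutatorElement

variable {G : Type*} [Group G]

/-- elements of a finite cyclic group: order divisibility and powers -/
theorem mem_zpowers_of_orderOf_dvd {R : Type*} [Group R] [Finite R] [IsCyclic R] (s t : R)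
    (h : orderOf s ∣ orderOf t) : s ∈ Subgroup.zpowers t := by
  classical
  have : Fintype R := Fintype.ofFinite R
  have h1 : (Finset.univ.filter (fun z : R => z ^ orderOf t = 1)).card ≤ orderOf t :=
    IsCyclic.card_pow_eq_one_le (orderOf_pos t)
  have h2 : (Finset.univ.filter (fun z : R => z ∈ Subgroup.zpowers t)).card = orderOf t := by
    rw [← Nat.card_zpowers, Nat.card_eq_fintype_card, Fintype.card_subtype]
  have h3 : Finset.univ.filter (fun z : R => z ∈ Subgroup.zpowers t) =
      Finset.univ.filter (fun z : R => z ^ orderOf t = 1) := by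
    apply Finset.eq_of_subset_of_card_le
    · intro z hz
      obtain ⟨k, rfl⟩ := Subgroup.mem_zpowers_iff.1 (Finset.mem_filter.1 hz).2
      refine Finset.mem_filter.2 ⟨Finset.mem_univ _, ?_⟩
      rw [← zpow_natCast, ← zpow_mul, mul_comm, zpow_mul, zpow_natCast, pow_orderOf_eq_one,
        one_zpow]
    · rw [h2]; exact h1
  have h4 : s ∈ Finset.univ.filter (fun z : R => z ^ orderOf t = 1) :=
    Finset.mem_filter.2 ⟨Finset.mem_univ _, orderOf_dvd_iff_pow_eq_one.1 h⟩
  rw [← h3] at h4
  exact (Finset.mem_filter.1 h4).2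

/-- conjugation acts on a cyclic normal subgroup by powers -/
theorem exists_conj_pow (A : Subgroup G) [A.Normal] [IsCyclic A] (g : G) :
    ∃ m : ℤ, ∀ a ∈ A, g * a * g⁻¹ = a ^ m := by
  obtain ⟨m, hm⟩ := MonoidHom.map_cyclic ((MulAut.conjNormal g : MulAut A).toMonoidHom)
  refine ⟨m, fun a ha => ?_⟩
  have h1 := congrArg Subtype.val (hm ⟨a, ha⟩)
  exact h1

theorem comm_pow_eq (A : Subgroup G) (g u : G) (m : ℤ) (hm : ∀ a ∈ A, g * a * g⁻¹ = a ^ m)
    (hc : ⁅g, u⁆ ∈ A) (n : ℕ) : ⁅g ^ n, u⁆ = ⁅g, u⁆ ^ (∑ j ∈ Finset.range n, m ^ j) := by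
  induction n with
  | zero => simp
  | succ n ih =>
    have h1 : ⁅g ^ (n + 1), u⁆ = (g * ⁅g ^ n, u⁆ * g⁻¹) * ⁅g, u⁆ := by
      simp only [commutatorElement_def, pow_succ' g n]
      group
    rw [h1, ih, hm _ (A.zpow_mem hc _), ← zpow_mul, ← zpow_add_one, geom_sum_succ, mul_comm m]

theorem index_eq_of_mk_eq {u x y : G} (h : ⁅x, u⁆ = ⁅y, u⁆) : x⁻¹ * y ∈ cent u := by
  rw [mem_cent]
  have h2 : x * u * x⁻¹ = y * u * y⁻¹ := by
    rw [commutatorElement_def, commutatorElement_def] at h
    exact mul_right_cancel h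
  calc u * (x⁻¹ * y) = x⁻¹ * (x * u * x⁻¹) * y := by group
    _ = x⁻¹ * (y * u * y⁻¹) * y := by rw [h2]
    _ = x⁻¹ * y * u := by group

theorem cent_normal_of_mem (u : G) (hu : u ∈ centComm G) : (cent u).Normal := by
  refine ⟨fun n hn g => ?_⟩
  have h1 : g * n * g⁻¹ = ⁅g, n⁆ * n := by rw [commutatorElement_def]; group
  rw [h1]
  refine (cent u).mul_mem ?_ hn
  rw [mem_cent]
  exact (Subgroup.mem_centralizer_iff.1 hu _ (mem_commutator' g n)).symm

/-- the main case -/
theorem exists_prime_of_cyclic_pow_aux [Finite G] {q k : ℕ} (hq : q.Prime) (hq2 : q ≠ 2)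
    (hcyc : IsCyclic (commutator G)) (hcard : Nat.card (commutator G) = q ^ (k + 1))
    (hone : ∀ g : G, ∀ m : ℤ, (∀ a ∈ commutator G, g * a * g⁻¹ = a ^ m) → (q : ℤ) ∣ m - 1) :
    ∃ p ∈ Ccomm G, p ∣ Nat.card G := by
  classical
  have : Fact q.Prime := ⟨hq⟩
  have : Fintype G := Fintype.ofFinite G
  have hcommA : ∀ a ∈ commutator G, ∀ b ∈ commutator G, a * b = b * a := by
    intro a ha b hb
    have := (IsCyclic.commGroup (α := commutator G)).mul_comm ⟨a, ha⟩ ⟨b, hb⟩
    exact congrArg Subtype.val this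
  have hord : ∀ c ∈ commutator G, orderOf c ∣ q ^ (k + 1) := by
    intro c hc
    rw [← hcard, orderOf_dvd_iff_pow_eq_one]
    have h1 := pow_card_eq_one' (x := (⟨c, hc⟩ : commutator G))
    exact congrArg Subtype.val h1
  -- vanishing of commutators with powers
  have hvan : ∀ g u : G, ∀ n : ℕ, ⁅g ^ n, u⁆ = 1 ↔ orderOf ⁅g, u⁆ ∣ n := by
    intro g u n
    obtain ⟨m, hm⟩ := exists_conj_pow (commutator G) g
    have h1 := comm_pow_eq (commutator G) g u m hm (mem_commutator' g u) n
    obtain ⟨b, _, hb⟩ := (Nat.dvd_prime_pow hq).1 (hord _ (mem_commutator' g u))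
    rw [h1, ← orderOf_dvd_iff_zpow_eq_one, hb, Int.natCast_pow]
    exact dvd_geom_iff hq hq2 (hone g m hm) n b
  -- a commutator of full order
  obtain ⟨x, y, hxy⟩ : ∃ x y : G, orderOf ⁅x, y⁆ = q ^ (k + 1) := by
    by_contra hcon
    push Not at hcon
    have h1 : ∀ x y : G, ⁅x, y⁆ ^ (q ^ k) = 1 := by
      intro x y
      by_contra hne
      refine hcon x y (orderOf_eq_prime_pow hne ?_)
      exact orderOf_dvd_iff_pow_eq_one.1 (hord _ (mem_commutator' x y))
    have h2 : ∀ z ∈ commutator G, z ^ (q ^ k) = 1 := by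
      intro z hz
      have hz' := hz
      rw [commutator_eq_closure] at hz
      have h3 : z ∈ commutator G ∧ z ^ (q ^ k) = 1 := by
        induction hz using Subgroup.closure_induction with
        | mem w hw =>
          obtain ⟨a, b, rfl⟩ := hw
          exact ⟨mem_commutator' a b, h1 a b⟩
        | one => exact ⟨one_mem _, one_pow _⟩
        | mul a b ha hb iha ihb =>
          have ha' : a ∈ commutator G := by rw [commutator_eq_closure]; exact ha
          have hb' : b ∈ commutator G := by rw [commutator_eq_closure]; exact hb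
          refine ⟨mul_mem ha' hb', ?_⟩
          have hc : Commute a b := hcommA a ha' b hb'
          rw [hc.mul_pow, (iha ha').2, (ihb hb').2, one_mul]
        | inv a ha iha =>
          have ha' : a ∈ commutator G := by rw [commutator_eq_closure]; exact ha
          exact ⟨inv_mem ha', by rw [inv_pow, (iha ha').2, inv_one]⟩
      exact h3.2
    obtain ⟨z, hz⟩ := hcyc.exists_generator
    have h4 : orderOf z = q ^ (k + 1) := by
      rw [← hcard]; exact orderOf_eq_card_of_forall_mem_zpowers hz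
    have h5 : z ^ (q ^ k) = 1 := Subtype.ext (h2 z z.2)
    have h6 := orderOf_dvd_iff_pow_eq_one.2 h5
    rw [h4] at h6
    have h7 := Nat.le_of_dvd (pow_pos hq.pos k) h6
    exact absurd h7 (not_le.2 (Nat.pow_lt_pow_right hq.one_lt (Nat.lt_succ_self k)))
  -- the action on the commutator subgroup
  let χ : G →* MulAut (commutator G) := MulAut.conjNormal
  have hχcyc : IsCyclic (MulAut (commutator G)) := by
    have h1 := ZMod.isCyclic_units_of_prime_pow q hq hq2 (k + 1)
    rw [← hcard] at h1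
    exact isCyclic_of_injective (IsCyclic.mulAutMulEquiv (commutator G)).toMonoidHom
      (IsCyclic.mulAutMulEquiv (commutator G)).injective
  have hχpow : ∀ g : G, χ g ^ (q ^ (k + 1)) = 1 := by
    intro g
    rw [← map_pow]
    ext a
    change g ^ (q ^ (k + 1)) * (a : G) * (g ^ (q ^ (k + 1)))⁻¹ = a
    have h1 := (hvan g a (q ^ (k + 1))).2 (hord _ (mem_commutator' g a))
    rw [commutatorElement_def] at h1
    exact mul_inv_eq_one.1 h1
  have hker : ∀ g : G, χ g = 1 → g ∈ centComm G := by
    intro g hg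
    rw [Subgroup.mem_centralizer_iff]
    intro a ha
    have h1 : (χ g ⟨a, ha⟩ : G) = a := by rw [hg]; rfl
    have h2 : g * a * g⁻¹ = a := h1
    exact (mul_inv_eq_iff_eq_mul.1 h2).symm
  -- one of the two elements may be chosen in the centraliser of the commutator subgroup
  obtain ⟨u, g, hu, hgu⟩ : ∃ u g : G, u ∈ centComm G ∧ orderOf ⁅g, u⁆ = q ^ (k + 1) := by
    obtain ⟨a, _, ha⟩ := (Nat.dvd_prime_pow hq).1 (orderOf_dvd_iff_pow_eq_one.2 (hχpow x))
    obtain ⟨b, _, hb⟩ := (Nat.dvd_prime_pow hq).1 (orderOf_dvd_iff_pow_eq_one.2 (hχpow y))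
    rcases le_total a b with hab | hab
    · have h1 : orderOf (χ x) ∣ orderOf (χ y) := by
        rw [ha, hb]; exact pow_dvd_pow q hab
      obtain ⟨i, hi⟩ := Subgroup.mem_zpowers_iff.1 (mem_zpowers_of_orderOf_dvd _ _ h1)
      refine ⟨x * y ^ (-i), y, hker _ ?_, ?_⟩
      · rw [map_mul, map_zpow, zpow_neg, hi, mul_inv_cancel]
      · have h2 : ⁅y, x * y ^ (-i)⁆ = ⁅x, y⁆⁻¹ := by
          simp only [commutatorElement_def]
          group
        rw [h2, orderOf_inv, hxy]
    · have h1 : orderOf (χ y) ∣ orderOf (χ x) := by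
        rw [ha, hb]; exact pow_dvd_pow q hab
      obtain ⟨i, hi⟩ := Subgroup.mem_zpowers_iff.1 (mem_zpowers_of_orderOf_dvd _ _ h1)
      refine ⟨y * x ^ (-i), x, hker _ ?_, ?_⟩
      · rw [map_mul, map_zpow, zpow_neg, hi, mul_inv_cancel]
      · have h2 : ⁅x, y * x ^ (-i)⁆ = ⁅x, y⁆ := by
          simp only [commutatorElement_def]
          group
        rw [h2, hxy]
  have hN := cent_normal_of_mem u hu
  have hle : (cent u).index ≤ q ^ (k + 1) := by
    rw [← hcard]; exact index_cent_le u
  have hdvd : q ^ (k + 1) ∣ orderOf (g : G ⧸ cent u) := by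
    have h1 : (g : G ⧸ cent u) ^ orderOf (g : G ⧸ cent u) = 1 := pow_orderOf_eq_one _
    have h2 : g ^ orderOf (g : G ⧸ cent u) ∈ cent u := by
      rw [← QuotientGroup.eq_one_iff]
      exact h1
    have h3 : ⁅g ^ orderOf (g : G ⧸ cent u), u⁆ = 1 :=
      commutatorElement_eq_one_iff_mul_comm.2 (mem_cent.1 h2).symm
    rw [← hgu]
    exact (hvan g u _).1 h3
  have hge : q ^ (k + 1) ≤ orderOf (g : G ⧸ cent u) := Nat.le_of_dvd (orderOf_pos _) hdvd
  have hoc : orderOf (g : G ⧸ cent u) ≤ Nat.card (G ⧸ cent u) := by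
    exact Nat.le_of_dvd Nat.card_pos (orderOf_dvd_natCard _)
  have hidx : (cent u).index = Nat.card (G ⧸ cent u) := rfl
  have hcycN : IsCyclic (G ⧸ cent u) :=
    isCyclic_of_orderOf_eq_card (g : G ⧸ cent u) (by omega)
  have hmin : ∀ v : G, cent v ≤ cent u → cent v = cent u := by
    intro v hv
    apply Subgroup.eq_of_le_of_card_ge hv
    have h1 : (cent v).index * Nat.card (cent v) = Nat.card G := Subgroup.index_mul_card _
    have h2 : (cent u).index * Nat.card (cent u) = Nat.card G := Subgroup.index_mul_card _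
    have h3 : (cent v).index ≤ (cent u).index := by
      have h4 : (cent v).index ≤ q ^ (k + 1) := by
        rw [← hcard]; exact index_cent_le v
      omega
    have h5 : 0 < (cent u).index := Nat.pos_of_ne_zero Subgroup.index_ne_zero_of_finite
    by_contra hcon
    have h6 : (cent v).index * Nat.card (cent v) < (cent u).index * Nat.card (cent u) :=
      Nat.mul_lt_mul_of_le_of_lt h3 (not_le.1 hcon) h5
    omega
  have hne : cent u ≠ ⊤ := by
    intro h
    have h1 : (cent u).index = 1 := by rw [h, Subgroup.index_top]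
    have h2 : 1 < q ^ (k + 1) := Nat.one_lt_pow (Nat.succ_ne_zero k) hq.one_lt
    omega
  obtain ⟨p, hp, hpu⟩ := exists_prime_of_minimal_cent (cent u) hcycN hne u rfl hmin
  exact ⟨p, hp, hpu.trans (Subgroup.card_subgroup_dvd_card _)⟩

/-- **Cyclic commutator subgroup of odd prime power order.** -/
theorem exists_prime_of_cyclic_pow [Finite G] {q k : ℕ} (hq : q.Prime) (hq2 : q ≠ 2)
    (hcyc : IsCyclic (commutator G)) (hcard : Nat.card (commutator G) = q ^ (k + 1)) :
    ∃ p ∈ Ccomm G, p ∣ Nat.card G := by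
  classical
  by_cases hone : ∀ g : G, ∀ m : ℤ, (∀ a ∈ commutator G, g * a * g⁻¹ = a ^ m) → (q : ℤ) ∣ m - 1
  · exact exists_prime_of_cyclic_pow_aux hq hq2 hcyc hcard hone
  · push Not at hone
    obtain ⟨g, m, hm, hqm⟩ := hone
    have hna : ¬ ∀ x y : G, x * y = y * x := by
      intro hab
      have h1 : commutator G = ⊥ := by
        rw [eq_bot_iff, commutator_eq_closure, Subgroup.closure_le]
        rintro w ⟨a, b, rfl⟩
        exact commutatorElement_eq_one_iff_mul_comm.2 (hab a b)
      rw [h1, Subgroup.card_bot] at hcard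
      have h2 : 1 < q ^ (k + 1) := Nat.one_lt_pow (Nat.succ_ne_zero k) hq.one_lt
      omega
    -- a central element of the commutator subgroup is trivial
    have htriv : ∀ z ∈ commutator G, z ∈ Subgroup.center G → z = 1 := by
      intro z hz hzc
      have h1 : z ^ m = z := by
        rw [← hm z hz, Subgroup.mem_center_iff.1 hzc g, mul_inv_cancel_right]
      have h2 : z ^ (m - 1) = 1 := by rw [zpow_sub_one, h1, mul_inv_cancel]
      have h3 : z ^ (q ^ (k + 1)) = 1 := by
        rw [← hcard]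
        have h4 := pow_card_eq_one' (x := (⟨z, hz⟩ : commutator G))
        exact congrArg Subtype.val h4
      have h5 : (orderOf z : ℤ) ∣ m - 1 := orderOf_dvd_iff_zpow_eq_one.2 h2
      obtain ⟨b, _, hb⟩ := (Nat.dvd_prime_pow hq).1 (orderOf_dvd_iff_pow_eq_one.2 h3)
      rcases Nat.eq_zero_or_pos b with h6 | h6
      · rw [h6, pow_zero] at hb
        exact orderOf_eq_one_iff.1 hb
      · exfalso
        apply hqm
        rw [hb, Int.natCast_pow] at h5
        exact (dvd_pow_self _ h6.ne').trans h5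
    let χ : G →* MulAut (commutator G) := MulAut.conjNormal
    have hχcyc : IsCyclic (MulAut (commutator G)) := by
      have h1 := ZMod.isCyclic_units_of_prime_pow q hq hq2 (k + 1)
      rw [← hcard] at h1
      exact isCyclic_of_injective (IsCyclic.mulAutMulEquiv (commutator G)).toMonoidHom
        (IsCyclic.mulAutMulEquiv (commutator G)).injective
    have hker : ∀ g : G, g ∈ χ.ker → g ∈ centComm G := by
      intro g hg
      rw [Subgroup.mem_centralizer_iff]
      intro a ha
      have h1 : (χ g ⟨a, ha⟩ : G) = a := by rw [MonoidHom.mem_ker.1 hg]; rfl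
      have h2 : g * a * g⁻¹ = a := h1
      exact (mul_inv_eq_iff_eq_mul.1 h2).symm
    refine exists_prime_of_abelian_by_cyclic χ.ker ?_ ?_ hna
    · intro a ha b hb
      have h1 : ⁅a, b⁆ ∈ Subgroup.center G :=
        centComm_comm_le (Subgroup.commutator_mem_commutator (hker a ha) (hker b hb))
      exact commutatorElement_eq_one_iff_mul_comm.1 (htriv _ (mem_commutator' a b) h1)
    · exact isCyclic_of_injective (QuotientGroup.kerLift χ) (QuotientGroup.kerLift_injective χ)

end Pool.Agent.MP_5fbfc2_al.CC
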