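import Pool.Agent.Lib.MP_5fbfc2_al.CC.PrimeComm

/-!
# A nonabelian subgroup `K` with `[K, G] = [K, K]` cyclic and central in `K` (MP_5fbfc2_al)
-/

namespace Pool.Agent.MP_5fbfc2_al.CC

open Module Pool.Agent.MP_5fbfc2_al
open scoped commutatorElement

variable {G : Type*} [Group G]

theorem index_centIn_le [Finite G] {K W : Subgroup G} (hW : ∀ k ∈ K, ∀ g : G, ⁅k, g⁆ ∈ W) (v : G) :
    (centIn K v).index ≤ Nat.card W := by
  have h1 : Function.Injective (fun q : K ⧸ centIn K v => (⟨⁅((q.out : K) : G), v⁆, hW _ q.out.2 v⟩ : W)) := by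
    intro q r hqr
    have h2 : ⁅((q.out : K) : G), v⁆ = ⁅((r.out : K) : G), v⁆ := congrArg Subtype.val hqr
    have h3 := index_eq_of_mk_eq h2
    have h4 : ((q.out : K) : K ⧸ centIn K v) = ((r.out : K) : K ⧸ centIn K v) := by
      rw [QuotientGroup.eq, Subgroup.mem_subgroupOf]
      simpa using h3
    rwa [QuotientGroup.out_eq', QuotientGroup.out_eq'] at h4
  exact Nat.card_le_card_of_injective _ h1

/-- **A nonabelian subgroup `K` with `[K, G] = [K, K]` cyclic and central in `K`.** -/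
theorem exists_prime_of_cyclic_comm [Finite G] (K : Subgroup G)
    (hKG : ⁅K, (⊤ : Subgroup G)⁆ ≤ ⁅K, K⁆)
    (hcyc : IsCyclic (⁅K, K⁆ : Subgroup G)) (hc : ∀ k ∈ K, ∀ w ∈ ⁅K, K⁆, k * w = w * k)
    (hna : ¬ ∀ a ∈ K, ∀ b ∈ K, a * b = b * a) : ∃ q ∈ Ccomm G, q ∣ Nat.card K := by
  classical
  have hW : ∀ k ∈ K, ∀ g : G, ⁅k, g⁆ ∈ ⁅K, K⁆ := fun k hk g =>
    hKG (Subgroup.commutator_mem_commutator hk (Subgroup.mem_top g))
  -- the quotient by the centre is commutative
  have hcomm : ∀ x y : K ⧸ Subgroup.center K, x * y = y * x := by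
    intro x y
    obtain ⟨a, rfl⟩ := QuotientGroup.mk_surjective x
    obtain ⟨b, rfl⟩ := QuotientGroup.mk_surjective y
    rw [← QuotientGroup.mk_mul, ← QuotientGroup.mk_mul, QuotientGroup.eq, Subgroup.mem_center_iff]
    intro k
    have h1 : ((a * b)⁻¹ * (b * a) : K) = ⁅b⁻¹, a⁻¹⁆ := by
      rw [commutatorElement_def]; group
    rw [h1]
    apply Subtype.ext
    have h2 := hc k k.2 ⁅((b⁻¹ : K) : G), ((a⁻¹ : K) : G)⁆
      (Subgroup.commutator_mem_commutator (b⁻¹).2 (a⁻¹).2)
    simpa [commutatorElement_def] using h2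
  let _ : CommGroup (K ⧸ Subgroup.center K) :=
    { (inferInstance : Group (K ⧸ Subgroup.center K)) with mul_comm := hcomm }
  obtain ⟨qu, hqu⟩ := Monoid.exists_orderOf_eq_exponent
    (Monoid.ExponentExists.of_finite (G := K ⧸ Subgroup.center K))
  obtain ⟨u, rfl⟩ := QuotientGroup.mk_surjective qu
  obtain ⟨e, he⟩ : ∃ e, e = Monoid.exponent (K ⧸ Subgroup.center K) := ⟨_, rfl⟩
  rw [← he] at hqu
  have hpow : ∀ k x : K, ∀ n : ℕ, ⁅(k : G) ^ n, (x : G)⁆ = ⁅(k : G), (x : G)⁆ ^ n := fun k x n =>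
    comm_pow_of_commute _ _ (hc k k.2 _ (hW k k.2 x)) n
  -- `|W|` divides `e`
  have hWe : ∀ w ∈ ⁅K, K⁆, w ^ e = 1 := by
    intro w hw
    have hw' := hw
    rw [Subgroup.commutator_def] at hw
    have h3 : w ∈ ⁅K, K⁆ ∧ w ^ e = 1 := by
      induction hw using Subgroup.closure_induction with
      | mem w hw =>
        obtain ⟨a, ha, b, hb, rfl⟩ := hw
        refine ⟨Subgroup.commutator_mem_commutator ha hb, ?_⟩
        rw [← hpow ⟨a, ha⟩ ⟨b, hb⟩ e]
        have h1 : (((⟨a, ha⟩ : K) ^ e : K) : K ⧸ Subgroup.center K) = 1 := by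
          rw [QuotientGroup.mk_pow, he, Monoid.pow_exponent_eq_one]
        rw [QuotientGroup.eq_one_iff, Subgroup.mem_center_iff] at h1
        have h2 := congrArg Subtype.val (h1 ⟨b, hb⟩)
        exact commutatorElement_eq_one_iff_mul_comm.2 (by simpa using h2.symm)
      | one => exact ⟨one_mem _, one_pow _⟩
      | mul a b ha hb iha ihb =>
        have ha' : a ∈ ⁅K, K⁆ := by rw [Subgroup.commutator_def]; exact ha
        have hb' : b ∈ ⁅K, K⁆ := by rw [Subgroup.commutator_def]; exact hb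
        have haK : a ∈ K := Subgroup.commutator_le_self K ha'
        have hcab : Commute a b := hc a haK b hb'
        exact ⟨mul_mem ha' hb', by rw [hcab.mul_pow, (iha ha').2, (ihb hb').2, one_mul]⟩
      | inv a ha iha =>
        have ha' : a ∈ ⁅K, K⁆ := by rw [Subgroup.commutator_def]; exact ha
        exact ⟨inv_mem ha', by rw [inv_pow, (iha ha').2, inv_one]⟩
    exact h3.2
  have hcard : Nat.card (⁅K, K⁆ : Subgroup G) ∣ e := by
    obtain ⟨z, hz⟩ := hcyc.exists_generator
    rw [← orderOf_eq_card_of_forall_mem_zpowers hz]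
    exact orderOf_dvd_of_pow_eq_one (Subtype.ext (hWe z z.2))
  have he0 : 0 < e := by rw [he]; exact Monoid.exponent_pos.2 Monoid.ExponentExists.of_finite
  -- the homomorphism `k ↦ [k, u]`
  let φ : K →* (⁅K, K⁆ : Subgroup G) :=
    { toFun := fun k => ⟨⁅(k : G), (u : G)⁆, hW k k.2 u⟩
      map_one' := by apply Subtype.ext; simp
      map_mul' := by
        intro a b
        apply Subtype.ext
        have h1 : ⁅((a * b : K) : G), (u : G)⁆ =
            (a : G) * ⁅(b : G), (u : G)⁆ * (a : G)⁻¹ * ⁅(a : G), (u : G)⁆ := by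
          rw [Subgroup.coe_mul]
          simp only [commutatorElement_def]
          group
        have h2 : (a : G) * ⁅(b : G), (u : G)⁆ = ⁅(b : G), (u : G)⁆ * a := hc a a.2 _ (hW b b.2 u)
        have h3 : ⁅(a : G), (u : G)⁆ ∈ K := Subgroup.commutator_le_self K (hW a a.2 u)
        have h4 := hc _ h3 _ (hW b b.2 u)
        change ⁅((a * b : K) : G), (u : G)⁆ = ⁅(a : G), (u : G)⁆ * ⁅(b : G), (u : G)⁆
        rw [h1, h2, mul_inv_cancel_right, h4] }
  have hφ : Nat.card (⁅K, K⁆ : Subgroup G) ≤ Nat.card φ.range := by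
    have h1 : (u : K ⧸ Subgroup.center K) ^ Nat.card φ.range = 1 := by
      rw [← QuotientGroup.mk_pow, QuotientGroup.eq_one_iff, Subgroup.mem_center_iff]
      intro k
      apply Subtype.ext
      have h2 : φ k ^ Nat.card φ.range = 1 := by
        have h3 := pow_card_eq_one' (x := (⟨φ k, k, rfl⟩ : φ.range))
        exact congrArg Subtype.val h3
      have h3 : ⁅(k : G), (u : G)⁆ ^ Nat.card φ.range = 1 := congrArg Subtype.val h2
      have h4 : ⁅(u : G), (k : G)⁆ ^ Nat.card φ.range = 1 := by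
        rw [← commutatorElement_inv, inv_pow, h3, inv_one]
      rw [← hpow u k] at h4
      have h5 := commutatorElement_eq_one_iff_mul_comm.1 h4
      simpa using h5.symm
    have h2 : e ∣ Nat.card φ.range := by rw [← hqu]; exact orderOf_dvd_of_pow_eq_one h1
    exact (Nat.le_of_dvd he0 hcard).trans (Nat.le_of_dvd Nat.card_pos h2)
  have hsurj : Function.Surjective φ := by
    rw [← MonoidHom.range_eq_top]
    exact Subgroup.eq_top_of_le_card _ hφ
  have hker : φ.ker = centIn K (u : G) := by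
    ext k
    rw [MonoidHom.mem_ker, mem_centIn]
    constructor
    · intro h
      exact (commutatorElement_eq_one_iff_mul_comm.1 (congrArg Subtype.val h)).symm
    · intro h
      exact Subtype.ext (commutatorElement_eq_one_iff_mul_comm.2 h.symm)
  have hidx : φ.ker.index = Nat.card (⁅K, K⁆ : Subgroup G) := by
    rw [Subgroup.index_ker, MonoidHom.range_eq_top.2 hsurj, Subgroup.card_top]
  have hcycN : IsCyclic (K ⧸ φ.ker) :=
    isCyclic_of_injective (QuotientGroup.kerLift φ) (QuotientGroup.kerLift_injective φ)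
  have hne : φ.ker ≠ ⊤ := by
    intro h
    rw [h, Subgroup.index_top] at hidx
    apply hna
    intro a ha b hb
    have h1 : (⁅K, K⁆ : Subgroup G) = ⊥ := Subgroup.card_eq_one.1 hidx.symm
    have h2 := Subgroup.commutator_mem_commutator ha hb
    rw [h1, Subgroup.mem_bot, commutatorElement_eq_one_iff_mul_comm] at h2
    exact h2
  have hmin : ∀ v : G, centIn K v ≤ φ.ker → centIn K v = φ.ker := by
    intro v hv
    apply Subgroup.eq_of_le_of_card_ge hv
    have h1 : (centIn K v).index * Nat.card (centIn K v) = Nat.card K := Subgroup.index_mul_card _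
    have h2 : φ.ker.index * Nat.card φ.ker = Nat.card K := Subgroup.index_mul_card _
    have h3 : (centIn K v).index ≤ φ.ker.index := by
      rw [hidx]; exact index_centIn_le hW v
    have h5 : 0 < φ.ker.index := Nat.pos_of_ne_zero Subgroup.index_ne_zero_of_finite
    by_contra hcon
    have h6 : (centIn K v).index * Nat.card (centIn K v) < φ.ker.index * Nat.card φ.ker :=
      Nat.mul_lt_mul_of_le_of_lt h3 (not_le.1 hcon) h5
    omega
  obtain ⟨q, hq, hdvd⟩ := exists_prime_of_minimal_centIn K φ.ker hcycN hne u hker.symm hmin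
  exact ⟨q, hq, hdvd.trans (Subgroup.card_subgroup_dvd_card _)⟩

end Pool.Agent.MP_5fbfc2_al.CC
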