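import Pool.Agent.Lib.MP_5fbfc2_al.CC.ClassTwo

/-!
# Counting linear characters: groups with a given order of the commutator subgroup (MP_5fbfc2_al)
-/

namespace Pool.Agent.MP_5fbfc2_al.CC

open Module Pool.Agent.MP_5fbfc2_al
open scoped commutatorElement Nat

variable {G : Type*} [Group G]

/-- class sizes are at most the order of the commutator subgroup -/
theorem index_cent_le [Finite G] (g : G) : (cent g).index ≤ Nat.card (commutator G) := by
  unfold Subgroup.index
  refine Nat.card_le_card_of_injective (fun q : G ⧸ cent g => cm q.out g) ?_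
  intro q r hqr
  have h1 : ⁅q.out, g⁆ = ⁅r.out, g⁆ := congrArg Subtype.val hqr
  rw [← QuotientGroup.out_eq' q, ← QuotientGroup.out_eq' r, QuotientGroup.eq, mem_cent]
  have h2 : q.out * g * q.out⁻¹ = r.out * g * r.out⁻¹ := by
    rw [commutatorElement_def, commutatorElement_def] at h1
    exact mul_right_cancel h1
  calc g * (q.out⁻¹ * r.out) = q.out⁻¹ * (q.out * g * q.out⁻¹) * r.out := by group
    _ = q.out⁻¹ * (r.out * g * r.out⁻¹) * r.out := by rw [h2]
    _ = q.out⁻¹ * r.out * g := by group

/-- the centraliser of the commutator subgroup -/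
abbrev centComm (G : Type*) [Group G] : Subgroup G :=
  Subgroup.centralizer (commutator G : Set G)

theorem centComm_comm_le : ⁅centComm G, centComm G⁆ ≤ Subgroup.center G := by
  have hK : ⁅commutator G, centComm G⁆ = ⊥ := by
    rw [Subgroup.commutator_comm, Subgroup.commutator_eq_bot_iff_le_centralizer]
  have h1 : ⁅⁅centComm G, (⊤ : Subgroup G)⁆, centComm G⁆ = ⊥ := by
    rw [eq_bot_iff, ← hK]
    apply Subgroup.commutator_mono _ le_rfl
    rw [commutator_def]
    exact Subgroup.commutator_mono le_top le_rfl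
  have h2 : ⁅⁅(⊤ : Subgroup G), centComm G⁆, centComm G⁆ = ⊥ := by
    rw [Subgroup.commutator_comm ⊤ (centComm G)]
    exact h1
  have h3 := Subgroup.commutator_commutator_eq_bot_of_rotate h1 h2
  rw [Subgroup.commutator_eq_bot_iff_le_centralizer] at h3
  intro x hx
  rw [Subgroup.mem_center_iff]
  intro g
  exact Subgroup.mem_centralizer_iff.1 (h3 hx) g (Subgroup.mem_top g)

/-- elements of the centraliser of `G'` which commute with representatives -/
noncomputable def Usub (G : Type*) [Group G] : Subgroup G :=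
  centComm G ⊓ ⨅ q : G ⧸ centComm G, cent q.out

theorem Usub_comm {u : G} (hu : u ∈ Usub G) (g : G) : ⁅u, g⁆ ∈ Subgroup.center G := by
  obtain ⟨huK, hu2⟩ := hu
  have hu3 := Subgroup.mem_iInf.1 hu2 (g : G ⧸ centComm G)
  obtain ⟨k, hk⟩ := QuotientGroup.mk_out_eq_mul (centComm G) g
  have hg : g = (g : G ⧸ centComm G).out * (k : G)⁻¹ := by rw [hk]; group
  have hcomm : ⁅u, (k : G)⁻¹⁆ ∈ Subgroup.center G :=
    centComm_comm_le (Subgroup.commutator_mem_commutator huK (inv_mem k.2))
  have hu4 : (g : G ⧸ centComm G).out * u = u * (g : G ⧸ centComm G).out := mem_cent.1 hu3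
  have h5 : ⁅u, g⁆ = ⁅u, (k : G)⁻¹⁆ := by
    generalize (g : G ⧸ centComm G).out = o at hg hu4
    rw [hg]
    have h6 : ⁅u, o * (k : G)⁻¹⁆ = (u * o) * (k : G)⁻¹ * u⁻¹ * (k : G) * o⁻¹ := by
      rw [commutatorElement_def]; group
    have h7 : (u * o) * (k : G)⁻¹ * u⁻¹ * (k : G) * o⁻¹ = o * ⁅u, (k : G)⁻¹⁆ * o⁻¹ := by
      rw [← hu4, commutatorElement_def]; group
    rw [h6, h7, Subgroup.mem_center_iff.1 hcomm o, mul_inv_cancel_right]
  rw [h5]
  exact hcomm

theorem center_le_Usub : Subgroup.center G ≤ Usub G := by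
  intro z hz
  refine ⟨?_, ?_⟩
  · refine Subgroup.mem_centralizer_iff.2 ?_
    intro h _
    exact Subgroup.mem_center_iff.1 hz h
  · refine Subgroup.mem_iInf.2 ?_
    intro q
    refine mem_cent.2 ?_
    exact Subgroup.mem_center_iff.1 hz _

theorem index_Usub_le [Finite G] {m : ℕ} (hm : Nat.card (commutator G) ≤ m) :
    (Usub G).index ≤ m ^ m * m ^ (m ^ m) := by
  classical
  have : Fintype G := Fintype.ofFinite G
  have hm0 : 0 < m := lt_of_lt_of_le Nat.card_pos hm
  have hK : (centComm G).index ≤ m ^ m := by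
    have h1 : centComm G = ⨅ x : commutator G, cent (x : G) := by
      ext y
      rw [Subgroup.mem_centralizer_iff, Subgroup.mem_iInf]
      constructor
      · intro h x
        exact mem_cent.2 (h x x.2)
      · intro h x hx
        exact mem_cent.1 (h ⟨x, hx⟩)
    have : Fintype (commutator G) := Fintype.ofFinite _
    rw [h1]
    calc (⨅ x : commutator G, cent (x : G)).index ≤ ∏ x : commutator G, (cent (x : G)).index :=
          Subgroup.index_iInf_le _
      _ ≤ ∏ _x : commutator G, m :=
          Finset.prod_le_prod' (fun x _ => (index_cent_le (x : G)).trans hm)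
      _ = m ^ Nat.card (commutator G) := by
          rw [Finset.prod_const, Finset.card_univ, Nat.card_eq_fintype_card]
      _ ≤ m ^ m := Nat.pow_le_pow_right hm0 hm
  have : Fintype (G ⧸ centComm G) := Fintype.ofFinite _
  have h2 : (⨅ q : G ⧸ centComm G, cent q.out).index ≤ m ^ (m ^ m) := by
    calc (⨅ q : G ⧸ centComm G, cent q.out).index ≤ ∏ q : G ⧸ centComm G, (cent q.out).index :=
          Subgroup.index_iInf_le _
      _ ≤ ∏ _q : G ⧸ centComm G, m :=
          Finset.prod_le_prod' (fun q _ => (index_cent_le q.out).trans hm)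
      _ = m ^ (centComm G).index := by
          rw [Finset.prod_const, Finset.card_univ, ← Nat.card_eq_fintype_card]
          rfl
      _ ≤ m ^ (m ^ m) := Nat.pow_le_pow_right hm0 hK
  exact (Subgroup.index_inf_le).trans (Nat.mul_le_mul hK h2)

/-- the intersection of the centre and the commutator subgroup -/
abbrev Ac (G : Type*) [Group G] : Subgroup G := Subgroup.center G ⊓ commutator G

/-- commutation with `u` as a homomorphism, if all commutators `[u, h]` are central -/
def cHom (u : G) (hu : ∀ h : G, ⁅u, h⁆ ∈ Subgroup.center G) : G →* Ac G where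
  toFun h := ⟨⁅u, h⁆, hu h, mem_commutator' u h⟩
  map_one' := by
    apply Subtype.ext
    change ⁅u, 1⁆ = 1
    simp
  map_mul' h k := by
    apply Subtype.ext
    change ⁅u, h * k⁆ = ⁅u, h⁆ * ⁅u, k⁆
    have h1 := Subgroup.mem_center_iff.1 (hu k) h
    have h2 : ⁅u, h * k⁆ = u * h * u⁻¹ * ⁅u, k⁆ * h⁻¹ := by
      simp only [commutatorElement_def]; group
    have h3 : ⁅u, k⁆ * h⁻¹ = h⁻¹ * ⁅u, k⁆ := (Subgroup.mem_center_iff.1 (hu k) h⁻¹).symm
    rw [h2, mul_assoc (u * h * u⁻¹), h3, ← mul_assoc]
    simp only [commutatorElement_def]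

/-- linear characters separate the points of a finite commutative group -/
theorem exists_char_ne_one (A : Type*) [Group A] [Finite A] (hA : ∀ a b : A, a * b = b * a)
    {a : A} (ha : a ≠ 1) : ∃ lam : A →* ℂ, lam a ≠ 1 := by
  let _ : CommGroup A := { (inferInstance : Group A) with mul_comm := hA }
  obtain ⟨f, hf⟩ := CommGroup.exists_apply_ne_one_of_hasEnoughRootsOfUnity A ℂ ha
  refine ⟨(Units.coeHom ℂ).comp f, ?_⟩
  intro h
  apply hf
  exact Units.ext h

theorem char_ext (A : Type*) [Group A] [Finite A] (hA : ∀ a b : A, a * b = b * a)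
    {a b : A} (h : ∀ lam : A →* ℂ, lam a = lam b) : a = b := by
  by_contra hab
  obtain ⟨lam, hlam⟩ := exists_char_ne_one A hA (a := b⁻¹ * a) (fun h1 => hab
    (by rw [← mul_one b, ← h1, mul_inv_cancel_left]))
  apply hlam
  rw [map_mul, h lam, ← map_mul, inv_mul_cancel, map_one]

theorem card_char_le (A : Type*) [Group A] [Finite A] : Nat.card (A →* ℂ) ≤ Nat.card A := by
  classical
  have : Fintype A := Fintype.ofFinite A
  have : Fintype (A →* ℂ) := Fintype.ofFinite _
  have h := (linearIndependent_monoidHom A ℂ).fintype_card_le_finrank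
  rw [Module.finrank_fintype_fun_eq_card] at h
  rw [Nat.card_eq_fintype_card, Nat.card_eq_fintype_card]
  exact h

theorem index_center_le [Finite G] {m : ℕ} (hm : Nat.card (commutator G) ≤ m) :
    (Subgroup.center G).index ≤ m ^ m * m ^ (m ^ m) * numTriv G ^ m := by
  classical
  have hT : 0 < numTriv G := by
    unfold numTriv
    have : Nonempty {θ : G →* ℂ // ∃ g : G, ∀ h : G, g * h = h * g → θ h = 1} :=
      ⟨1, 1, fun h _ => rfl⟩
    exact Nat.card_pos
  have h1 : (Subgroup.center G).relIndex (Usub G) ≤ numTriv G ^ m := by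
    have hA : ∀ a b : Ac G, a * b = b * a := by
      intro a b
      apply Subtype.ext
      exact (Subgroup.mem_center_iff.1 a.2.1 b).symm
    let Φ : (Usub G) ⧸ (Subgroup.center G).subgroupOf (Usub G) →
        ((Ac G →* ℂ) → {θ : G →* ℂ // ∃ g : G, ∀ h : G, g * h = h * g → θ h = 1}) :=
      fun q lam => ⟨lam.comp (cHom (q.out : G) (Usub_comm q.out.2)), q.out, fun h hh => by
        change lam (cHom (q.out : G) (Usub_comm q.out.2) h) = 1
        have h2 : cHom (q.out : G) (Usub_comm q.out.2) h = 1 := by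
          apply Subtype.ext
          change ⁅(q.out : G), h⁆ = 1
          rw [commutatorElement_eq_one_iff_mul_comm]
          exact hh
        rw [h2, map_one]⟩
    have hΦ : Function.Injective Φ := by
      intro q r hqr
      rw [← QuotientGroup.out_eq' q, ← QuotientGroup.out_eq' r, QuotientGroup.eq,
        Subgroup.mem_subgroupOf, Subgroup.mem_center_iff]
      intro h
      have h2 : cHom (q.out : G) (Usub_comm q.out.2) h = cHom (r.out : G) (Usub_comm r.out.2) h := by
        apply char_ext (Ac G) hA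
        intro lam
        have h3 := congrArg Subtype.val (congrFun hqr lam)
        exact DFunLike.congr_fun h3 h
      have h4 : ⁅(q.out : G), h⁆ = ⁅(r.out : G), h⁆ := congrArg Subtype.val h2
      have h5 : (q.out : G) * h * (q.out : G)⁻¹ = (r.out : G) * h * (r.out : G)⁻¹ := by
        rw [commutatorElement_def, commutatorElement_def] at h4
        exact mul_right_cancel h4
      change h * ((q.out : G)⁻¹ * (r.out : G)) = ((q.out : G)⁻¹ * (r.out : G)) * h
      calc h * ((q.out : G)⁻¹ * (r.out : G))
          = (q.out : G)⁻¹ * ((q.out : G) * h * (q.out : G)⁻¹) * (r.out : G) := by group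
        _ = (q.out : G)⁻¹ * ((r.out : G) * h * (r.out : G)⁻¹) * (r.out : G) := by rw [h5]
        _ = ((q.out : G)⁻¹ * (r.out : G)) * h := by group
    have h6 := Nat.card_le_card_of_injective Φ hΦ
    have : Fintype (Ac G →* ℂ) := Fintype.ofFinite _
    rw [Nat.card_fun] at h6
    refine h6.trans ?_
    apply Nat.pow_le_pow_right hT
    calc Nat.card (Ac G →* ℂ) ≤ Nat.card (Ac G) := card_char_le _
      _ ≤ Nat.card (commutator G) := by
          refine Nat.card_le_card_of_injective
            (fun x : Ac G => (⟨(x : G), x.2.2⟩ : commutator G)) ?_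
          intro x y hxy
          have h7 : (x : G) = (y : G) := (Subtype.mk.injEq _ _ _ _).mp hxy
          exact Subtype.ext h7
      _ ≤ m := hm
  rw [← Subgroup.relIndex_mul_index (center_le_Usub (G := G)), mul_comm]
  exact Nat.mul_le_mul (index_Usub_le hm) h1

theorem exists_prime_of_large [Finite G] {m : ℕ} (hm : Nat.card (commutator G) ≤ m)
    (h : m ^ m * m ^ (m ^ m) * (m ! ^ 2) ^ m < (Subgroup.center G).index) :
    (Ccomm G).Nonempty := by
  classical
  have : Fintype G := Fintype.ofFinite G
  have hm0 : 0 < m := lt_of_lt_of_le Nat.card_pos hm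
  have hT : m ! ^ 2 < numTriv G := by
    by_contra hcon
    have h1 := index_center_le hm
    have h2 : numTriv G ^ m ≤ (m ! ^ 2) ^ m := Nat.pow_le_pow_left (not_lt.1 hcon) m
    have h3 := Nat.mul_le_mul_left (m ^ m * m ^ (m ^ m)) h2
    omega
  let D : ℕ := Finset.univ.gcd (fun g : G => Nat.card (cent g))
  have hD : ∀ g : G, D ∣ Nat.card (cent g) := fun g => Finset.gcd_dvd (Finset.mem_univ g)
  have hG : Nat.card G ∣ m ! * D := by
    have h1 : Nat.card G ∣ Finset.univ.gcd (fun g : G => m ! * Nat.card (cent g)) := by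
      apply Finset.dvd_gcd
      intro g _
      have h2 : (cent g).index * Nat.card (cent g) = Nat.card G := Subgroup.index_mul_card _
      rw [← h2]
      apply Nat.mul_dvd_mul_right
      apply Nat.dvd_factorial
      · exact Nat.pos_of_ne_zero Subgroup.index_ne_zero_of_finite
      · exact (index_cent_le g).trans hm
    rw [Finset.gcd_mul_left, normalize_eq] at h1
    exact h1
  have hDpos : 0 < D := Nat.pos_of_ne_zero (fun h0 => by
    have h1 := hD 1
    rw [h0, zero_dvd_iff] at h1
    exact Nat.card_pos.ne' h1)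
  have hle : Nat.card G ≤ m ! * D :=
    Nat.le_of_dvd (Nat.mul_pos (Nat.factorial_pos m) hDpos) hG
  have hcomm : 0 < Nat.card {x : G × G // x.1 * x.2 = x.2 * x.1} := by
    have : Nonempty {x : G × G // x.1 * x.2 = x.2 * x.1} := ⟨⟨(1, 1), rfl⟩⟩
    exact Nat.card_pos
  obtain ⟨p, hp, _⟩ := exists_prime_of_count D hD (by
    calc Nat.card G ^ 2 + D ^ 2 ≤ (m ! * D) ^ 2 + D ^ 2 :=
          Nat.add_le_add_right (Nat.pow_le_pow_left hle 2) _
      _ = (m ! ^ 2 + 1) * D ^ 2 := by ring
      _ ≤ numTriv G * D ^ 2 := Nat.mul_le_mul_right _ hT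
      _ < _ := Nat.lt_add_of_pos_right hcomm)
  exact ⟨p, hp⟩

end Pool.Agent.MP_5fbfc2_al.CC
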