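import Pool.Agent.Lib.MP_5fbfc2_al.CC.ClassSizes

/-!
# The general criterion for a subgroup `K` and a linear character of `K` (MP_5fbfc2_al)
-/

namespace Pool.Agent.MP_5fbfc2_al.CC

open Module Pool.Agent.MP_5fbfc2_al
open scoped commutatorElement

variable {G : Type*} [Group G]

/-- If `D` divides `|C_K(v)|` for all `v ∈ G` with `C_K(v) ≤ N` and `D ^ 2` does not divide the
number of commuting pairs `(v, k) ∈ K × K` with `C_K(v) ≤ N`, then the conductor of `G` contains a
prime divisor of `|K|`. -/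
theorem exists_prime_of_pairs [Finite G] (K : Subgroup G) (N : Subgroup K) [N.Normal]
    (hcyc : IsCyclic (K ⧸ N)) (D : ℕ) (hD : ∀ v : G, centIn K v ≤ N → D ∣ Nat.card (centIn K v))
    (hS : ¬ D ^ 2 ∣ Nat.card {x : K × K // x.1 * x.2 = x.2 * x.1 ∧ centIn K (x.1 : G) ≤ N}) :
    ∃ p ∈ Ccomm G, p ∣ Nat.card K := by
  classical
  have : Fintype G := Fintype.ofFinite G
  obtain ⟨lam, hlam⟩ := exists_injective_char (K ⧸ N)
  let θ : K →* ℂ := lam.comp (QuotientGroup.mk' N)
  have hθ : ∀ h : K, θ h = 1 ↔ h ∈ N := by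
    intro h
    change lam (QuotientGroup.mk' N h) = 1 ↔ h ∈ N
    constructor
    · intro hh
      have h1 : QuotientGroup.mk' N h = 1 := hlam (by rw [hh, map_one])
      rwa [QuotientGroup.mk'_apply, QuotientGroup.eq_one_iff] at h1
    · intro hh
      have h1 : QuotientGroup.mk' N h = 1 := by
        rwa [QuotientGroup.mk'_apply, QuotientGroup.eq_one_iff]
      rw [h1, map_one]
  have htriv : ∀ v : G, (∀ k ∈ centIn K v, θ k = 1) ↔ centIn K v ≤ N := by
    intro v
    constructor
    · intro hv h hh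
      exact (hθ h).1 (hv h hh)
    · intro hv h hh
      exact (hθ h).2 (hv hh)
  have hsum : ∑ v : K, wtIn K θ (v : G) =
      Nat.card {x : K × K // x.1 * x.2 = x.2 * x.1 ∧ centIn K (x.1 : G) ≤ N} := by
    have h1 : ∀ v : K, wtIn K θ (v : G) =
        Nat.card {k : K // v * k = k * v ∧ centIn K (v : G) ≤ N} := by
      intro v
      unfold wtIn
      by_cases hv : centIn K (v : G) ≤ N
      · rw [if_pos ((htriv v).2 hv)]
        apply Nat.card_congr
        refine Equiv.subtypeEquivRight (fun k => ?_)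
        rw [mem_centIn]
        constructor
        · intro h; exact ⟨Subtype.ext h, hv⟩
        · intro h; exact congrArg Subtype.val h.1
      · rw [if_neg (fun h => hv ((htriv v).1 h))]
        symm
        rw [Nat.card_eq_zero]
        left
        exact ⟨fun k => hv k.2.2⟩
    rw [Finset.sum_congr rfl (fun v _ => h1 v)]
    have h2 : Nat.card {x : K × K // x.1 * x.2 = x.2 * x.1 ∧ centIn K (x.1 : G) ≤ N} =
        Nat.card (Σ v : K, {k : K // v * k = k * v ∧ centIn K (v : G) ≤ N}) :=
      Nat.card_congr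
        { toFun := fun p => ⟨p.1.1, p.1.2, p.2⟩
          invFun := fun q => ⟨(q.1, q.2.1), q.2.2⟩
          left_inv := fun _ => rfl
          right_inv := fun _ => rfl }
    rw [h2, Nat.card_sigma]
  by_contra hcon
  push Not at hcon
  apply hS
  by_cases hex : ∃ v : G, centIn K v ≤ N
  swap
  · have h0 : Nat.card {x : K × K // x.1 * x.2 = x.2 * x.1 ∧ centIn K (x.1 : G) ≤ N} = 0 := by
      rw [Nat.card_eq_zero]
      left
      exact ⟨fun x => hex ⟨_, x.2.2⟩⟩
    rw [h0]
    exact dvd_zero _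
  obtain ⟨v0, hv0⟩ := hex
  have hDK : D ∣ Nat.card K := (hD v0 hv0).trans (Subgroup.card_subgroup_dvd_card _)
  have hD0 : D ≠ 0 := by
    rintro rfl
    rw [zero_dvd_iff] at hDK
    exact Nat.card_pos.ne' hDK
  rw [← hsum, Nat.dvd_iff_prime_pow_dvd_dvd]
  intro p k hp hk
  by_cases hpD : p ∣ D
  · have hpC : p ∉ Ccomm G := fun h => hcon p h (hpD.trans hDK)
    have h1 := pow_dvd_sum_wtIn hp hpC K θ (D.factorization p) (fun g hg =>
      (Nat.ordProj_dvd D p).trans (hD g ((htriv g).1 hg)))
    refine (pow_dvd_pow p ?_).trans h1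
    have h2 := (Nat.Prime.pow_dvd_iff_le_factorization hp (pow_ne_zero 2 hD0)).1 hk
    rwa [Nat.factorization_pow, Finsupp.smul_apply, smul_eq_mul] at h2
  · rcases Nat.eq_zero_or_pos k with h0 | h0
    · rw [h0, pow_zero]; exact one_dvd _
    · exact absurd (hp.dvd_of_dvd_pow ((dvd_pow_self p h0.ne').trans hk)) hpD

end Pool.Agent.MP_5fbfc2_al.CC
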