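import Pool.Agent.Lib.MP_5fbfc2_al.CC.Cyclic

/-!
# Linear characters of subgroups: minimal relative centralisers (MP_5fbfc2_al)
-/

namespace Pool.Agent.MP_5fbfc2_al.CC

open Module Pool.Agent.MP_5fbfc2_al
open scoped commutatorElement

variable {G : Type*} [Group G]

/-- The statement of `exists_integral_sum` for an arbitrary integral function `η`. -/
theorem exists_integral_sum_fun [Fintype G] {p : ℕ} (hp : p.Prime) (hC : p ∉ Ccomm G) (e : ℕ)
    (η : G → ℂ) (hη : ∀ x, IsIntegral ℤ (η x)) (w : G → ℕ)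
    (hw : ∀ g : G, ∑ x, ((commRow g x : ℤ) : ℂ) * η x = (p : ℂ) ^ e * (w g : ℂ))
    (k : ℕ) (hk : k ≤ e) :
    ∀ W : G → ℤ, (fun x => (W x : ℚ)) ∈
      Submodule.span ℚ (Set.range fun (g : G) (x : G) => ((commRow g x : ℤ) : ℚ)) →
      ∃ t : ℂ, IsIntegral ℤ t ∧ ∑ x, (W x : ℂ) * η x = (p : ℂ) ^ k * t := by
  classical
  have : Fact p.Prime := ⟨hp⟩
  have hr : finrank ℚ (Submodule.span ℚ
        (Set.range fun (g : G) (x : G) => ((commRow g x : ℤ) : ℚ))) ≤
      finrank (ZMod p) (Submodule.span (ZMod p)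
        (Set.range fun (g : G) (x : G) => ((commRow g x : ℤ) : ZMod p))) := by
    have h1 : latticeRank ℚ G ≤ latticeRank (ZMod p) G := by
      by_contra hcon
      exact hC ⟨hp, not_le.1 hcon⟩
    have h3 := finrank_rowSpan (G := G) ℚ
    have h4 := finrank_rowSpan (G := G) (ZMod p)
    unfold rowSpan at h3 h4
    rw [range_rows] at h3 h4
    omega
  induction k with
  | zero =>
    intro W _
    refine ⟨∑ x, (W x : ℂ) * η x, ?_, by simp⟩
    exact IsIntegral.sum _ (fun x _ => (isIntegral_algebraMap (x := W x)).mul (hη x))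
  | succ k ih =>
    intro W hW
    have hmem := IC.span_mod (p := p) (fun (g : G) (x : G) => commRow g x) W hr hW
    obtain ⟨c, hc⟩ := (Submodule.mem_span_range_iff_exists_fun (ZMod p)).1 hmem
    choose a ha using fun g : G => ZMod.intCast_surjective (c g)
    have hdiv : ∀ x : G, (p : ℤ) ∣ W x - ∑ g, a g * commRow g x := by
      intro x
      rw [← ZMod.intCast_zmod_eq_zero_iff_dvd]
      have h1 := congrFun hc x
      simp only [Finset.sum_apply, Pi.smul_apply, smul_eq_mul] at h1
      push_cast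
      rw [← h1, sub_eq_zero]
      refine Finset.sum_congr rfl (fun g _ => ?_)
      rw [ha g]
    choose z hz using hdiv
    have hzmem : (fun x => (z x : ℚ)) ∈
        Submodule.span ℚ (Set.range fun (g : G) (x : G) => ((commRow g x : ℤ) : ℚ)) := by
      have hp0 : (p : ℚ) ≠ 0 := by exact_mod_cast hp.ne_zero
      have h1 : (fun x => (z x : ℚ)) = (p : ℚ)⁻¹ • ((fun x => (W x : ℚ)) -
          ∑ g, (a g : ℚ) • (fun x => ((commRow g x : ℤ) : ℚ))) := by
        funext x
        have h2 : (W x : ℚ) - ∑ g, (a g : ℚ) * ((commRow g x : ℤ) : ℚ) = p * z x := by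
          exact_mod_cast hz x
        simp only [Pi.smul_apply, Pi.sub_apply, Finset.sum_apply, smul_eq_mul]
        rw [h2]
        field_simp
      rw [h1]
      refine Submodule.smul_mem _ _ (Submodule.sub_mem _ hW (Submodule.sum_mem _ (fun g _ => ?_)))
      exact Submodule.smul_mem _ _ (Submodule.subset_span ⟨g, rfl⟩)
    obtain ⟨t, ht, htz⟩ := ih (by omega) z hzmem
    obtain ⟨j, hj⟩ := Nat.exists_eq_add_of_le hk
    refine ⟨∑ g, (a g : ℂ) * ((p : ℂ) ^ j * (w g : ℂ)) + t, ?_, ?_⟩
    · refine IsIntegral.add (IsIntegral.sum _ (fun g _ => ?_)) ht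
      have h1 : (a g : ℂ) * ((p : ℂ) ^ j * (w g : ℂ)) =
          algebraMap ℤ ℂ (a g * ((p : ℤ) ^ j * (w g : ℤ))) := by
        simp
      rw [h1]
      exact isIntegral_algebraMap
    · have h1 : ∀ x, (W x : ℂ) * η x =
          ∑ g, (a g : ℂ) * (((commRow g x : ℤ) : ℂ) * η x) + p * ((z x : ℂ) * η x) := by
        intro x
        have h2 : (W x : ℂ) = ∑ g, (a g : ℂ) * ((commRow g x : ℤ) : ℂ) + p * (z x : ℂ) := by
          have h3 : (W x : ℤ) = ∑ g, a g * commRow g x + p * z x := by
            have := hz x; linarith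
          exact_mod_cast h3
        rw [h2, add_mul, Finset.sum_mul]
        congr 1
        · exact Finset.sum_congr rfl (fun g _ => by ring)
        · ring
      rw [Finset.sum_congr rfl (fun x _ => h1 x), Finset.sum_add_distrib, ← Finset.mul_sum,
        Finset.sum_comm, htz]
      have h4 : ∀ g : G, ∑ x, (a g : ℂ) * (((commRow g x : ℤ) : ℂ) * η x) =
          (p : ℂ) ^ (k + 1) * ((a g : ℂ) * ((p : ℂ) ^ j * (w g : ℂ))) := by
        intro g
        rw [← Finset.mul_sum, hw g, hj]
        push_cast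
        ring
      rw [Finset.sum_congr rfl (fun g _ => h4 g), ← Finset.mul_sum]
      ring

theorem mem_span_of_sum [Fintype G] {p : ℕ} (hp : p.Prime) (e : ℕ) (η : G → ℂ) (w : G → ℕ)
    (hw : ∀ g : G, ∑ x, ((commRow g x : ℤ) : ℂ) * η x = (p : ℂ) ^ e * (w g : ℂ)) :
    (fun x => (((w x : ℕ) : ℤ) : ℚ)) ∈
      Submodule.span ℚ (Set.range fun (g : G) (x : G) => ((commRow g x : ℤ) : ℚ)) := by
  apply mem_span_of_orth
  intro k hk
  have hp0 : ((p : ℂ) ^ e) ≠ 0 := pow_ne_zero _ (by exact_mod_cast hp.ne_zero)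
  have h1 : (p : ℂ) ^ e * ((∑ x, k x * (((w x : ℕ) : ℤ) : ℚ) : ℚ) : ℂ) = 0 := by
    push_cast
    rw [Finset.mul_sum]
    have h2 : ∀ x : G, (p : ℂ) ^ e * ((k x : ℂ) * (w x : ℂ)) =
        ∑ h, η h * ((k x : ℂ) * ((commRow h x : ℤ) : ℂ)) := by
      intro x
      have h3 : (p : ℂ) ^ e * ((k x : ℂ) * (w x : ℂ)) =
          (k x : ℂ) * ∑ h, ((commRow x h : ℤ) : ℂ) * η h := by rw [hw x]; ring
      rw [h3, Finset.mul_sum]
      refine Finset.sum_congr rfl (fun h _ => ?_)
      rw [commRow_comm x h]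
      ring
    rw [Finset.sum_congr rfl (fun x _ => h2 x), Finset.sum_comm]
    apply Finset.sum_eq_zero
    intro h _
    rw [← Finset.mul_sum]
    have h3 : (((∑ x, k x * ((commRow h x : ℤ) : ℚ) : ℚ)) : ℂ) = 0 := by rw [hk h]; simp
    push_cast at h3
    rw [h3, mul_zero]
  have h5 := (mul_eq_zero.1 h1).resolve_left hp0
  exact_mod_cast h5

/-- the centraliser of `g` in the subgroup `K`, as a subgroup of `K` -/
abbrev centIn (K : Subgroup G) (g : G) : Subgroup K := (cent g).subgroupOf K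

theorem mem_centIn {K : Subgroup G} {g : G} {k : K} : k ∈ centIn K g ↔ g * k = k * g := by
  rw [Subgroup.mem_subgroupOf, mem_cent]

open Classical in
/-- the function `u ↦ |C_K(u)|` if `θ` is trivial on `C_K(u)`, and `0` otherwise -/
noncomputable def wtIn (K : Subgroup G) (θ : K →* ℂ) (u : G) : ℕ :=
  if ∀ k ∈ centIn K u, θ k = 1 then Nat.card (centIn K u) else 0

open Classical in
/-- extension by zero -/
noncomputable def extZero (K : Subgroup G) (θ : K →* ℂ) (x : G) : ℂ :=
  if h : x ∈ K then θ ⟨x, h⟩ else 0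

theorem sum_extZero [Fintype G] (K : Subgroup G) (θ : K →* ℂ) (u : G) :
    ∑ h, ((commRow u h : ℤ) : ℂ) * extZero K θ h = (wtIn K θ u : ℂ) := by
  classical
  have h1 : ∑ h, ((commRow u h : ℤ) : ℂ) * extZero K θ h =
      ∑ h : K, ((commRow u (h : G) : ℤ) : ℂ) * θ h := by
    have h2 : ∀ h : G, ((commRow u h : ℤ) : ℂ) * extZero K θ h =
        if h ∈ K then ((commRow u h : ℤ) : ℂ) * extZero K θ h else 0 := by
      intro h
      by_cases hh : h ∈ K
      · rw [if_pos hh]
      · rw [if_neg hh]; unfold extZero; rw [dif_neg hh, mul_zero]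
    rw [Finset.sum_congr rfl (fun h _ => h2 h), ← Finset.sum_filter]
    rw [Finset.sum_subtype (p := fun x => x ∈ K) (Finset.univ.filter (fun h => h ∈ K)) (by simp)]
    refine Finset.sum_congr rfl (fun h _ => ?_)
    unfold extZero
    rw [dif_pos h.2]
  have h1' : ∑ h : K, ((commRow u (h : G) : ℤ) : ℂ) * θ h = ∑ h : centIn K u, θ h := by
    have h2 : ∀ h : K, ((commRow u (h : G) : ℤ) : ℂ) * θ h =
        if h ∈ centIn K u then θ h else 0 := by
      intro h
      unfold commRow
      by_cases hh : u * (h : G) = h * u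
      · rw [if_pos hh, if_pos (mem_centIn.2 hh)]; simp
      · rw [if_neg hh, if_neg (fun h' => hh (mem_centIn.1 h'))]; simp
    rw [Finset.sum_congr rfl (fun h _ => h2 h), ← Finset.sum_filter]
    exact (Finset.sum_subtype (Finset.univ.filter (fun h => h ∈ centIn K u)) (by simp) _)
  rw [h1, h1']
  unfold wtIn
  by_cases ht : ∀ k ∈ centIn K u, θ k = 1
  · rw [if_pos ht]
    have h3 : ∀ h : centIn K u, θ (h : K) = 1 := fun h => ht h h.2
    rw [Finset.sum_congr rfl (fun h _ => h3 h)]
    simp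
  · rw [if_neg ht]
    have h3 : θ.comp (centIn K u).subtype ≠ 1 := by
      intro hcon
      apply ht
      intro h hh
      have := DFunLike.congr_fun hcon (⟨h, hh⟩ : centIn K u)
      simpa using this
    have h4 := sum_hom_units_eq_zero (θ.comp (centIn K u).subtype) h3
    simpa using h4

/-- One linear character of a subgroup. -/
theorem pow_dvd_sum_wtIn [Fintype G] {p : ℕ} (hp : p.Prime) (hC : p ∉ Ccomm G)
    (K : Subgroup G) [Fintype K] (θ : K →* ℂ) (k : ℕ)
    (hθ : ∀ g : G, (∀ x ∈ centIn K g, θ x = 1) → p ^ k ∣ Nat.card (centIn K g)) :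
    p ^ (2 * k) ∣ ∑ u : K, wtIn K θ (u : G) := by
  classical
  have hdvd : ∀ u : G, p ^ k ∣ wtIn K θ u := by
    intro u
    unfold wtIn
    split_ifs with hu
    · exact hθ u hu
    · exact dvd_zero _
  choose w hw using hdvd
  have hwc : ∀ g : G, ∑ x, ((commRow g x : ℤ) : ℂ) * extZero K θ x = (p : ℂ) ^ k * (w g : ℂ) := by
    intro g
    rw [sum_extZero, hw g]
    push_cast
    ring
  have hint : ∀ x : G, IsIntegral ℤ (extZero K θ x) := by
    intro x
    unfold extZero
    split_ifs with h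
    · exact isIntegral_theta θ _
    · exact isIntegral_zero
  obtain ⟨t, ht, hs⟩ := exists_integral_sum_fun hp hC k (extZero K θ) hint w hwc k le_rfl
    (fun x => (w x : ℤ)) (mem_span_of_sum hp k (extZero K θ) w hwc)
  have hs' : ((∑ u : K, wtIn K θ (u : G) : ℕ) : ℂ) = (p : ℂ) ^ (k + k) * t := by
    rw [pow_add, mul_assoc, ← hs, Finset.mul_sum]
    have h2 : ∀ h : G, (p : ℂ) ^ k * ((((w h : ℕ) : ℤ) : ℂ) * extZero K θ h) =
        if h ∈ K then (wtIn K θ h : ℂ) else 0 := by
      intro h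
      by_cases hh : h ∈ K
      · rw [if_pos hh]
        have h5 : (wtIn K θ h : ℂ) * extZero K θ h = (wtIn K θ h : ℂ) := by
          unfold wtIn extZero
          rw [dif_pos hh]
          split_ifs with hu
          · rw [hu ⟨h, hh⟩ (mem_centIn.2 rfl), mul_one]
          · simp
        rw [← h5, hw h]
        push_cast
        ring
      · rw [if_neg hh]; unfold extZero; rw [dif_neg hh, mul_zero, mul_zero]
    rw [Finset.sum_congr rfl (fun h _ => h2 h), ← Finset.sum_filter]
    rw [Finset.sum_subtype (p := fun x => x ∈ K) (Finset.univ.filter (fun h => h ∈ K)) (by simp)]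
    push_cast
    rfl
  have hp0 : ((p : ℂ) ^ (k + k)) ≠ 0 := pow_ne_zero _ (by exact_mod_cast hp.ne_zero)
  have h1 : t = algebraMap ℚ ℂ (((∑ u : K, wtIn K θ (u : G) : ℕ) : ℚ) / (p : ℚ) ^ (k + k)) := by
    rw [map_div₀, eq_div_iff (by simpa using hp0)]
    simp only [map_natCast, map_pow]
    rw [hs']
    ring
  rw [h1, isIntegral_algebraMap_iff (algebraMap ℚ ℂ).injective] at ht
  obtain ⟨z, hz⟩ := IsIntegrallyClosed.isIntegral_iff.1 ht
  have h2 : ((∑ u : K, wtIn K θ (u : G) : ℕ) : ℚ) = (p : ℚ) ^ (k + k) * (z : ℚ) := by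
    have hpq : ((p : ℚ) ^ (k + k)) ≠ 0 := pow_ne_zero _ (by exact_mod_cast hp.ne_zero)
    have h3 : (z : ℚ) = ((∑ u : K, wtIn K θ (u : G) : ℕ) : ℚ) / (p : ℚ) ^ (k + k) := by
      rw [← hz]; simp
    rw [h3]
    field_simp
  rw [two_mul]
  have h4 : ((p ^ (k + k) : ℕ) : ℤ) ∣ ((∑ u : K, wtIn K θ (u : G) : ℕ) : ℤ) := by
    refine ⟨z, ?_⟩
    exact_mod_cast h2
  exact_mod_cast h4

/-- A subgroup `K` and a proper normal subgroup `N = C_K(u)` of `K`, `u ∈ K`, with cyclic quotient
which properly contains no `C_K(v)`, `v ∈ G`. -/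
theorem exists_prime_of_minimal_centIn [Finite G] (K : Subgroup G) (N : Subgroup K) [N.Normal]
    (hcyc : IsCyclic (K ⧸ N)) (hne : N ≠ ⊤)
    (u : K) (hu : centIn K (u : G) = N) (hmin : ∀ v : G, centIn K v ≤ N → centIn K v = N) :
    ∃ p ∈ Ccomm G, p ∣ Nat.card N := by
  classical
  have : Fintype G := Fintype.ofFinite G
  obtain ⟨lam, hlam⟩ := exists_injective_char (K ⧸ N)
  let θ : K →* ℂ := lam.comp (QuotientGroup.mk' N)
  have hθ : ∀ h : K, θ h = 1 ↔ h ∈ N := by
    intro h
    change lam (QuotientGroup.mk' N h) = 1 ↔ h ∈ N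
    constructor
    · intro hh
      have h1 : QuotientGroup.mk' N h = 1 := hlam (by rw [hh, map_one])
      rwa [QuotientGroup.mk'_apply, QuotientGroup.eq_one_iff] at h1
    · intro hh
      have h1 : QuotientGroup.mk' N h = 1 := by
        rwa [QuotientGroup.mk'_apply, QuotientGroup.eq_one_iff]
      rw [h1, map_one]
  have htriv : ∀ v : G, (∀ k ∈ centIn K v, θ k = 1) ↔ centIn K v = N := by
    intro v
    constructor
    · intro hv
      exact hmin v (fun h hh => (hθ h).1 (hv h hh))
    · intro hv h hh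
      rw [hθ, ← hv]
      exact hh
  let Y : Finset K := Finset.univ.filter (fun v : K => centIn K (v : G) = N)
  have hsum : ∑ v : K, wtIn K θ (v : G) = Nat.card N * Y.card := by
    have h1 : ∀ v : K, wtIn K θ (v : G) = if centIn K (v : G) = N then Nat.card N else 0 := by
      intro v
      unfold wtIn
      by_cases hv : centIn K (v : G) = N
      · rw [if_pos ((htriv v).2 hv), if_pos hv, hv]
      · rw [if_neg (fun h => hv ((htriv v).1 h)), if_neg hv]
    rw [Finset.sum_congr rfl (fun v _ => h1 v), ← Finset.sum_filter, Finset.sum_const,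
      smul_eq_mul, mul_comm]
  have hpos : 0 < Y.card := Finset.card_pos.2 ⟨u, Finset.mem_filter.2 ⟨Finset.mem_univ _, hu⟩⟩
  have hlt : Y.card < Nat.card N := by
    have h1 : Nat.card N = (Finset.univ.filter (fun v : K => v ∈ N)).card := by
      rw [Nat.card_eq_fintype_card, Fintype.card_subtype]
    rw [h1]
    apply Finset.card_lt_card
    rw [Finset.ssubset_iff_of_subset]
    · refine ⟨1, Finset.mem_filter.2 ⟨Finset.mem_univ _, one_mem N⟩, ?_⟩
      intro hcon
      apply hne
      rw [← (Finset.mem_filter.1 hcon).2, eq_top_iff]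
      intro h _
      exact mem_centIn.2 (by rw [Subgroup.coe_one, one_mul, mul_one])
    · intro v hv
      refine Finset.mem_filter.2 ⟨Finset.mem_univ _, ?_⟩
      have h2 := (Finset.mem_filter.1 hv).2
      rw [← h2]
      exact mem_centIn.2 rfl
  by_contra hcon
  have hdvd : Nat.card N ∣ Y.card := by
    rw [Nat.dvd_iff_prime_pow_dvd_dvd]
    intro p k hp hk
    by_cases hpA : p ∣ Nat.card N
    · have hC : p ∉ Ccomm G := fun h => hcon ⟨p, h, hpA⟩
      have hA0 : Nat.card N ≠ 0 := Nat.card_pos.ne'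
      have h1 := pow_dvd_sum_wtIn hp hC K θ ((Nat.card N).factorization p) (fun g hg => by
        rw [(htriv g).1 hg]
        exact Nat.ordProj_dvd _ _)
      rw [hsum, two_mul, pow_add] at h1
      obtain ⟨n, hn⟩ : ∃ n, n = Nat.card N / p ^ (Nat.card N).factorization p := ⟨_, rfl⟩
      have h2 : p ^ (Nat.card N).factorization p * n = Nat.card N := by
        rw [hn]; exact Nat.ordProj_mul_ordCompl_eq_self _ _
      have h3 : Nat.Coprime (p ^ (Nat.card N).factorization p) n := by
        rw [hn]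
        exact Nat.Coprime.pow_left _ (Nat.coprime_ordCompl hp hA0)
      have h4 : p ^ (Nat.card N).factorization p * p ^ (Nat.card N).factorization p ∣
          p ^ (Nat.card N).factorization p * (n * Y.card) := by
        rw [← mul_assoc, h2]
        exact h1
      have h5 : p ^ (Nat.card N).factorization p ∣ n * Y.card :=
        Nat.dvd_of_mul_dvd_mul_left (pow_pos hp.pos _) h4
      have h6 : p ^ (Nat.card N).factorization p ∣ Y.card := h3.dvd_of_dvd_mul_left h5
      exact (pow_dvd_pow p ((Nat.Prime.pow_dvd_iff_le_factorization hp hA0).1 hk)).trans h6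
    · rcases Nat.eq_zero_or_pos k with h0 | h0
      · rw [h0, pow_zero]; exact one_dvd _
      · exact absurd ((dvd_pow_self p h0.ne').trans hk) hpA
  exact absurd (Nat.le_of_dvd hpos hdvd) (not_le.2 hlt)

end Pool.Agent.MP_5fbfc2_al.CC
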