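import Pool.Agent.Lib.MP_5fbfc2_al.CC.Chars

/-!
# Pairing the weight functions of two linear characters (MP_5fbfc2_al)
-/

namespace Pool.Agent.MP_5fbfc2_al.CC

open Module Pool.Agent.MP_5fbfc2_al

variable {G : Type*} [Group G]

theorem isIntegral_theta [Finite G] (θ : G →* ℂ) (x : G) : IsIntegral ℤ (θ x) := by
  have h1 : θ x ^ orderOf x = 1 := by rw [← map_pow, pow_orderOf_eq_one, map_one]
  exact IsIntegral.of_pow (orderOf_pos x) (by rw [h1]; exact isIntegral_one)

/-- If `p` is not in the conductor and `p ^ e` divides all values of `u ↦ ∑_{h ∈ C(u)} η(h)`, then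
`∑ W(x) η(x)` is `p ^ e` times an algebraic integer for every integral function `W` in the
rational row space. -/
theorem exists_integral_sum [Fintype G] {p : ℕ} (hp : p.Prime) (hC : p ∉ Ccomm G) (e : ℕ)
    (η : G →* ℂ) (w : G → ℕ) (hw : ∀ g : G, wt η g = p ^ e * w g) (k : ℕ) (hk : k ≤ e) :
    ∀ W : G → ℤ, (fun x => (W x : ℚ)) ∈
      Submodule.span ℚ (Set.range fun (g : G) (x : G) => ((commRow g x : ℤ) : ℚ)) →
      ∃ t : ℂ, IsIntegral ℤ t ∧ ∑ x, (W x : ℂ) * η x = (p : ℂ) ^ k * t := by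
  classical
  have : Fact p.Prime := ⟨hp⟩
  have hr : finrank ℚ (Submodule.span ℚ
        (Set.range fun (g : G) (x : G) => ((commRow g x : ℤ) : ℚ))) ≤
      finrank (ZMod p) (Submodule.span (ZMod p)
        (Set.range fun (g : G) (x : G) => ((commRow g x : ℤ) : ZMod p))) := by
    have h1 : latticeRank ℚ G ≤ latticeRank (ZMod p) G := by
      by_contra hcon
      exact hC ⟨hp, not_le.1 hcon⟩
    have h3 := finrank_rowSpan (G := G) ℚ
    have h4 := finrank_rowSpan (G := G) (ZMod p)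
    unfold rowSpan at h3 h4
    rw [range_rows] at h3 h4
    omega
  induction k with
  | zero =>
    intro W _
    refine ⟨∑ x, (W x : ℂ) * η x, ?_, by simp⟩
    exact IsIntegral.sum _ (fun x _ => (isIntegral_algebraMap (x := W x)).mul
      (isIntegral_theta η x))
  | succ k ih =>
    intro W hW
    have hmem := IC.span_mod (p := p) (fun (g : G) (x : G) => commRow g x) W hr hW
    obtain ⟨c, hc⟩ := (Submodule.mem_span_range_iff_exists_fun (ZMod p)).1 hmem
    choose a ha using fun g : G => ZMod.intCast_surjective (c g)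
    have hdiv : ∀ x : G, (p : ℤ) ∣ W x - ∑ g, a g * commRow g x := by
      intro x
      rw [← ZMod.intCast_zmod_eq_zero_iff_dvd]
      have h1 := congrFun hc x
      simp only [Finset.sum_apply, Pi.smul_apply, smul_eq_mul] at h1
      push_cast
      rw [← h1, sub_eq_zero]
      refine Finset.sum_congr rfl (fun g _ => ?_)
      rw [ha g]
    choose z hz using hdiv
    have hzmem : (fun x => (z x : ℚ)) ∈
        Submodule.span ℚ (Set.range fun (g : G) (x : G) => ((commRow g x : ℤ) : ℚ)) := by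
      have hp0 : (p : ℚ) ≠ 0 := by exact_mod_cast hp.ne_zero
      have h1 : (fun x => (z x : ℚ)) = (p : ℚ)⁻¹ • ((fun x => (W x : ℚ)) -
          ∑ g, (a g : ℚ) • (fun x => ((commRow g x : ℤ) : ℚ))) := by
        funext x
        have h2 : (W x : ℚ) - ∑ g, (a g : ℚ) * ((commRow g x : ℤ) : ℚ) = p * z x := by
          exact_mod_cast hz x
        simp only [Pi.smul_apply, Pi.sub_apply, Finset.sum_apply, smul_eq_mul]
        rw [h2]
        field_simp
      rw [h1]
      refine Submodule.smul_mem _ _ (Submodule.sub_mem _ hW (Submodule.sum_mem _ (fun g _ => ?_)))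
      exact Submodule.smul_mem _ _ (Submodule.subset_span ⟨g, rfl⟩)
    obtain ⟨t, ht, htz⟩ := ih (by omega) z hzmem
    obtain ⟨j, hj⟩ := Nat.exists_eq_add_of_le hk
    refine ⟨∑ g, (a g : ℂ) * ((p : ℂ) ^ j * (w g : ℂ)) + t, ?_, ?_⟩
    · refine IsIntegral.add (IsIntegral.sum _ (fun g _ => ?_)) ht
      have h1 : (a g : ℂ) * ((p : ℂ) ^ j * (w g : ℂ)) =
          algebraMap ℤ ℂ (a g * ((p : ℤ) ^ j * (w g : ℤ))) := by
        simp
      rw [h1]
      exact isIntegral_algebraMap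
    · have h1 : ∀ x, (W x : ℂ) * η x =
          ∑ g, (a g : ℂ) * (((commRow g x : ℤ) : ℂ) * η x) + p * ((z x : ℂ) * η x) := by
        intro x
        have h2 : (W x : ℂ) = ∑ g, (a g : ℂ) * ((commRow g x : ℤ) : ℂ) + p * (z x : ℂ) := by
          have h3 : (W x : ℤ) = ∑ g, a g * commRow g x + p * z x := by
            have := hz x; linarith
          exact_mod_cast h3
        rw [h2, add_mul, Finset.sum_mul]
        congr 1
        · exact Finset.sum_congr rfl (fun g _ => by ring)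
        · ring
      rw [Finset.sum_congr rfl (fun x _ => h1 x), Finset.sum_add_distrib, ← Finset.mul_sum,
        Finset.sum_comm, htz]
      have h4 : ∀ g : G, ∑ x, (a g : ℂ) * (((commRow g x : ℤ) : ℂ) * η x) =
          (p : ℂ) ^ (k + 1) * ((a g : ℂ) * ((p : ℂ) ^ j * (w g : ℂ))) := by
        intro g
        rw [← Finset.mul_sum, sum_theta, hw g, hj]
        push_cast
        ring
      rw [Finset.sum_congr rfl (fun g _ => h4 g), ← Finset.mul_sum]
      ring

theorem wt_mem_span [Fintype G] {p : ℕ} (hp : p.Prime) (e : ℕ) (θ : G →* ℂ) (w : G → ℕ)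
    (hw : ∀ g : G, wt θ g = p ^ e * w g) :
    (fun x => (((w x : ℕ) : ℤ) : ℚ)) ∈
      Submodule.span ℚ (Set.range fun (g : G) (x : G) => ((commRow g x : ℤ) : ℚ)) := by
  apply mem_span_of_orth
  intro k hk
  have h1 := wt_orth θ k hk
  have hp0 : ((p : ℚ) ^ e) ≠ 0 := pow_ne_zero _ (by exact_mod_cast hp.ne_zero)
  have h2 : ∑ x, k x * (wt θ x : ℚ) = (p : ℚ) ^ e * ∑ x, k x * (((w x : ℕ) : ℤ) : ℚ) := by
    rw [Finset.mul_sum]
    refine Finset.sum_congr rfl (fun x _ => ?_)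
    rw [hw x]
    push_cast
    ring
  rw [h2] at h1
  exact (mul_eq_zero.1 h1).resolve_left hp0

theorem dvd_wt {p e : ℕ} (θ : G →* ℂ)
    (h : ∀ g : G, Triv θ g → p ^ e ∣ Nat.card (cent g)) (u : G) : p ^ e ∣ wt θ u := by
  classical
  unfold wt
  split_ifs with hu
  · exact h u hu
  · exact dvd_zero _

/-- Two linear characters. -/
theorem exists_integral_pair [Fintype G] {p : ℕ} (hp : p.Prime) (hC : p ∉ Ccomm G)
    (θ η : G →* ℂ) (k l : ℕ) (hθ : ∀ g : G, Triv θ g → p ^ k ∣ Nat.card (cent g))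
    (hη : ∀ g : G, Triv η g → p ^ l ∣ Nat.card (cent g)) :
    ∃ t : ℂ, IsIntegral ℤ t ∧ ∑ u, (wt θ u : ℂ) * η u = (p : ℂ) ^ (k + l) * t := by
  choose w hw using dvd_wt θ hθ
  choose w' hw' using dvd_wt η hη
  obtain ⟨t, ht, hs⟩ := exists_integral_sum hp hC l η w' hw' l le_rfl (fun x => (w x : ℤ))
    (wt_mem_span hp k θ w hw)
  refine ⟨t, ht, ?_⟩
  rw [pow_add, mul_assoc, ← hs, Finset.mul_sum]
  refine Finset.sum_congr rfl (fun u _ => ?_)
  rw [hw u]
  push_cast
  ring

theorem wt_mul_self (θ : G →* ℂ) (u : G) : (wt θ u : ℂ) * θ u = (wt θ u : ℂ) := by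
  classical
  unfold wt
  split_ifs with hu
  · rw [hu u rfl, mul_one]
  · simp

/-- One linear character: `p ^ (2 k)` divides the weighted number of elements whose centraliser
is in the kernel. -/
theorem pow_dvd_sum_wt_local [Fintype G] {p : ℕ} (hp : p.Prime) (hC : p ∉ Ccomm G)
    (θ : G →* ℂ) (k : ℕ) (hθ : ∀ g : G, Triv θ g → p ^ k ∣ Nat.card (cent g)) :
    p ^ (2 * k) ∣ ∑ u, wt θ u := by
  obtain ⟨t, ht, hs⟩ := exists_integral_pair hp hC θ θ k k hθ hθ
  rw [Finset.sum_congr rfl (fun u _ => wt_mul_self θ u)] at hs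
  have hp0 : ((p : ℂ) ^ (k + k)) ≠ 0 := pow_ne_zero _ (by exact_mod_cast hp.ne_zero)
  have h1 : t = algebraMap ℚ ℂ ((∑ u, (wt θ u : ℚ)) / (p : ℚ) ^ (k + k)) := by
    rw [map_div₀, eq_div_iff (by simpa using hp0)]
    simp only [map_sum, map_natCast, map_pow]
    rw [hs]
    ring
  rw [h1, isIntegral_algebraMap_iff (algebraMap ℚ ℂ).injective] at ht
  obtain ⟨z, hz⟩ := IsIntegrallyClosed.isIntegral_iff.1 ht
  have h2 : (∑ u, (wt θ u : ℚ)) = (p : ℚ) ^ (k + k) * (z : ℚ) := by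
    have hpq : ((p : ℚ) ^ (k + k)) ≠ 0 := pow_ne_zero _ (by exact_mod_cast hp.ne_zero)
    have h3 : (z : ℚ) = (∑ u, (wt θ u : ℚ)) / (p : ℚ) ^ (k + k) := by
      rw [← hz]; simp
    rw [h3]
    field_simp
  rw [two_mul]
  have h4 : ((p ^ (k + k) : ℕ) : ℤ) ∣ ((∑ u, wt θ u : ℕ) : ℤ) := by
    refine ⟨z, ?_⟩
    exact_mod_cast h2
  exact_mod_cast h4

end Pool.Agent.MP_5fbfc2_al.CC
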