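import Pool.Agent.Lib.MP_5fbfc2_al.CC.Bfc
import Pool.Agent.Lib.MP_5fbfc2_al.CC.Pairs

/-!
# Counting linear characters: the statements for all finite groups (MP_5fbfc2_al)
-/

namespace Pool.Agent.MP_5fbfc2_al.CC

open Module Pool.Agent.MP_5fbfc2_al
open scoped commutatorElement

variable {G : Type*} [Group G]

/-- The counting criterion for a finite group all of whose class sizes divide `L`. -/
theorem exists_prime_of_lcm [Finite G] (L : ℕ) (hL : L ≠ 0)
    (hdvd : ∀ g : G, (Subgroup.centralizer ({g} : Set G)).index ∣ L)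
    (h : L ^ 2 + 1 < numTriv G + L) : ∃ p ∈ Ccomm G, p ∣ Nat.card G := by
  classical
  have : Fintype G := Fintype.ofFinite G
  let D : ℕ := Finset.univ.gcd (fun g : G => Nat.card (cent g))
  have hD : ∀ g : G, D ∣ Nat.card (cent g) := fun g => Finset.gcd_dvd (Finset.mem_univ g)
  have hDG : D ∣ Nat.card G := (hD 1).trans (Subgroup.card_subgroup_dvd_card _)
  have hG : Nat.card G ∣ L * D := by
    have h1 : Nat.card G ∣ Finset.univ.gcd (fun g : G => L * Nat.card (cent g)) := by
      apply Finset.dvd_gcd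
      intro g _
      have h2 : (cent g).index * Nat.card (cent g) = Nat.card G := Subgroup.index_mul_card _
      rw [← h2]
      exact Nat.mul_dvd_mul_right (hdvd g) _
    rw [Finset.gcd_mul_left, normalize_eq] at h1
    exact h1
  have hDpos : 0 < D := Nat.pos_of_dvd_of_pos hDG Nat.card_pos
  obtain ⟨M, hM⟩ := hDG
  have hML : M ≤ L := by
    rw [hM, mul_comm L D] at hG
    exact Nat.le_of_dvd (Nat.pos_of_ne_zero hL) (Nat.dvd_of_mul_dvd_mul_left hDpos hG)
  have hM0 : 0 < M := by
    rcases Nat.eq_zero_or_pos M with h0 | h0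
    · rw [h0, mul_zero] at hM
      exact absurd hM Nat.card_pos.ne'
    · exact h0
  have hcomm : M * D ^ 2 ≤ Nat.card {x : G × G // x.1 * x.2 = x.2 * x.1} := by
    rw [card_comm]
    calc M * D ^ 2 = Nat.card G * D := by rw [hM]; ring
      _ = ∑ _u : G, D := by
          rw [Finset.sum_const, Finset.card_univ, smul_eq_mul, ← Nat.card_eq_fintype_card]
      _ ≤ ∑ u : G, Nat.card (cent u) :=
          Finset.sum_le_sum (fun u _ => Nat.le_of_dvd Nat.card_pos (hD u))
  have h1 : M ^ 2 + 1 < numTriv G + M := by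
    obtain ⟨d, hd⟩ := Nat.exists_eq_add_of_le hML
    rw [hd] at h
    nlinarith
  obtain ⟨p, hp, hpD⟩ := exists_prime_of_count D hD (by
    calc Nat.card G ^ 2 + D ^ 2 = (M ^ 2 + 1) * D ^ 2 := by rw [hM]; ring
      _ < (numTriv G + M) * D ^ 2 := Nat.mul_lt_mul_of_pos_right h1 (pow_pos hDpos 2)
      _ = numTriv G * D ^ 2 + M * D ^ 2 := by ring
      _ ≤ _ := Nat.add_le_add_left hcomm _)
  refine ⟨p, hp, hpD.trans ?_⟩
  rw [hM]
  exact dvd_mul_right _ _

theorem comm_mem_center {u : G} (hu : u ∈ Subgroup.upperCentralSeries G 2) (h : G) :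
    ⁅u, h⁆ ∈ Subgroup.center G := by
  have h1 := Subgroup.mem_upperCentralSeries_succ_iff.1 hu h
  rw [Subgroup.upperCentralSeries_one] at h1
  exact h1

/-- commutation with an element of the second centre, as a homomorphism into the centre -/
def zHom (u : Subgroup.upperCentralSeries G 2) : G →* Subgroup.center G where
  toFun h := ⟨⁅(u : G), h⁆, comm_mem_center u.2 h⟩
  map_one' := by
    apply Subtype.ext
    change ⁅(u : G), 1⁆ = 1
    simp
  map_mul' h k := by
    apply Subtype.ext
    change ⁅(u : G), h * k⁆ = ⁅(u : G), h⁆ * ⁅(u : G), k⁆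
    have h1 := Subgroup.mem_center_iff.1 (comm_mem_center u.2 k) h
    have h2 : ⁅(u : G), h * k⁆ = u * h * (u : G)⁻¹ * ⁅(u : G), k⁆ * h⁻¹ := by
      simp only [commutatorElement_def]; group
    have h3 : ⁅(u : G), k⁆ * h⁻¹ = h⁻¹ * ⁅(u : G), k⁆ :=
      (Subgroup.mem_center_iff.1 (comm_mem_center u.2 k) h⁻¹).symm
    rw [h2, mul_assoc ((u : G) * h * (u : G)⁻¹), h3, ← mul_assoc]
    simp only [commutatorElement_def]

/-- for a linear character `λ` of the centre, the homomorphism which sends `u ∈ Z₂(G)` to the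
linear character `h ↦ λ([u, h])` of `G` -/
def secPairing (lam : Subgroup.center G →* ℂ) :
    Subgroup.upperCentralSeries G 2 →* (G →* ℂ) where
  toFun u := lam.comp (zHom u)
  map_one' := by
    ext h
    change lam (zHom 1 h) = 1
    have h1 : zHom (1 : Subgroup.upperCentralSeries G 2) h = 1 := by
      apply Subtype.ext
      change ⁅(1 : G), h⁆ = 1
      simp
    rw [h1, map_one]
  map_mul' u v := by
    ext h
    change lam (zHom (u * v) h) = lam (zHom u h) * lam (zHom v h)
    rw [← map_mul]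
    congr 1
    apply Subtype.ext
    change ⁅(u : G) * (v : G), h⁆ = ⁅(u : G), h⁆ * ⁅(v : G), h⁆
    have h2 : ⁅(u : G) * (v : G), h⁆ = u * ⁅(v : G), h⁆ * h * (u : G)⁻¹ * h⁻¹ := by
      simp only [commutatorElement_def]; group
    have h3 : (u : G) * ⁅(v : G), h⁆ = ⁅(v : G), h⁆ * u :=
      Subgroup.mem_center_iff.1 (comm_mem_center v.2 h) u
    have h4 : ⁅(u : G), h⁆ * ⁅(v : G), h⁆ = ⁅(v : G), h⁆ * ⁅(u : G), h⁆ :=
      Subgroup.mem_center_iff.1 (comm_mem_center v.2 h) _
    rw [h2, h3, h4]
    simp only [commutatorElement_def, mul_assoc]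

theorem secPairing_apply (lam : Subgroup.center G →* ℂ) (u : Subgroup.upperCentralSeries G 2)
    (h : G) : secPairing lam u h = lam ⟨⁅(u : G), h⁆, comm_mem_center u.2 h⟩ := rfl

theorem index_secPairing_le [Finite G] (lam : Subgroup.center G →* ℂ) :
    (secPairing lam).ker.index ≤ numTriv G := by
  unfold Subgroup.index numTriv
  refine Nat.card_le_card_of_injective
    (fun q : Subgroup.upperCentralSeries G 2 ⧸ (secPairing lam).ker =>
      (⟨secPairing lam q.out, q.out, fun h hh => ?_⟩ :
      {θ : G →* ℂ // ∃ g : G, ∀ h : G, g * h = h * g → θ h = 1})) ?_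
  · rw [secPairing_apply]
    have h1 : (⟨⁅((q.out : Subgroup.upperCentralSeries G 2) : G), h⁆,
        comm_mem_center q.out.2 h⟩ : Subgroup.center G) = 1 := by
      apply Subtype.ext
      change ⁅((q.out : Subgroup.upperCentralSeries G 2) : G), h⁆ = 1
      rw [commutatorElement_eq_one_iff_mul_comm]
      exact hh
    rw [h1, map_one]
  · intro q r hqr
    have h1 : secPairing lam q.out = secPairing lam r.out := congrArg Subtype.val hqr
    rw [← QuotientGroup.out_eq' q, ← QuotientGroup.out_eq' r, QuotientGroup.eq,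
      MonoidHom.mem_ker, map_mul, ← h1, ← map_mul, inv_mul_cancel, map_one]

/-- The criterion with one linear character of the centre. -/
theorem exists_prime_of_secPairing [Finite G] (lam : Subgroup.center G →* ℂ) (L : ℕ)
    (hL : L ≠ 0) (hdvd : ∀ g : G, (Subgroup.centralizer ({g} : Set G)).index ∣ L)
    (h : L ^ 2 + 1 < (secPairing lam).ker.index + L) : ∃ p ∈ Ccomm G, p ∣ Nat.card G :=
  exists_prime_of_lcm L hL hdvd (lt_of_lt_of_le h
    (Nat.add_le_add_right (index_secPairing_le lam) L))

end Pool.Agent.MP_5fbfc2_al.CC
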