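import Pool.Agent.Lib.MP_5fbfc2_al.CC.Cyclic

/-!
# A normal minimal centraliser with cyclic quotient (MP_5fbfc2_al)
-/

namespace Pool.Agent.MP_5fbfc2_al.CC

open Module Pool.Agent.MP_5fbfc2_al
open scoped commutatorElement

variable {G : Type*} [Group G]

/-- A proper normal centraliser `A = C(u)` with cyclic quotient which contains no other
centraliser. -/
theorem exists_prime_of_minimal_cent [Finite G] (A : Subgroup G) [A.Normal]
    (hcyc : IsCyclic (G ⧸ A)) (hne : A ≠ ⊤)
    (u : G) (hu : cent u = A) (hmin : ∀ v : G, cent v ≤ A → cent v = A) :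
    ∃ p ∈ Ccomm G, p ∣ Nat.card A := by
  classical
  have : Fintype G := Fintype.ofFinite G
  obtain ⟨lam, hlam⟩ := exists_injective_char (G ⧸ A)
  let θ : G →* ℂ := lam.comp (QuotientGroup.mk' A)
  have hθ : ∀ h : G, θ h = 1 ↔ h ∈ A := by
    intro h
    change lam (QuotientGroup.mk' A h) = 1 ↔ h ∈ A
    constructor
    · intro hh
      have h1 : QuotientGroup.mk' A h = 1 := hlam (by rw [hh, map_one])
      rwa [QuotientGroup.mk'_apply, QuotientGroup.eq_one_iff] at h1
    · intro hh
      have h1 : QuotientGroup.mk' A h = 1 := by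
        rwa [QuotientGroup.mk'_apply, QuotientGroup.eq_one_iff]
      rw [h1, map_one]
  have htriv : ∀ v : G, Triv θ v ↔ cent v = A := by
    intro v
    constructor
    · intro hv
      exact hmin v (fun h hh => (hθ h).1 (hv h (mem_cent.1 hh)))
    · intro hv h hh
      rw [hθ, ← hv]
      exact mem_cent.2 hh
  let Y : Finset G := Finset.univ.filter (fun v : G => cent v = A)
  have hsum : ∑ v, wt θ v = Nat.card A * Y.card := by
    have h1 : ∀ v : G, wt θ v = if cent v = A then Nat.card A else 0 := by
      intro v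
      unfold wt
      by_cases hv : cent v = A
      · rw [if_pos ((htriv v).2 hv), if_pos hv, hv]
      · rw [if_neg (fun h => hv ((htriv v).1 h)), if_neg hv]
    rw [Finset.sum_congr rfl (fun v _ => h1 v), ← Finset.sum_filter, Finset.sum_const,
      smul_eq_mul, mul_comm]
  have hpos : 0 < Y.card := Finset.card_pos.2 ⟨u, Finset.mem_filter.2 ⟨Finset.mem_univ _, hu⟩⟩
  have hlt : Y.card < Nat.card A := by
    have h1 : Nat.card A = (Finset.univ.filter (fun v : G => v ∈ A)).card := by
      rw [Nat.card_eq_fintype_card, Fintype.card_subtype]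
    rw [h1]
    apply Finset.card_lt_card
    rw [Finset.ssubset_iff_of_subset]
    · refine ⟨1, Finset.mem_filter.2 ⟨Finset.mem_univ _, one_mem A⟩, ?_⟩
      intro hcon
      apply hne
      rw [← (Finset.mem_filter.1 hcon).2, eq_top_iff]
      intro h _
      exact mem_cent.2 (by rw [one_mul, mul_one])
    · intro v hv
      refine Finset.mem_filter.2 ⟨Finset.mem_univ _, ?_⟩
      have h2 := (Finset.mem_filter.1 hv).2
      rw [← h2]
      exact mem_cent.2 rfl
  by_contra hcon
  have hdvd : Nat.card A ∣ Y.card := by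
    rw [Nat.dvd_iff_prime_pow_dvd_dvd]
    intro p k hp hk
    by_cases hpA : p ∣ Nat.card A
    · have hC : p ∉ Ccomm G := fun h => hcon ⟨p, h, hpA⟩
      have hA0 : Nat.card A ≠ 0 := Nat.card_pos.ne'
      have h1 := pow_dvd_sum_wt_local hp hC θ ((Nat.card A).factorization p) (fun g hg => by
        rw [(htriv g).1 hg]
        exact Nat.ordProj_dvd _ _)
      rw [hsum, two_mul, pow_add] at h1
      obtain ⟨n, hn⟩ : ∃ n, n = Nat.card A / p ^ (Nat.card A).factorization p := ⟨_, rfl⟩
      have h2 : p ^ (Nat.card A).factorization p * n = Nat.card A := by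
        rw [hn]; exact Nat.ordProj_mul_ordCompl_eq_self _ _
      have h3 : Nat.Coprime (p ^ (Nat.card A).factorization p) n := by
        rw [hn]
        exact Nat.Coprime.pow_left _ (Nat.coprime_ordCompl hp hA0)
      have h4 : p ^ (Nat.card A).factorization p * p ^ (Nat.card A).factorization p ∣
          p ^ (Nat.card A).factorization p * (n * Y.card) := by
        rw [← mul_assoc, h2]
        exact h1
      have h5 : p ^ (Nat.card A).factorization p ∣ n * Y.card :=
        Nat.dvd_of_mul_dvd_mul_left (pow_pos hp.pos _) h4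
      have h6 : p ^ (Nat.card A).factorization p ∣ Y.card := h3.dvd_of_dvd_mul_left h5
      exact (pow_dvd_pow p ((Nat.Prime.pow_dvd_iff_le_factorization hp hA0).1 hk)).trans h6
    · rcases Nat.eq_zero_or_pos k with h0 | h0
      · rw [h0, pow_zero]; exact one_dvd _
      · exact absurd ((dvd_pow_self p h0.ne').trans hk) hpA
  exact absurd (Nat.le_of_dvd hpos hdvd) (not_le.2 hlt)

end Pool.Agent.MP_5fbfc2_al.CC
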