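import Pool.Agent.Lib.MP_5fbfc2_al.CC.Count

/-!
# Counting linear characters: the criterion for `p`-groups (MP_5fbfc2_al)
-/

namespace Pool.Agent.MP_5fbfc2_al.CC

open Module Pool.Agent.MP_5fbfc2_al

variable {G : Type*} [Group G]

/-- The criterion for an arbitrary finite group. -/
theorem exists_prime_of_count [Finite G] (D : ℕ)
    (hD : ∀ g : G, D ∣ Nat.card (Subgroup.centralizer ({g} : Set G)))
    (h : Nat.card G ^ 2 + D ^ 2 <
      numTriv G * D ^ 2 + Nat.card {x : G × G // x.1 * x.2 = x.2 * x.1}) :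
    ∃ p ∈ Ccomm G, p ∣ D := by
  by_contra hcon
  have h1 := ineq_of_no_prime D hD (fun p hp hpD => hcon ⟨p, hp, hpD⟩)
  omega

theorem card_comm [Fintype G] :
    Nat.card {x : G × G // x.1 * x.2 = x.2 * x.1} = ∑ u : G, Nat.card (cent u) := by
  rw [← sum_wt_one]
  refine Finset.sum_congr rfl (fun u _ => ?_)
  unfold wt Triv
  rw [if_pos]
  intro h _
  rfl

/-- The criterion for `p`-groups: if all class sizes are at most `c` and more than `c ^ 2 - c + 1`
linear characters are trivial on some centraliser, then `p` lies in the conductor. -/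
theorem mem_Ccomm_of_count [Finite G] {p : ℕ} (hp : p.Prime) (hG : IsPGroup p G) (c : ℕ)
    (hc : ∀ g : G, (Subgroup.centralizer ({g} : Set G)).index ≤ c)
    (h : c ^ 2 + 1 < numTriv G + c) : p ∈ Ccomm G := by
  have : Fact p.Prime := ⟨hp⟩
  have : Fintype G := Fintype.ofFinite G
  obtain ⟨g0, hg0⟩ := Finite.exists_min (fun g : G => Nat.card (cent g))
  obtain ⟨a, ha⟩ := (IsPGroup.iff_card (p := p)).1 (hG.to_subgroup (cent g0))
  have hD : ∀ g : G, Nat.card (cent g0) ∣ Nat.card (cent g) := by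
    intro g
    obtain ⟨b, hb⟩ := (IsPGroup.iff_card (p := p)).1 (hG.to_subgroup (cent g))
    have h1 := hg0 g
    rw [ha, hb] at h1 ⊢
    exact pow_dvd_pow p ((Nat.pow_le_pow_iff_right hp.one_lt).1 h1)
  have hidx : (cent g0).index * Nat.card (cent g0) = Nat.card G := Subgroup.index_mul_card _
  have hc0 : (cent g0).index ≤ c := hc g0
  have hpos : 0 < Nat.card (cent g0) := Nat.card_pos
  have hipos : 0 < (cent g0).index := Nat.pos_of_ne_zero Subgroup.index_ne_zero_of_finite
  have hcomm : (cent g0).index * Nat.card (cent g0) ^ 2 ≤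
      Nat.card {x : G × G // x.1 * x.2 = x.2 * x.1} := by
    rw [card_comm]
    calc (cent g0).index * Nat.card (cent g0) ^ 2 = Nat.card G * Nat.card (cent g0) := by
          rw [← hidx]; ring
      _ = ∑ _u : G, Nat.card (cent g0) := by
          rw [Finset.sum_const, Finset.card_univ, smul_eq_mul, ← Nat.card_eq_fintype_card]
      _ ≤ ∑ u : G, Nat.card (cent u) := Finset.sum_le_sum (fun u _ => hg0 u)
  obtain ⟨q, hq, hqD⟩ := exists_prime_of_count (Nat.card (cent g0)) hD (by
    have h1 : (cent g0).index ^ 2 + 1 < numTriv G + (cent g0).index := by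
      obtain ⟨d, hd⟩ := Nat.exists_eq_add_of_le hc0
      rw [hd] at h
      nlinarith
    calc Nat.card G ^ 2 + Nat.card (cent g0) ^ 2
        = ((cent g0).index ^ 2 + 1) * Nat.card (cent g0) ^ 2 := by rw [← hidx]; ring
      _ < (numTriv G + (cent g0).index) * Nat.card (cent g0) ^ 2 :=
          Nat.mul_lt_mul_of_pos_right h1 (pow_pos hpos 2)
      _ = numTriv G * Nat.card (cent g0) ^ 2 + (cent g0).index * Nat.card (cent g0) ^ 2 := by
          ring
      _ ≤ _ := Nat.add_le_add_left hcomm _)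
  have hq' : q.Prime := hq.1
  rw [ha] at hqD
  have h2 : q = p := (Nat.prime_dvd_prime_iff_eq hq' hp).1 (hq'.dvd_of_dvd_pow hqD)
  rw [← h2]
  exact hq

end Pool.Agent.MP_5fbfc2_al.CC
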