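import Pool.Agent.Lib.MP_5fbfc2_al.CC.Local
import Pool.Agent.Lib.MP_5fbfc2_al.CC.CyclicComm

/-!
# A nonabelian subgroup `K` with `[K, G]` of prime order (MP_5fbfc2_al)
-/

namespace Pool.Agent.MP_5fbfc2_al.CC

open Module Pool.Agent.MP_5fbfc2_al
open scoped commutatorElement

variable {G : Type*} [Group G]

theorem comm_pow_of_commute (g u : G) (h : g * ⁅g, u⁆ = ⁅g, u⁆ * g) (n : ℕ) :
    ⁅g ^ n, u⁆ = ⁅g, u⁆ ^ n := by
  induction n with
  | zero => simp
  | succ n ih =>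
    have h1 : ⁅g ^ (n + 1), u⁆ = (g * ⁅g ^ n, u⁆ * g⁻¹) * ⁅g, u⁆ := by
      simp only [commutatorElement_def, pow_succ' g n]
      group
    have h2 : Commute g (⁅g, u⁆ ^ n) := Commute.pow_right h n
    rw [h1, ih, h2.eq, mul_inv_cancel_right, pow_succ]

theorem exists_pow_of_prime_card {W : Subgroup G} (hp : (Nat.card W).Prime) {w x : G}
    (hw : w ∈ W) (hw1 : w ≠ 1) (hx : x ∈ W) : ∃ j : ℕ, w ^ j = x := by
  have : Fact (Nat.card W).Prime := ⟨hp⟩
  have h1 : (⟨w, hw⟩ : W) ≠ 1 := fun h => hw1 (congrArg Subtype.val h)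
  obtain ⟨j, hj⟩ := Submonoid.mem_powers_iff _ _ |>.1
    (mem_powers_of_prime_card (p := Nat.card W) rfl h1 (g' := ⟨x, hx⟩))
  exact ⟨j, congrArg Subtype.val hj⟩

/-- minimality -/
theorem centIn_minimal {K W : Subgroup G} (hp : (Nat.card W).Prime)
    (hW : ∀ k ∈ K, ∀ g : G, ⁅k, g⁆ ∈ W) (N : Subgroup K) (hne : N ≠ ⊤)
    (hNW : ∀ n ∈ N, ∀ w ∈ W, (n : G) * w = w * n) (v : G) (hv : centIn K v ≤ N) :
    centIn K v = N := by
  apply le_antisymm hv
  intro n hn
  by_contra hcon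
  apply hne
  rw [eq_top_iff]
  intro k _
  have hn1 : ⁅(n : G), v⁆ ≠ 1 := by
    intro h
    apply hcon
    rw [mem_centIn]
    exact (commutatorElement_eq_one_iff_mul_comm.1 h).symm
  obtain ⟨j, hj⟩ := exists_pow_of_prime_card hp (hW n n.2 v) hn1 (hW k k.2 v)
  rw [← comm_pow_of_commute _ _ (hNW n hn _ (hW n n.2 v)) j] at hj
  have h1 := index_eq_of_mk_eq hj
  have h2 : (n ^ j)⁻¹ * k ∈ centIn K v := by
    rw [Subgroup.mem_subgroupOf]
    simpa using h1
  have h3 := N.mul_mem (N.pow_mem hn j) (hv h2)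
  simpa using h3

/-- the case in which `[K, G]` centralises `K` -/
theorem exists_prime_of_prime_comm_aux [Finite G] {K W : Subgroup G} (hp : (Nat.card W).Prime)
    (hW : ∀ k ∈ K, ∀ g : G, ⁅k, g⁆ ∈ W) (hc : ∀ k ∈ K, ∀ w ∈ W, k * w = w * k)
    (hna : ¬ ∀ a ∈ K, ∀ b ∈ K, a * b = b * a) : ∃ q ∈ Ccomm G, q ∣ Nat.card K := by
  push Not at hna
  obtain ⟨y, hy, u, hu, hyu⟩ := hna
  have hy1 : ⁅y, u⁆ ≠ 1 := fun h => hyu (commutatorElement_eq_one_iff_mul_comm.1 h)
  have hN : (centIn K u).Normal := by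
    refine ⟨fun n hn k => ?_⟩
    rw [mem_centIn] at hn ⊢
    have h1 : (k : G) * n * (k : G)⁻¹ = ⁅(k : G), (n : G)⁆ * n := by
      rw [commutatorElement_def]; group
    have h2 : u * ⁅(k : G), (n : G)⁆ = ⁅(k : G), (n : G)⁆ * u := hc u hu _ (hW k k.2 n)
    have h3 : ((k * n * k⁻¹ : K) : G) = ⁅(k : G), (n : G)⁆ * n := by rw [← h1]; simp
    rw [h3, ← mul_assoc, h2, mul_assoc, hn, mul_assoc]
  have hne : centIn K u ≠ ⊤ := by
    intro h
    have h1 : (⟨y, hy⟩ : K) ∈ centIn K u := by rw [h]; exact Subgroup.mem_top _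
    exact hyu (mem_centIn.1 h1).symm
  have hcyc : IsCyclic (K ⧸ centIn K u) := by
    refine ⟨⟨((⟨y, hy⟩ : K) : K ⧸ centIn K u), fun q => ?_⟩⟩
    obtain ⟨k, rfl⟩ := QuotientGroup.mk_surjective q
    obtain ⟨j, hj⟩ := exists_pow_of_prime_card hp (hW y hy u) hy1 (hW k k.2 u)
    rw [← comm_pow_of_commute _ _ (hc y hy _ (hW y hy u)) j] at hj
    have h1 := index_eq_of_mk_eq hj
    refine Subgroup.mem_zpowers_iff.2 ⟨j, ?_⟩
    rw [zpow_natCast, ← QuotientGroup.mk_pow, QuotientGroup.eq, Subgroup.mem_subgroupOf]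
    simpa using h1
  obtain ⟨q, hq, hdvd⟩ := exists_prime_of_minimal_centIn K (centIn K u) hcyc hne ⟨u, hu⟩ rfl
    (fun v hv => centIn_minimal hp hW _ hne (fun n _ w hw => hc n n.2 w hw) v hv)
  exact ⟨q, hq, hdvd.trans (Subgroup.card_subgroup_dvd_card _)⟩

/-- **A nonabelian subgroup `K` with `[K, G]` of prime order.** -/
theorem exists_prime_of_prime_comm [Finite G] (K : Subgroup G)
    (hp : (Nat.card (⁅K, (⊤ : Subgroup G)⁆ : Subgroup G)).Prime)
    (hna : ¬ ∀ a ∈ K, ∀ b ∈ K, a * b = b * a) : ∃ q ∈ Ccomm G, q ∣ Nat.card K := by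
  classical
  obtain ⟨W, hWdef⟩ : ∃ W : Subgroup G, W = ⁅K, (⊤ : Subgroup G)⁆ := ⟨_, rfl⟩
  rw [← hWdef] at hp
  have hW : ∀ k ∈ K, ∀ g : G, ⁅k, g⁆ ∈ W := fun k hk g => by
    rw [hWdef]; exact Subgroup.commutator_mem_commutator hk (Subgroup.mem_top g)
  have hna' := hna
  push Not at hna'
  obtain ⟨a, ha, b, hb, hab⟩ := hna'
  have hw1 : ⁅a, b⁆ ≠ 1 := fun h => hab (commutatorElement_eq_one_iff_mul_comm.1 h)
  have hwW : ⁅a, b⁆ ∈ W := hW a ha b
  have hwK : ⁅a, b⁆ ∈ K := by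
    rw [commutatorElement_def]
    exact K.mul_mem (K.mul_mem (K.mul_mem ha hb) (K.inv_mem ha)) (K.inv_mem hb)
  have hWK : W ≤ K := by
    intro x hx
    obtain ⟨j, rfl⟩ := exists_pow_of_prime_card hp hwW hw1 hx
    exact K.pow_mem hwK j
  have hWn : W.Normal := by
    refine ⟨fun n hn g => ?_⟩
    have h1 : g * n * g⁻¹ = ⁅n, g⁆⁻¹ * n := by
      rw [commutatorElement_def]; group
    rw [h1]
    exact W.mul_mem (W.inv_mem (hW n (hWK hn) g)) hn
  have : Fact (Nat.card W).Prime := ⟨hp⟩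
  have hWc : IsCyclic W := isCyclic_of_prime_card (p := Nat.card W) rfl
  let χ : K →* MulAut W := (MulAut.conjNormal (H := W)).comp K.subtype
  have hχ : ∀ k : K, k ∈ χ.ker ↔ ∀ w ∈ W, (k : G) * w = w * k := by
    intro k
    rw [MonoidHom.mem_ker]
    constructor
    · intro h w hw
      have h1 : (χ k ⟨w, hw⟩ : G) = w := by rw [h]; rfl
      have h2 : (k : G) * w * (k : G)⁻¹ = w := h1
      exact mul_inv_eq_iff_eq_mul.1 h2
    · intro h
      ext w
      change (k : G) * w * (k : G)⁻¹ = w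
      rw [h w w.2, mul_inv_cancel_right]
  by_cases hcK : ∀ k ∈ K, ∀ w ∈ W, k * w = w * k
  · exact exists_prime_of_prime_comm_aux hp hW hcK hna
  · let A : Subgroup G := χ.ker.map K.subtype
    have hAK : A ≤ K := by
      rintro _ ⟨k, _, rfl⟩
      exact k.2
    by_cases hA : ∀ x ∈ A, ∀ y ∈ A, x * y = y * x
    · -- `N = C_K(w)` is the centraliser of `W` in `K`
      have hMc : IsCyclic (MulAut W) :=
        isCyclic_of_injective (IsCyclic.mulAutMulEquiv W).toMonoidHom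
          (IsCyclic.mulAutMulEquiv W).injective
      have hcyc : IsCyclic (K ⧸ χ.ker) :=
        isCyclic_of_injective (QuotientGroup.kerLift χ) (QuotientGroup.kerLift_injective χ)
      have hne : χ.ker ≠ ⊤ := by
        intro h
        apply hcK
        intro k hk w hw
        have h1 : (⟨k, hk⟩ : K) ∈ χ.ker := by rw [h]; exact Subgroup.mem_top _
        exact (hχ ⟨k, hk⟩).1 h1 w hw
      have hcent : centIn K ⁅a, b⁆ = χ.ker := by
        ext k
        rw [mem_centIn, hχ]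
        constructor
        · intro h w hw
          obtain ⟨j, rfl⟩ := exists_pow_of_prime_card hp hwW hw1 hw
          exact (Commute.pow_right (show Commute (k : G) ⁅a, b⁆ from h.symm) j).eq
        · intro h
          exact (h _ hwW).symm
      obtain ⟨q, hq, hdvd⟩ := exists_prime_of_minimal_centIn K χ.ker hcyc hne ⟨⁅a, b⁆, hwK⟩ hcent
        (fun v hv => centIn_minimal hp hW _ hne (fun n hn w hw => (hχ n).1 hn w hw) v hv)
      exact ⟨q, hq, hdvd.trans (Subgroup.card_subgroup_dvd_card _)⟩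
    · have h5 : ∃ q ∈ Ccomm G, q ∣ Nat.card A := by
        refine exists_prime_of_prime_comm_aux (K := A) hp (fun k hk g => hW k (hAK hk) g) ?_ hA
        rintro _ ⟨k, hk, rfl⟩ w hw
        exact (hχ k).1 hk w hw
      obtain ⟨q, hq, hdvd⟩ := h5
      exact ⟨q, hq, hdvd.trans (Subgroup.card_dvd_of_le hAK)⟩

end Pool.Agent.MP_5fbfc2_al.CC
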