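import Pool.Agent.Lib.MP_5fbfc2_al.CC.General
import Pool.Agent.Lib.MP_5fbfc2_al.CC.Bfc

/-!
# Bounded relative class sizes (MP_5fbfc2_al)
-/

namespace Pool.Agent.MP_5fbfc2_al.CC

open Module Pool.Agent.MP_5fbfc2_al Nat

variable {G : Type*} [Group G]

theorem centIn_coe (K : Subgroup G) (u : K) : centIn K (u : G) = cent u := by
  ext k
  rw [mem_centIn, mem_cent]
  constructor
  · intro h; exact Subtype.ext h
  · intro h; exact congrArg Subtype.val h

theorem wtIn_coe (K : Subgroup G) (θ : K →* ℂ) (u : K) : wtIn K θ (u : G) = wt θ u := by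
  classical
  unfold wtIn wt
  rw [centIn_coe]
  have h1 : (∀ k ∈ cent u, θ k = 1) ↔ Triv θ u := by
    unfold Triv
    constructor
    · intro h k hk; exact h k (mem_cent.2 hk)
    · intro h k hk; exact h k (mem_cent.1 hk)
  by_cases h : Triv θ u
  · rw [if_pos (h1.2 h), if_pos h]
  · rw [if_neg (fun h2 => h (h1.1 h2)), if_neg h]

theorem sq_dvd_sum_wt_rel [Finite G] (K : Subgroup G) [Fintype K] (D : ℕ)
    (hD : ∀ g : G, D ∣ Nat.card (centIn K g)) (hC : ∀ p ∈ Ccomm G, ¬ p ∣ D) (θ : K →* ℂ) :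
    D ^ 2 ∣ ∑ u : K, wt θ u := by
  have : Fintype G := Fintype.ofFinite G
  have hD0 : D ≠ 0 := by
    rintro rfl
    have := hD 1
    rw [zero_dvd_iff] at this
    exact Nat.card_pos.ne' this
  rw [Nat.dvd_iff_prime_pow_dvd_dvd]
  intro p k hp hk
  by_cases hpD : p ∣ D
  · have hpC : p ∉ Ccomm G := fun h => hC p h hpD
    have h1 := pow_dvd_sum_wtIn hp hpC K θ (D.factorization p)
      (fun g _ => (Nat.ordProj_dvd D p).trans (hD g))
    rw [Finset.sum_congr rfl (fun u _ => wtIn_coe K θ u)] at h1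
    refine (pow_dvd_pow p ?_).trans h1
    have h2 := (Nat.Prime.pow_dvd_iff_le_factorization hp (pow_ne_zero 2 hD0)).1 hk
    rwa [Nat.factorization_pow, Finsupp.smul_apply, smul_eq_mul] at h2
  · rcases Nat.eq_zero_or_pos k with h0 | h0
    · rw [h0]; simp
    · exfalso
      apply hpD
      exact hp.dvd_of_dvd_pow ((dvd_pow_self p h0.ne').trans hk)

/-- The basic inequality. -/
theorem ineq_of_no_prime_rel [Finite G] (K : Subgroup G) (D : ℕ)
    (hD : ∀ g : G, D ∣ Nat.card (centIn K g)) (hC : ∀ p ∈ Ccomm G, ¬ p ∣ D) :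
    numTriv K * D ^ 2 + Nat.card {x : K × K // x.1 * x.2 = x.2 * x.1} ≤
      Nat.card K ^ 2 + D ^ 2 := by
  classical
  have : Fintype K := Fintype.ofFinite K
  have : Fintype (K →* ℂ) := Fintype.ofFinite _
  have h1 := sum_wt_le (G := K)
  have hpos : ∀ θ : K →* ℂ, (∃ g, Triv θ g) → D ^ 2 ≤ ∑ u, wt θ u := by
    rintro θ ⟨g, hg⟩
    apply Nat.le_of_dvd _ (sq_dvd_sum_wt_rel K D hD hC θ)
    apply Finset.sum_pos' (fun _ _ => Nat.zero_le _)
    refine ⟨g, Finset.mem_univ _, ?_⟩
    unfold wt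
    rw [if_pos hg]
    exact Nat.card_pos
  have h2 : ∑ θ : K →* ℂ, ∑ u : K, wt θ u =
      ∑ u : K, wt (1 : K →* ℂ) u + ∑ θ ∈ Finset.univ.erase (1 : K →* ℂ), ∑ u : K, wt θ u := by
    rw [add_comm]
    exact (Finset.sum_erase_add _ _ (Finset.mem_univ _)).symm
  have h3 : ((Finset.univ.filter (fun θ : K →* ℂ => ∃ g, Triv θ g)).erase 1).card * D ^ 2 ≤
      ∑ θ ∈ Finset.univ.erase (1 : K →* ℂ), ∑ u : K, wt θ u := by
    rw [← smul_eq_mul]
    calc ((Finset.univ.filter (fun θ : K →* ℂ => ∃ g, Triv θ g)).erase 1).card • D ^ 2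
        ≤ ∑ θ ∈ (Finset.univ.filter (fun θ : K →* ℂ => ∃ g, Triv θ g)).erase 1,
            ∑ u : K, wt θ u := by
          apply Finset.card_nsmul_le_sum
          intro θ hθ
          exact hpos θ (Finset.mem_filter.1 (Finset.mem_of_mem_erase hθ)).2
      _ ≤ _ := by
          apply Finset.sum_le_sum_of_subset
          exact Finset.erase_subset_erase _ (Finset.filter_subset _ _)
  have h4 : (Finset.univ.filter (fun θ : K →* ℂ => ∃ g, Triv θ g)).card = numTriv K := by
    have h40 : Nat.card {θ : K →* ℂ // ∃ g, Triv θ g} =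
        (Finset.univ.filter (fun θ : K →* ℂ => ∃ g, Triv θ g)).card := by
      rw [Nat.card_eq_fintype_card, Fintype.card_subtype]
    rw [← h40]
    rfl
  have h5 : (1 : K →* ℂ) ∈ Finset.univ.filter (fun θ : K →* ℂ => ∃ g, Triv θ g) := by
    rw [Finset.mem_filter]
    exact ⟨Finset.mem_univ _, 1, fun h _ => rfl⟩
  rw [Finset.card_erase_of_mem h5, h4] at h3
  have h6 : 1 ≤ numTriv K := by
    rw [← h4]
    exact Finset.card_pos.2 ⟨_, h5⟩
  have h7 := sum_wt_one (G := K)
  have h8 : numTriv K * D ^ 2 = (numTriv K - 1) * D ^ 2 + D ^ 2 := by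
    obtain ⟨t, ht⟩ : ∃ t, numTriv K = t + 1 := ⟨numTriv K - 1, by omega⟩
    rw [ht, Nat.add_sub_cancel]
    ring
  rw [h8]
  omega

theorem index_center_le_rel [Finite G] (K : Subgroup G) {m : ℕ}
    (hm : Nat.card (commutator K) ≤ m) (hmv : ∀ v : G, (centIn K v).index ≤ m)
    (hC : ∀ p ∈ Ccomm G, ¬ p ∣ Nat.card K) :
    (Subgroup.center K).index ≤ m ^ m * m ^ (m ^ m) * (m ! ^ 2) ^ m := by
  classical
  by_contra hcon0
  have h := not_le.1 hcon0
  have : Fintype G := Fintype.ofFinite G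
  have hm0 : 0 < m := lt_of_lt_of_le Nat.card_pos hm
  have hT : m ! ^ 2 < numTriv K := by
    by_contra hcon
    have h1 := index_center_le hm
    have h2 : numTriv K ^ m ≤ (m ! ^ 2) ^ m := Nat.pow_le_pow_left (not_lt.1 hcon) m
    have h3 := Nat.mul_le_mul_left (m ^ m * m ^ (m ^ m)) h2
    omega
  let D : ℕ := Finset.univ.gcd (fun g : G => Nat.card (centIn K g))
  have hD : ∀ g : G, D ∣ Nat.card (centIn K g) := fun g => Finset.gcd_dvd (Finset.mem_univ g)
  have hG : Nat.card K ∣ m ! * D := by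
    have h1 : Nat.card K ∣ Finset.univ.gcd (fun g : G => m ! * Nat.card (centIn K g)) := by
      apply Finset.dvd_gcd
      intro g _
      have h2 : (centIn K g).index * Nat.card (centIn K g) = Nat.card K :=
        Subgroup.index_mul_card _
      rw [← h2]
      apply Nat.mul_dvd_mul_right
      apply Nat.dvd_factorial
      · exact Nat.pos_of_ne_zero Subgroup.index_ne_zero_of_finite
      · exact hmv g
    rw [Finset.gcd_mul_left, normalize_eq] at h1
    exact h1
  have hDK : D ∣ Nat.card K := (hD 1).trans (Subgroup.card_subgroup_dvd_card _)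
  have hDpos : 0 < D := Nat.pos_of_ne_zero (fun h0 => by
    rw [h0, zero_dvd_iff] at hDK
    exact Nat.card_pos.ne' hDK)
  have hle : Nat.card K ≤ m ! * D :=
    Nat.le_of_dvd (Nat.mul_pos (Nat.factorial_pos m) hDpos) hG
  have hcomm : 0 < Nat.card {x : K × K // x.1 * x.2 = x.2 * x.1} := by
    have : Nonempty {x : K × K // x.1 * x.2 = x.2 * x.1} := ⟨⟨(1, 1), rfl⟩⟩
    exact Nat.card_pos
  have h9 := ineq_of_no_prime_rel K D hD (fun p hp hpD => hC p hp (hpD.trans hDK))
  have h10 : Nat.card K ^ 2 + D ^ 2 ≤ numTriv K * D ^ 2 := by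
    calc Nat.card K ^ 2 + D ^ 2 ≤ (m ! * D) ^ 2 + D ^ 2 :=
          Nat.add_le_add_right (Nat.pow_le_pow_left hle 2) _
      _ = (m ! ^ 2 + 1) * D ^ 2 := by ring
      _ ≤ numTriv K * D ^ 2 := Nat.mul_le_mul_right _ hT
  omega

/-- For every `c` there is `N` such that every subgroup `K` of a finite group `G` with
`|K : C_K(v)| ≤ c` for all `v ∈ G`, the order of which has no prime divisor in the conductor of
`G`, satisfies `|K : Z(K)| ≤ N` and `|K'| ≤ N`. -/
theorem bound_of_rel_class_sizes (c : ℕ) : ∃ N : ℕ, ∀ (G : Type*) [Group G] [Finite G]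
    (K : Subgroup G), (∀ v : G, (centIn K v).index ≤ c) → (∀ p ∈ Ccomm G, ¬ p ∣ Nat.card K) →
    (Subgroup.center K).index ≤ N ∧ Nat.card (commutator K) ≤ N := by
  classical
  let m : ℕ := max c ((Finset.range (c ^ c * (c * (c * c)) + 1)).sup Subgroup.cardCommutatorBound)
  refine ⟨max (m ^ m * m ^ (m ^ m) * (m.factorial ^ 2) ^ m) m, ?_⟩
  intro G _ _ K hc hE
  have hcK : ∀ u : K, (cent u).index ≤ c := fun u => by
    rw [← centIn_coe]; exact hc u
  have hm : Nat.card (commutator K) ≤ m := by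
    refine (Subgroup.card_commutator_le_of_finite_commutatorSet K).trans
      (le_trans ?_ (le_max_right _ _))
    apply Finset.le_sup (f := Subgroup.cardCommutatorBound)
    rw [Finset.mem_range]
    exact Nat.lt_succ_of_le (card_commutatorSet_le hcK)
  refine ⟨?_, hm.trans (le_max_right _ _)⟩
  exact (index_center_le_rel K hm (fun v => (hc v).trans (le_max_left _ _)) hE).trans
    (le_max_left _ _)

end Pool.Agent.MP_5fbfc2_al.CC
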